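import Mathlib

/-! The area formula with bounded multiplicity. -/

open Set MeasureTheory Topology Filter
open scoped ENNReal NNReal

namespace Run7.h202

noncomputable section

variable {E : Type*} [NormedAddCommGroup E] [NormedSpace ℝ E] [FiniteDimensional ℝ E]

/-- the tolerance used in the decomposition into injective pieces -/
def tol (A : E →L[ℝ] E) : ℝ≥0 :=
  if h : A.det ≠ 0 then
    (if ‖((A.toContinuousLinearEquivOfDetNeZero h).symm : E →L[ℝ] E)‖₊ = 0 then 1 else
      ‖((A.toContinuousLinearEquivOfDetNeZero h).symm : E →L[ℝ] E)‖₊⁻¹ / 2)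
  else 1

lemma tol_ne (A : E →L[ℝ] E) : tol A ≠ 0 := by
  unfold tol
  split_ifs with h h2
  · exact one_ne_zero
  · exact div_ne_zero (inv_ne_zero h2) two_ne_zero
  · exact one_ne_zero

variable [MeasurableSpace E] [BorelSpace E]

/-- a differentiable map with nonzero Jacobian on `s`: decomposition into injective pieces -/
lemma exists_partition_injOn {s : Set E} {f : E → E} {f' : E → E →L[ℝ] E}
    (hf : ∀ x ∈ s, HasFDerivWithinAt f (f' x) s x) (hdet : ∀ x ∈ s, (f' x).det ≠ 0) :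
    ∃ t : ℕ → Set E, Pairwise (Function.onFun Disjoint t) ∧ (∀ n, MeasurableSet (t n)) ∧
      (s ⊆ ⋃ n, t n) ∧ ∀ n, InjOn f (s ∩ t n) := by
  obtain ⟨t, A, h1, h2, h3, h4, h5⟩ :=
    exists_partition_approximatesLinearOn_of_hasFDerivWithinAt f s f' hf tol tol_ne
  refine ⟨t, h1, h2, h3, fun n => ?_⟩
  rcases s.eq_empty_or_nonempty with rfl | hs
  · simp
  obtain ⟨y, hy, hA⟩ := h5 hs n
  have hdetA : (A n).det ≠ 0 := by rw [hA]; exact hdet y hy
  have h6 := h4 n
  set B := (A n).toContinuousLinearEquivOfDetNeZero hdetA with hB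
  have hBA : (B : E →L[ℝ] E) = A n :=
    ContinuousLinearMap.coe_toContinuousLinearEquivOfDetNeZero _ _
  have h7 : ApproximatesLinearOn f (B : E →L[ℝ] E) (s ∩ t n) (tol (A n)) := by
    rw [hBA]; exact h6
  refine h7.injOn ?_
  by_cases h8 : ‖(B.symm : E →L[ℝ] E)‖₊ = 0
  · left
    have h9 : (B.symm : E →L[ℝ] E) = 0 := by simpa using h8
    refine ⟨fun a b => ?_⟩
    have h10 : ∀ x : E, x = 0 := by
      intro x
      have h11 : B.symm (B x) = (B.symm : E →L[ℝ] E) (B x) := rfl
      rw [h9] at h11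
      simpa using h11
    rw [h10 a, h10 b]
  · right
    have h9 : tol (A n) = ‖(B.symm : E →L[ℝ] E)‖₊⁻¹ / 2 := by
      unfold tol
      rw [dif_pos hdetA, if_neg h8]
    rw [h9]
    exact NNReal.half_lt_self (inv_ne_zero h8)

/-- **Area formula with bounded multiplicity.** -/
theorem lintegral_abs_det_mul_le (μ : Measure E) [μ.IsAddHaarMeasure] {s : Set E}
    (hs : MeasurableSet s) {f : E → E} {f' : E → E →L[ℝ] E}
    (hf : ∀ x ∈ s, HasFDerivWithinAt f (f' x) s x) (hdet : ∀ x ∈ s, (f' x).det ≠ 0) {M : ℕ}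
    (hM : ∀ y, (s ∩ f ⁻¹' {y}).encard ≤ M) {g : E → ℝ≥0∞} (hg : Measurable g) :
    ∫⁻ x in s, ENNReal.ofReal |(f' x).det| * g (f x) ∂μ ≤ M * ∫⁻ y, g y ∂μ := by
  classical
  obtain ⟨t, h1, h2, h3, h4⟩ := exists_partition_injOn hf hdet
  have hsu : s = ⋃ n, s ∩ t n := by
    rw [← inter_iUnion]
    exact (inter_eq_left.2 h3).symm
  have hd : Pairwise (Function.onFun Disjoint fun n => s ∩ t n) := fun i j hij =>
    ((h1 hij).inter_left' s).inter_right' s
  have hm : ∀ n, MeasurableSet (s ∩ t n) := fun n => hs.inter (h2 n)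
  have hfd : ∀ n, ∀ x ∈ s ∩ t n, HasFDerivWithinAt f (f' x) (s ∩ t n) x := fun n x hx =>
    (hf x hx.1).mono inter_subset_left
  have himg : ∀ n, MeasurableSet (f '' (s ∩ t n)) := fun n =>
    measurable_image_of_fderivWithin (hm n) (hfd n) (h4 n)
  have e1 : ∫⁻ x in s, ENNReal.ofReal |(f' x).det| * g (f x) ∂μ =
      ∑' n, ∫⁻ y in f '' (s ∩ t n), g y ∂μ := by
    conv_lhs => rw [hsu]
    rw [lintegral_iUnion hm hd]
    congr 1
    ext n
    exact (lintegral_image_eq_lintegral_abs_det_fderiv_mul μ (hm n) (hfd n) (h4 n) g).symm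
  rw [e1]
  have e2 : ∀ n, ∫⁻ y in f '' (s ∩ t n), g y ∂μ =
      ∫⁻ y, (f '' (s ∩ t n)).indicator (fun _ => (1 : ℝ≥0∞)) y * g y ∂μ := by
    intro n
    rw [← lintegral_indicator (himg n)]
    congr 1
    ext y
    by_cases hy : y ∈ f '' (s ∩ t n)
    · rw [indicator_of_mem hy, indicator_of_mem hy, one_mul]
    · rw [indicator_of_notMem hy, indicator_of_notMem hy, zero_mul]
  simp only [e2]
  have hmm : ∀ n, AEMeasurable (fun y => (f '' (s ∩ t n)).indicator (fun _ => (1 : ℝ≥0∞)) y * g y) μ :=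
    fun n => ((measurable_const.indicator (himg n)).mul hg).aemeasurable
  rw [← lintegral_tsum hmm, ← lintegral_const_mul _ hg]
  refine lintegral_mono fun y => ?_
  rw [ENNReal.tsum_mul_right]
  gcongr
  -- multiplicity
  refine ENNReal.tsum_le_of_sum_range_le ?_ |>.trans le_rfl
  intro N
  have h5 : ∑ i ∈ Finset.range N, (f '' (s ∩ t i)).indicator (fun _ => (1 : ℝ≥0∞)) y =
      ((Finset.range N).filter fun i => y ∈ f '' (s ∩ t i)).card := by
    rw [Finset.card_filter]
    push_cast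
    refine Finset.sum_congr rfl fun i _ => ?_
    by_cases hy : y ∈ f '' (s ∩ t i)
    · rw [indicator_of_mem hy, if_pos hy]
    · rw [indicator_of_notMem hy, if_neg hy]
  rw [h5]
  have h6 : (((Finset.range N).filter fun i => y ∈ f '' (s ∩ t i)).card : ℕ∞) ≤ M := by
    refine le_trans ?_ (hM y)
    have hch : ∀ i ∈ (Finset.range N).filter (fun i => y ∈ f '' (s ∩ t i)),
        ∃ x, x ∈ s ∩ t i ∧ f x = y := by
      intro i hi
      obtain ⟨x, hx, hxy⟩ := (Finset.mem_filter.1 hi).2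
      exact ⟨x, hx, hxy⟩
    choose! x hx hxy using hch
    rw [← Set.encard_coe_eq_coe_finsetCard]
    have hinj : InjOn x ((Finset.range N).filter fun i => y ∈ f '' (s ∩ t i) : Finset ℕ) := by
      intro i hi j hj hij
      by_contra hne
      have h7 := hx i hi
      have h8 := hx j hj
      rw [hij] at h7
      exact (Set.disjoint_left.1 (h1 hne) h7.2 h8.2)
    rw [← hinj.encard_image]
    apply encard_le_encard
    rintro _ ⟨i, hi, rfl⟩
    exact ⟨(hx i hi).1, hxy i hi⟩
  exact_mod_cast h6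

end

end Run7.h202
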