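import Pool.Agent.Run7.h202.Frm

/-! Assembly of majorants over the regions between closed orbits which enclose the same zeros. -/

open Real Set MeasureTheory Topology Filter
open scoped ENNReal

namespace Run7.h202

noncomputable section

open Pool.Agent.H709R2 (rot wedge field ClosedOrbit)
open Pool.Agent.H709U (rf Orb)
open Pool.Agent.H709Q (Maj)
open Pool.Agent.N224.Hil

variable {P Q : MvPolynomial (Fin 2) ℝ} {κ : ℝ}

/-- the sets of zeros enclosed by the closed orbits of a class -/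
def Sf (Z : Finset (ℝ × ℝ)) (K : Set (Cyc P Q κ)) : Finset (Finset (ℝ × ℝ)) := by
  classical exact Z.powerset.filter fun S => ∃ c ∈ K, c.S Z = S

lemma mem_Sf {Z : Finset (ℝ × ℝ)} {K : Set (Cyc P Q κ)} {S : Finset (ℝ × ℝ)} :
    S ∈ Sf Z K ↔ ∃ c ∈ K, c.S Z = S := by
  classical
  unfold Sf
  rw [Finset.mem_filter, Finset.mem_powerset]
  constructor
  · exact fun h => h.2
  · rintro ⟨c, hc, rfl⟩
    refine ⟨?_, c, hc, rfl⟩
    intro z hz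
    exact (Cyc.mem_S.1 hz).1

/-- there are less than twice as many classes as zeros -/
lemma card_Sf {Z : Finset (ℝ × ℝ)} {K : Set (Cyc P Q κ)} (hK : ∀ c ∈ K, (c.S Z).Nonempty) :
    (Sf Z K).card ≤ 2 * Z.card := by
  classical
  rcases Z.eq_empty_or_nonempty with hZ | hZ
  · have h1 : Sf Z K = ∅ := by
      rw [Finset.eq_empty_iff_forall_notMem]
      intro S hS
      obtain ⟨c, hc, rfl⟩ := mem_Sf.1 hS
      obtain ⟨z, hz⟩ := hK c hc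
      rw [Cyc.mem_S, hZ] at hz
      simp at hz
    rw [h1]
    simp
  · have h1 := laminar_card Z hZ (Sf Z K) (fun S hS => by
      obtain ⟨c, hc, rfl⟩ := mem_Sf.1 hS
      exact ⟨hK c hc, fun z hz => (Cyc.mem_S.1 hz).1⟩) (fun S hS T hT => by
      obtain ⟨c, hc, rfl⟩ := mem_Sf.1 hS
      obtain ⟨c', hc', rfl⟩ := mem_Sf.1 hT
      rcases Cyc.tri c c' with h | h | h | h
      · exact Or.inl (by rw [Cyc.S_congr h])
      · exact Or.inl (Cyc.S_mono h)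
      · exact Or.inr (Or.inl (Cyc.S_mono h))
      · exact Or.inr (Or.inr (Cyc.S_disj h)))
    omega

/-- the closed orbits of a class, with angle `α`, which enclose `S` and lie in the region between
`i` and `o` -/
def cnt (Z : Finset (ℝ × ℝ)) (K : Set (Cyc P Q κ)) (S : Finset (ℝ × ℝ)) (i o : Cyc P Q κ) (α : ℝ) :
    Set (Set (ℝ × ℝ)) :=
  {C | ∃ c ∈ K, c.α = α ∧ c.C = C ∧ c.S Z = S ∧ C ⊆ Cyc.R i o}

/-- a pair of closed orbits of a class which enclose `S` -/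
def Pair (Z : Finset (ℝ × ℝ)) (K : Set (Cyc P Q κ)) (S : Finset (ℝ × ℝ)) (i o : Cyc P Q κ) : Prop :=
  i ∈ K ∧ o ∈ K ∧ i.S Z = S ∧ o.S Z = S ∧ i.m ≤ o.m

/-- sequences of pairs which exhaust the closed orbits of a class which enclose `S` -/
lemma exists_pairs {Z : Finset (ℝ × ℝ)} {K : Set (Cyc P Q κ)} {S : Finset (ℝ × ℝ)}
    (hS : S ∈ Sf Z K) : ∃ i o : ℕ → Cyc P Q κ, (∀ k, Pair Z K S (i k) (o k)) ∧
      (∀ j k, j ≤ k → (i k).m ≤ (i j).m ∧ (o j).m ≤ (o k).m) ∧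
      ∀ c ∈ K, c.S Z = S → ∃ k, (i k).m ≤ c.m ∧ c.m ≤ (o k).m := by
  obtain ⟨c₀, hc₀, hS₀⟩ := mem_Sf.1 hS
  have hb : c₀.m ∈ Cyc.m '' {c | c ∈ K ∧ c.S Z = S} := ⟨c₀, ⟨hc₀, hS₀⟩, rfl⟩
  obtain ⟨u, u1, u2, u3, u4⟩ := cofinal hb
  obtain ⟨v, v1, v2, v3, v4⟩ := coinitial hb
  choose o ho1 ho2 using u1
  choose i hi1 hi2 using v1
  refine ⟨i, o, fun k => ⟨(hi1 k).1, (ho1 k).1, (hi1 k).2, (ho1 k).2, ?_⟩, fun j k hjk => ?_,
    fun c hc hcS => ?_⟩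
  · rw [hi2, ho2]
    exact (v3 k).trans (u3 k)
  · rw [hi2, hi2, ho2, ho2]
    exact ⟨v2 hjk, u2 hjk⟩
  · obtain ⟨k, hk⟩ := u4 c.m ⟨c, ⟨hc, hcS⟩, rfl⟩
    obtain ⟨k', hk'⟩ := v4 c.m ⟨c, ⟨hc, hcS⟩, rfl⟩
    refine ⟨max k k', ?_, ?_⟩
    · rw [hi2]
      exact (v2 (le_max_right k k')).trans hk'
    · rw [ho2]
      exact hk.trans (u2 (le_max_left k k'))

theorem assemble {Z : Finset (ℝ × ℝ)} {K : Set (Cyc P Q κ)} (hK : ∀ c ∈ K, (c.S Z).Nonempty)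
    {B : ℝ} (h : ∀ i o : Finset (ℝ × ℝ) → Cyc P Q κ, (∀ S ∈ Sf Z K, Pair Z K S (i S) (o S)) →
      Maj (fun α => ∑ S ∈ Sf Z K, ((cnt Z K S (i S) (o S) α).encard : ℝ≥0∞)) B) :
    Maj (fun α => ({C | ∃ c ∈ K, c.α = α ∧ c.C = C}.encard : ℝ≥0∞)) B := by
  classical
  rcases K.eq_empty_or_nonempty with hKe | ⟨c₀, hc₀⟩
  · refine ⟨fun _ => 0, measurable_const, fun α _ => ?_, by simp⟩
    simp [hKe]
  have hex : ∀ S : Finset (ℝ × ℝ), ∃ i o : ℕ → Cyc P Q κ, S ∈ Sf Z K →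
      (∀ k, Pair Z K S (i k) (o k)) ∧
      (∀ j k, j ≤ k → (i k).m ≤ (i j).m ∧ (o j).m ≤ (o k).m) ∧
      ∀ c ∈ K, c.S Z = S → ∃ k, (i k).m ≤ c.m ∧ c.m ≤ (o k).m := by
    intro S
    by_cases hS : S ∈ Sf Z K
    · obtain ⟨i, o, h1⟩ := exists_pairs hS
      exact ⟨i, o, fun _ => h1⟩
    · exact ⟨fun _ => c₀, fun _ => c₀, fun h' => absurd h' hS⟩
  choose i o hio using hex
  have hmono : ∀ S ∈ Sf Z K, ∀ j k, j ≤ k → ∀ α, cnt Z K S (i S j) (o S j) α ⊆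
      cnt Z K S (i S k) (o S k) α := by
    rintro S hS j k hjk α C ⟨c, hc, h1, h2, h3, h4⟩
    obtain ⟨p1, p2, -⟩ := hio S hS
    obtain ⟨q1, q2, q3, q4, q5⟩ := p1 j
    obtain ⟨r1, r2, r3, r4, r5⟩ := p1 k
    refine ⟨c, hc, h1, h2, h3, h4.trans ?_⟩
    have hn := hK c hc
    rw [h3] at hn
    exact Cyc.R_mono (Z := Z) (by rw [r3, q3]) (by rw [q4, r4]) (by rw [q3]; exact hn)
      (by rw [q4]; exact hn) (p2 j k hjk).1 (p2 j k hjk).2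
  have h4 := Pool.Agent.H709Q.majRules.2.2.2 (fun (k : ℕ) α =>
    ∑ S ∈ Sf Z K, ((cnt Z K S (i S k) (o S k) α).encard : ℝ≥0∞)) B
    (by
      intro j k α hjk
      refine Finset.sum_le_sum fun S hS => ENat.toENNReal_mono (encard_le_encard ?_)
      exact hmono S hS j k hjk α)
    (fun k => h (fun S => i S k) (fun S => o S k) fun S hS => (hio S hS).1 k)
  refine Pool.Agent.H709U.maj_mono ?_ le_rfl h4
  intro α _
  refine Pool.Agent.H709R2.encard_le_of_finset fun F hF => ?_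
  have hb : ∀ C ∈ F, ∃ k : ℕ, ∃ S ∈ Sf Z K, ∃ c ∈ K, c.α = α ∧ c.C = C ∧ c.S Z = S ∧
      C ⊆ Cyc.R (i S k) (o S k) := by
    intro C hC
    obtain ⟨c, hc, h1, h2⟩ := hF hC
    have hS : c.S Z ∈ Sf Z K := mem_Sf.2 ⟨c, hc, rfl⟩
    obtain ⟨p1, p2, p3⟩ := hio _ hS
    obtain ⟨k, hk1, hk2⟩ := p3 c hc rfl
    obtain ⟨q1, q2, q3, q4, q5⟩ := p1 k
    refine ⟨k, _, hS, c, hc, h1, h2, rfl, ?_⟩
    rw [← h2]
    exact Cyc.C_sub_R (Z := Z) q3 q4.symm (hK c hc) hk1 hk2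
  choose! kk hk using hb
  obtain ⟨M, hM⟩ : ∃ M, M = F.sup kk := ⟨_, rfl⟩
  refine le_trans ?_ (le_iSup (fun (k : ℕ) =>
    ∑ S ∈ Sf Z K, ((cnt Z K S (i S k) (o S k) α).encard : ℝ≥0∞)) M)
  have h1 : (F : Set (Set (ℝ × ℝ))) ⊆ ⋃ S ∈ Sf Z K, cnt Z K S (i S M) (o S M) α := by
    intro C hC
    obtain ⟨S, hS, c, hc, h1, h2, h3, h5⟩ := hk C hC
    simp only [mem_iUnion]
    refine ⟨S, hS, hmono S hS (kk C) M ?_ α ⟨c, hc, h1, h2, h3, h5⟩⟩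
    rw [hM]
    exact Finset.le_sup (f := kk) hC
  have h2 := Pool.Agent.H709U.encard_biUnion_le' _ _ _ h1
  rw [encard_coe_eq_coe_finsetCard] at h2
  simpa using h2

end

end Run7.h202
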