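import Pool.Agent.N224.Hil.All

/-! Regions bounded by closed orbits of different rotated fields. -/

open Real Set MeasureTheory Topology Filter
open scoped ENNReal

namespace Run7.h202

noncomputable section

open Pool.Agent.H709R2 (rot wedge field ClosedOrbit)
open Pool.Agent.H709U (rf Orb)
open Pool.Agent.N224.Hil

/-- `E` is compact and the variation of the regularised angle of the field along its boundary is at
most `L` -/
structure Bd (P Q : MvPolynomial (Fin 2) ℝ) (E : Set (ℝ × ℝ)) (L : ℝ) : Prop where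
  cpt : IsCompact E
  bd : ∀ δ : ℝ, 0 < δ → ∀ G : ℝ × ℝ → ℝ, ContDiff ℝ 1 G → ∀ M : ℝ, 0 ≤ M →
    (∀ z ∈ E, |G z| ≤ M) → |∫ z in E, Ph P Q δ G z| ≤ M * L

/-- total absolute curvature of a closed orbit of the field rotated by `β` -/
def TC (P Q : MvPolynomial (Fin 2) ℝ) (β : ℝ) (γ : ℝ → ℝ × ℝ) (T : ℝ) : ℝ :=
  ∫ t in (0:ℝ)..T, |ev (KK P Q β) (γ t)| / Pool.Agent.H709R2.sq (field P Q (γ t))

variable {P Q : MvPolynomial (Fin 2) ℝ}

lemma Bd.mono {E : Set (ℝ × ℝ)} {L L' : ℝ} (h : Bd P Q E L) (hL : L ≤ L') : Bd P Q E L' :=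
  ⟨h.cpt, fun δ hδ G hG M hM hb => (h.bd δ hδ G hG M hM hb).trans
    (mul_le_mul_of_nonneg_left hL hM)⟩

lemma sq_orb_pos {β : ℝ} {γ : ℝ → ℝ × ℝ} {T : ℝ} (h : Orb (rf (field P Q) β) γ T) (t : ℝ) :
    0 < ev (SQ P Q) (γ t) := by
  rw [ev_SQ]
  apply Pool.Agent.H709R2.sq_pos
  intro h0
  apply h.ne t
  unfold rf
  rw [h0]
  unfold rot
  ext <;> simp

/-- the integral of the exterior derivative over the disc bounded by a closed orbit -/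
lemma fill_bd {β : ℝ} {γ : ℝ → ℝ × ℝ} {T : ℝ} (h : Orb (rf (field P Q) β) γ T) {δ : ℝ} (hδ : 0 < δ)
    {G : ℝ × ℝ → ℝ} (hG : ContDiff ℝ 1 G) {M : ℝ} (hM : ∀ t, |G (γ t)| ≤ M) :
    |∫ z in fl P Q β γ T, Ph P Q δ G z| ≤ M * TC P Q β γ T := by
  obtain ⟨e, he, h1⟩ := green_fill P Q allG allJ Pool.Agent.N224.Hil.n allT0 hδ h
  have h2 := h1 G hG
  have hγ := orb_cont h
  have he1 : |e| = 1 := by rcases he with h | h <;> simp [h]
  have h3 : |∫ z in fl P Q β γ T, Ph P Q δ G z| =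
      |∫ t in (0:ℝ)..T, G (γ t) * (ev (KK P Q β) (γ t) / sd P Q δ (γ t))| := by
    rw [h2, abs_mul, he1, one_mul]
    rfl
  rw [h3]
  have hM0 : 0 ≤ M := (abs_nonneg _).trans (hM 0)
  have hs : ∀ z, 0 < sd P Q δ z := fun z => sd_pos P Q hδ _
  have d1 : Continuous fun t => ev (KK P Q β) (γ t) := (ev_continuous _).comp hγ
  have d2 : Continuous fun t => sd P Q δ (γ t) := (sd_contDiff P Q (m := 0)).continuous.comp hγ
  have d2' : Continuous fun t => ev (SQ P Q) (γ t) := (ev_continuous _).comp hγ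
  have d3 : Continuous fun t => G (γ t) * (ev (KK P Q β) (γ t) / sd P Q δ (γ t)) :=
    (hG.continuous.comp hγ).mul (d1.div d2 fun t => (hs _).ne')
  have d4 : Continuous fun t => M * (|ev (KK P Q β) (γ t)| / ev (SQ P Q) (γ t)) :=
    continuous_const.mul (d1.abs.div d2' fun t => (sq_orb_pos h t).ne')
  refine (intervalIntegral.abs_integral_le_integral_abs h.pos.le).trans ?_
  unfold TC
  rw [← intervalIntegral.integral_const_mul]
  simp only [← ev_SQ]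
  refine intervalIntegral.integral_mono_on h.pos.le (d3.abs.intervalIntegrable _ _)
    (d4.intervalIntegrable _ _) fun t _ => ?_
  rw [abs_mul, abs_div, abs_of_pos (hs (γ t))]
  have h5 := sq_orb_pos h t
  have h6 : ev (SQ P Q) (γ t) ≤ sd P Q δ (γ t) := by
    unfold sd
    nlinarith
  exact mul_le_mul (hM t) (div_le_div_of_nonneg_left (abs_nonneg _) h5 h6)
    (div_nonneg (abs_nonneg _) (hs _).le) hM0

lemma TC_nonneg {β : ℝ} {γ : ℝ → ℝ × ℝ} {T : ℝ} (h : Orb (rf (field P Q) β) γ T) :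
    0 ≤ TC P Q β γ T := by
  unfold TC
  refine intervalIntegral.integral_nonneg h.pos.le fun t _ => ?_
  rw [← ev_SQ]
  exact div_nonneg (abs_nonneg _) (sq_orb_pos h t).le

/-- the interior of the disc bounded by a closed orbit -/
def il (P Q : MvPolynomial (Fin 2) ℝ) (β : ℝ) (γ : ℝ → ℝ × ℝ) (T : ℝ) : Set (ℝ × ℝ) :=
  ins γ (fun t => rf (field P Q) β (γ t)) T

lemma fl_eq (β : ℝ) (γ : ℝ → ℝ × ℝ) (T : ℝ) : fl P Q β γ T = range γ ∪ il P Q β γ T := rfl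

lemma il_open {β : ℝ} {γ : ℝ → ℝ × ℝ} {T : ℝ} (h : Orb (rf (field P Q) β) γ T) :
    IsOpen (il P Q β γ T) := (allT0 _ _ _ (orb_loop h)).1

lemma fl_cpt {β : ℝ} {γ : ℝ → ℝ × ℝ} {T : ℝ} (h : Orb (rf (field P Q) β) γ T) :
    IsCompact (fl P Q β γ T) := (allT0 _ _ _ (orb_loop h)).2

lemma range_disj_il (β : ℝ) (γ : ℝ → ℝ × ℝ) (T : ℝ) : Disjoint (range γ) (il P Q β γ T) := by
  rw [Set.disjoint_left]
  intro z hz hz'
  exact hz'.1 hz

lemma range_null {β : ℝ} {γ : ℝ → ℝ × ℝ} {T : ℝ} (h : Orb (rf (field P Q) β) γ T) :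
    volume (range γ) = 0 := Pool.Agent.N224.Hil.n _ _ _ (orb_loop h)

/-- the annulus between two closed orbits -/
lemma bd_ann {β₁ β₂ : ℝ} {γ₁ γ₂ : ℝ → ℝ × ℝ} {T₁ T₂ : ℝ} (h₁ : Orb (rf (field P Q) β₁) γ₁ T₁)
    (h₂ : Orb (rf (field P Q) β₂) γ₂ T₂) (hs : fl P Q β₁ γ₁ T₁ ⊆ il P Q β₂ γ₂ T₂) :
    Bd P Q (fl P Q β₂ γ₂ T₂ \ il P Q β₁ γ₁ T₁) (TC P Q β₁ γ₁ T₁ + TC P Q β₂ γ₂ T₂) := by
  have hc1 := fl_cpt h₁
  have hc2 := fl_cpt h₂
  have ho1 := il_open h₁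
  have h12 : il P Q β₁ γ₁ T₁ ⊆ fl P Q β₂ γ₂ T₂ := by
    intro z hz
    exact Or.inr (hs (Or.inr hz))
  refine ⟨hc2.diff ho1, fun δ hδ G hG M hM hb => ?_⟩
  have cP : Continuous (Ph P Q δ G) := Ph_continuous P Q hδ hG
  have i2 := cP.continuousOn.integrableOn_compact (μ := volume) hc2
  have i1 := cP.continuousOn.integrableOn_compact (μ := volume) hc1
  have e1 : ∫ z in fl P Q β₂ γ₂ T₂ \ il P Q β₁ γ₁ T₁, Ph P Q δ G z =
      (∫ z in fl P Q β₂ γ₂ T₂, Ph P Q δ G z) - ∫ z in il P Q β₁ γ₁ T₁, Ph P Q δ G z :=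
    setIntegral_sdiff ho1.measurableSet i2 h12
  have e2 : ∫ z in il P Q β₁ γ₁ T₁, Ph P Q δ G z = ∫ z in fl P Q β₁ γ₁ T₁, Ph P Q δ G z := by
    apply setIntegral_congr_set
    rw [fl_eq]
    have : (range γ₁ ∪ il P Q β₁ γ₁ T₁ : Set (ℝ × ℝ)) =ᵐ[volume] (∅ ∪ il P Q β₁ γ₁ T₁ : Set (ℝ × ℝ)) := by
      refine EventuallyEq.union ?_ (EventuallyEq.refl _ _)
      exact (ae_eq_empty.2 (range_null h₁))
    rw [Set.empty_union] at this
    exact this.symm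
  rw [e1, e2]
  have b1 := fill_bd h₁ hδ hG (M := M) (fun t => hb _ ⟨Or.inr (hs (Or.inl ⟨t, rfl⟩)),
    fun hz => (Set.disjoint_left.1 (range_disj_il (P := P) (Q := Q) β₁ γ₁ T₁)) ⟨t, rfl⟩ hz⟩)
  have b2 := fill_bd h₂ hδ hG (M := M) (fun t => hb _ ⟨Or.inl ⟨t, rfl⟩,
    fun hz => (Set.disjoint_left.1 (range_disj_il (P := P) (Q := Q) β₂ γ₂ T₂)) ⟨t, rfl⟩
      (hs (Or.inr hz))⟩)
  calc |(∫ z in fl P Q β₂ γ₂ T₂, Ph P Q δ G z) - ∫ z in fl P Q β₁ γ₁ T₁, Ph P Q δ G z|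
      ≤ |∫ z in fl P Q β₂ γ₂ T₂, Ph P Q δ G z| + |∫ z in fl P Q β₁ γ₁ T₁, Ph P Q δ G z| :=
        abs_sub _ _
    _ ≤ M * TC P Q β₂ γ₂ T₂ + M * TC P Q β₁ γ₁ T₁ := add_le_add b2 b1
    _ = M * (TC P Q β₁ γ₁ T₁ + TC P Q β₂ γ₂ T₂) := by ring

/-- a closed orbit itself -/
lemma bd_curve {β : ℝ} {γ : ℝ → ℝ × ℝ} {T : ℝ} (h : Orb (rf (field P Q) β) γ T) {L : ℝ}
    (hL : 0 ≤ L) : Bd P Q (fl P Q β γ T \ il P Q β γ T) L := by
  refine ⟨(fl_cpt h).diff (il_open h), fun δ _ G _ M hM _ => ?_⟩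
  have h1 : volume (fl P Q β γ T \ il P Q β γ T) = 0 := by
    refine measure_mono_null ?_ (range_null h)
    rintro z ⟨hz | hz, hz'⟩
    · exact hz
    · exact absurd hz hz'
  rw [setIntegral_measure_zero _ h1, abs_zero]
  positivity

end

end Run7.h202
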