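import Pool.Agent.H709U.B1
import Pool.Agent.H709U.B2
import Pool.Agent.H709U.B3

/-! Nondegenerate common zeros of two real polynomials in two variables; null sets. -/

open Set MeasureTheory Topology Filter
open scoped ENNReal NNReal

namespace Run7.h202

noncomputable section

open Pool.Agent
open Pool.Agent.H709R2 (rot wedge field contDiff_field)
open Pool.Agent.H709U (b1 b3)

lemma field_mul (h P Q : MvPolynomial (Fin 2) ℝ) (z : ℝ × ℝ) :
    field (h * P) (h * Q) z = (MvPolynomial.eval ![z.1, z.2] h) • field P Q z := by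
  unfold field
  simp [Prod.smul_mk]

/-- the number of nondegenerate common zeros -/
theorem nd_bezout {n : ℕ} {A B : MvPolynomial (Fin 2) ℝ} (hA : A.totalDegree ≤ n)
    (hB : B.totalDegree ≤ n) :
    {z : ℝ × ℝ | field A B z = 0 ∧ wedge (fderiv ℝ (field A B) z (1, 0))
      (fderiv ℝ (field A B) z (0, 1)) ≠ 0}.encard ≤ (n ^ 2 : ℕ) := by
  by_cases hAB : A = 0 ∧ B = 0
  · obtain ⟨rfl, rfl⟩ := hAB
    have h0 : {z : ℝ × ℝ | field 0 0 z = 0 ∧ wedge (fderiv ℝ (field 0 0) z (1, 0))
      (fderiv ℝ (field 0 0) z (0, 1)) ≠ 0} = ∅ := by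
      ext z
      simp only [mem_ofPred_eq, mem_empty_iff_false, iff_false, not_and, not_not]
      intro _
      have h1 : field 0 0 = fun _ : ℝ × ℝ => ((0 : ℝ), (0 : ℝ)) := by
        ext z <;> simp [field]
      rw [h1]
      simp [wedge]
    rw [h0]
    simp
  · have hne : A ≠ 0 ∨ B ≠ 0 := by tauto
    obtain ⟨h, A₁, B₁, rfl, rfl, hrel, h1, h2⟩ := b1 n A B hA hB hne
    obtain ⟨Z, hZc, hZ⟩ := b3 n A₁ B₁ h1 h2 hrel
    have hsub : {z : ℝ × ℝ | field (h * A₁) (h * B₁) z = 0 ∧
        wedge (fderiv ℝ (field (h * A₁) (h * B₁)) z (1, 0))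
        (fderiv ℝ (field (h * A₁) (h * B₁)) z (0, 1)) ≠ 0} ⊆ (Z : Set (ℝ × ℝ)) := by
      rintro z ⟨hz, hw⟩
      have hfun : field (h * A₁) (h * B₁) =
          fun z => (MvPolynomial.eval ![z.1, z.2] h) • field A₁ B₁ z := by
        ext1 z
        exact field_mul h A₁ B₁ z
      set e : ℝ × ℝ → ℝ := fun z => MvPolynomial.eval ![z.1, z.2] h with he
      have hed : DifferentiableAt ℝ e z :=
        ((Pool.Agent.H709R2.contDiff_evalPoly h (m := 1)).differentiable (by norm_num)) z
      have hfd : DifferentiableAt ℝ (field A₁ B₁) z :=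
        ((contDiff_field A₁ B₁ (m := 1)).differentiable (by norm_num)) z
      have hder : ∀ v, fderiv ℝ (field (h * A₁) (h * B₁)) z v =
          e z • fderiv ℝ (field A₁ B₁) z v + fderiv ℝ e z v • field A₁ B₁ z := by
        intro v
        rw [hfun]
        have := (hed.hasFDerivAt.smul hfd.hasFDerivAt).fderiv
        change fderiv ℝ (fun z => e z • field A₁ B₁ z) z v = _
        change fderiv ℝ (fun z => e z • field A₁ B₁ z) z = _ at this
        rw [this]
        simp
      have hez : e z ≠ 0 := by
        intro h0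
        apply hw
        rw [hder, hder, h0]
        unfold wedge
        simp only [zero_smul, zero_add, Prod.smul_fst, Prod.smul_snd, smul_eq_mul]
        ring
      have h3 : field A₁ B₁ z = 0 := by
        rw [field_mul] at hz
        exact (smul_eq_zero.1 hz).resolve_left hez
      exact (hZ z).1 h3
    calc _ ≤ (Z : Set (ℝ × ℝ)).encard := encard_le_encard hsub
      _ = (Z.card : ℕ∞) := by rw [Set.encard_coe_eq_coe_finsetCard]
      _ ≤ (n ^ 2 : ℕ) := by exact_mod_cast hZc

/-- the zero set of a nonzero real polynomial is a null set (same proof as in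
`Pool.Agent.H810R3.Tub.zero_null`) -/
theorem zero_null (n : ℕ) : ∀ P : MvPolynomial (Fin n) ℝ, P ≠ 0 →
    volume {y : Fin n → ℝ | MvPolynomial.eval y P = 0} = 0 := by
  induction n with
  | zero =>
    intro P hP
    have : {y : Fin 0 → ℝ | MvPolynomial.eval y P = 0} = ∅ := by
      ext y
      simp only [Set.mem_ofPred_eq, Set.mem_empty_iff_false, iff_false]
      intro h
      apply hP
      apply MvPolynomial.funext
      intro z
      have : z = y := Subsingleton.elim _ _
      rw [this, h, map_zero]
    rw [this, measure_empty]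
  | succ n ih =>
    intro P hP
    set f := MvPolynomial.finSuccEquiv ℝ n P with hf
    have hf0 : f ≠ 0 := by
      rw [hf]; exact (map_ne_zero_iff _ (MvPolynomial.finSuccEquiv ℝ n).injective).2 hP
    obtain ⟨m, hm⟩ : ∃ m, f.coeff m ≠ 0 := by
      by_contra hcon
      push Not at hcon
      exact hf0 (Polynomial.ext (by simpa using hcon))
    have hnull := ih (f.coeff m) hm
    set S := {y : Fin (n + 1) → ℝ | MvPolynomial.eval y P = 0} with hS
    set S' := {z : ℝ × (Fin n → ℝ) | MvPolynomial.eval (Fin.cons z.1 z.2 : Fin (n + 1) → ℝ) P = 0} with hS'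
    have hcont : Continuous (fun z : ℝ × (Fin n → ℝ) =>
        MvPolynomial.eval (Fin.cons z.1 z.2 : Fin (n + 1) → ℝ) P) := by
      refine (MvPolynomial.continuous_eval P).comp ?_
      refine continuous_pi ?_
      intro i
      refine Fin.cases ?_ (fun i => ?_) i
      · simp only [Fin.cons_zero]; fun_prop
      · simp only [Fin.cons_succ]; fun_prop
    have hmeas : MeasurableSet S' := (isClosed_singleton.preimage hcont).measurableSet
    have hpre : S = (MeasurableEquiv.piFinSuccAbove (fun _ => ℝ) 0) ⁻¹' S' := by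
      ext y
      simp only [hS, hS', Set.mem_ofPred_eq, Set.mem_preimage]
      have : (Fin.cons (((MeasurableEquiv.piFinSuccAbove (fun _ => ℝ) 0) y).1)
          (((MeasurableEquiv.piFinSuccAbove (fun _ => ℝ) 0) y).2) :
          Fin (n + 1) → ℝ) = y := by
        funext j
        refine Fin.cases ?_ (fun j => ?_) j
        · rfl
        · rfl
      rw [this]
    rw [hpre, (volume_preserving_piFinSuccAbove (fun _ => ℝ) 0).measure_preimage_equiv]
    have hswap : volume S' = (volume : Measure ((Fin n → ℝ) × ℝ)) (Prod.swap ⁻¹' S') := by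
      have := (Measure.measurePreserving_swap (μ := (volume : Measure (Fin n → ℝ)))
        (ν := (volume : Measure ℝ))).measure_preimage hmeas.nullMeasurableSet
      exact this.symm
    rw [hswap, Measure.volume_eq_prod, Measure.measure_prod_null (measurable_swap hmeas)]
    have hae : ∀ᵐ y : Fin n → ℝ, y ∉ {y : Fin n → ℝ |
        MvPolynomial.eval y (f.coeff m) = 0} := measure_eq_zero_iff_ae_notMem.1 hnull
    filter_upwards [hae] with y hy
    have hy' : MvPolynomial.eval y (f.coeff m) ≠ 0 := hy
    have hmap : f.map (MvPolynomial.eval y) ≠ 0 := by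
      intro h0
      apply hy'
      have := congrArg (fun q => Polynomial.coeff q m) h0
      simpa [Polynomial.coeff_map] using this
    have hfin : (Prod.mk y ⁻¹' (Prod.swap ⁻¹' S')).Finite := by
      refine Set.Finite.subset (Polynomial.rootSet_finite (f.map (MvPolynomial.eval y)) ℝ) ?_
      intro a ha
      rw [Polynomial.mem_rootSet]
      refine ⟨hmap, ?_⟩
      have h1 := MvPolynomial.eval_eq_eval_mv_eval' y a P
      rw [Polynomial.coe_aeval_eq_eval, ← hf] at *
      rw [← h1]
      exact ha
    exact hfin.measure_zero volume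

/-- the zero set in the plane of a nonzero real polynomial is a null set -/
theorem plane_null {Q : MvPolynomial (Fin 2) ℝ} (hQ : Q ≠ 0) :
    volume {z : ℝ × ℝ | MvPolynomial.eval ![z.1, z.2] Q = 0} = 0 := by
  have h1 := zero_null 2 Q hQ
  have h2 := (volume_preserving_finTwoArrow ℝ).symm.measure_preimage_equiv
    {y : Fin 2 → ℝ | MvPolynomial.eval y Q = 0}
  rw [h1] at h2
  rw [← h2]
  congr 1

end

end Run7.h202
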