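import Pool.Agent.Run7.h202.Geo

/-! Division by a common factor: total curvature does not change. -/

open Real Set MeasureTheory Topology Filter
open scoped ENNReal

namespace Run7.h202

noncomputable section

open Pool.Agent.H709R2 (rot wedge field ClosedOrbit)
open Pool.Agent.H709U (rf Orb V W dot)
open Pool.Agent.H709U.B2 (time_change rot_smul field_mul)
open Pool.Agent.H709Q (Maj)
open Pool.Agent.N224.Hil

lemma ev_KK_mul (h P Q : MvPolynomial (Fin 2) ℝ) (β : ℝ) (z : ℝ × ℝ) :
    ev (KK (h * P) (h * Q) β) z = ev h z ^ 3 * ev (KK P Q β) z := by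
  have h1 : KK (h * P) (h * Q) β = h ^ 3 * KK P Q β := by
    unfold KK NX NY
    simp only [MvPolynomial.pderiv_mul]
    ring
  rw [h1, pow_succ, pow_two, ev_mul, ev_mul, ev_mul]
  ring

lemma ev_SQ_mul (h P Q : MvPolynomial (Fin 2) ℝ) (z : ℝ × ℝ) :
    ev (SQ (h * P) (h * Q)) z = ev h z ^ 2 * ev (SQ P Q) z := by
  unfold SQ
  simp only [ev_add, ev_mul]
  ring

/-- a closed orbit of the rotation of `(h P, h Q)` is a closed orbit of the rotation of `(P, Q)`, with
the same total curvature -/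
theorem cyc_change {h P Q : MvPolynomial (Fin 2) ℝ} {κ : ℝ} (c : Cyc (h * P) (h * Q) κ) :
    ∃ c' : Cyc P Q κ, c'.α = c.α ∧ c'.C = c.C := by
  obtain ⟨α, γ, T, hα, hO, hκ⟩ := c
  set k : ℝ → ℝ := fun t => MvPolynomial.eval ![(γ t).1, (γ t).2] h with hk
  have hγc : Continuous γ := continuous_iff_continuousAt.2 fun t => (hO.ode t).continuousAt
  have hkc : Continuous k :=
    (Pool.Agent.H709R2.contDiff_evalPoly (m := 2) h).continuous.comp hγc
  have hval : ∀ t, rf (field (h * P) (h * Q)) α (γ t) = k t • rot α (field P Q (γ t)) := by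
    intro t
    show rot α (field (h * P) (h * Q) (γ t)) = _
    rw [field_mul, rot_smul]
  have hk0 : ∀ t, k t ≠ 0 := by
    intro t ht
    apply hO.ne t
    rw [hval, ht, zero_smul]
  have hkper : ∀ t, k (t + T) = k t := by
    intro t
    simp only [hk]
    rw [hO.per t]
  -- the sign
  obtain ⟨ε, hε, hεk⟩ : ∃ ε : ℝ, (ε = 1 ∨ ε = -1) ∧ ∀ t, 0 < ε * k t := by
    by_cases hs : ∀ t, 0 < k t
    · exact ⟨1, Or.inl rfl, fun t => by rw [one_mul]; exact hs t⟩
    · refine ⟨-1, Or.inr rfl, fun t => ?_⟩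
      push Not at hs
      obtain ⟨s, hs⟩ := hs
      by_contra hcon
      have h1 : 0 ≤ k t := by linarith
      obtain ⟨u, hu⟩ := mem_range_of_exists_le_of_exists_ge hkc ⟨s, hs⟩ ⟨t, h1⟩
      exact hk0 u hu
  have hε2 : ε * ε = 1 := by rcases hε with h | h <;> rw [h] <;> norm_num
  obtain ⟨τ, S, hS, hτs, hτd, hτp⟩ := time_change (fun t => ε * k t)
    (continuous_const.mul hkc) hεk T hO.pos (fun t => by simp only [hkper])
  have hper1 : ∀ v, γ (τ (v + S)) = γ (τ v) := fun v => by rw [hτp, hO.per]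
  have hper2 : ∀ v, γ (τ (v - S)) = γ (τ v) := fun v => by
    have := hper1 (v - S)
    rw [sub_add_cancel] at this
    exact this.symm
  have hes : Function.Surjective (fun u : ℝ => ε * u) := fun v =>
    ⟨ε * v, by simp only; rw [← mul_assoc, hε2, one_mul]⟩
  have hrange : range γ = range (fun u => γ (τ (ε * u))) :=
    ((hτs.comp hes).range_comp γ).symm
  have hode : ∀ u, HasDerivAt (fun u => γ (τ (ε * u))) (rf (field P Q) α (γ (τ (ε * u)))) u := by
    intro u
    have h1 : HasDerivAt (fun u : ℝ => ε * u) ε u := by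
      simpa using (hasDerivAt_id u).const_mul ε
    have h2 : HasDerivAt (fun u => τ (ε * u)) ((ε * k (τ (ε * u)))⁻¹ * ε) u :=
      (hτd (ε * u)).comp u h1
    have h3 := (hO.ode (τ (ε * u))).scomp u h2
    rw [hval, smul_smul] at h3
    have h4 : (ε * k (τ (ε * u)))⁻¹ * ε * k (τ (ε * u)) = 1 := by
      have h5 := (hεk (τ (ε * u))).ne'
      rw [mul_assoc, inv_mul_cancel₀ h5]
    rw [h4, one_smul] at h3
    exact h3
  have hper : ∀ u, γ (τ (ε * (u + S))) = γ (τ (ε * u)) := by
    intro u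
    rcases hε with h | h
    · rw [h, one_mul, one_mul, hper1]
    · rw [h, show (-1 : ℝ) * (u + S) = -1 * u - S by ring, hper2]
  have hnc : ∃ s t, γ (τ (ε * s)) ≠ γ (τ (ε * t)) := by
    have h1 : γ 0 ≠ γ (T / 2) := by
      intro h2
      obtain ⟨m, hm⟩ := hO.inj _ _ h2
      have h3 : ((2 * m + 1 : ℤ) : ℝ) * T = 0 := by
        push_cast
        linarith
      rcases mul_eq_zero.1 h3 with h4 | h4
      · have : (2 * m + 1 : ℤ) = 0 := by exact_mod_cast h4
        omega
      · exact hO.pos.ne' h4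
    have h2 : γ 0 ∈ range (fun u => γ (τ (ε * u))) := by rw [← hrange]; exact mem_range_self 0
    have h3 : γ (T / 2) ∈ range (fun u => γ (τ (ε * u))) := by
      rw [← hrange]; exact mem_range_self _
    obtain ⟨s, hs⟩ := h2
    obtain ⟨t, ht⟩ := h3
    exact ⟨s, t, by simp only at hs ht ⊢; rw [hs, ht]; exact h1⟩
  obtain ⟨S₀, h1, h2⟩ := min_period (Pool.Agent.H709R2.contDiff_field P Q) hS hode hper hnc
  refine ⟨⟨α, _, S₀, hα, h1, (TC_mono h1 h2).trans (le_trans (le_of_eq ?_) hκ)⟩, rfl, hrange.symm⟩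
  -- the curvature
  obtain ⟨G, hG⟩ : ∃ G : ℝ → ℝ, G = fun t => |ev (KK P Q α) (γ t)| / ev (SQ P Q) (γ t) := ⟨_, rfl⟩
  have hkev : ∀ t, ev h (γ t) = k t := fun t => rfl
  have hSQ : ∀ t, 0 < ev (SQ P Q) (γ t) := by
    intro t
    have h3 := sq_orb_pos hO t
    rw [ev_SQ_mul] at h3
    exact (pos_iff_pos_of_mul_pos h3).1 (by rw [hkev]; have := hk0 t; positivity)
  have hGc : Continuous G := by
    rw [hG]
    exact ((ev_continuous _).comp hγc).abs.div ((ev_continuous _).comp hγc) fun t => (hSQ t).ne'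
  have hGper : ∀ t, G (t + T) = G t := by
    intro t
    rw [hG]
    simp only [hO.per]
  have e1 : TC (h * P) (h * Q) α γ T = ∫ t in (0:ℝ)..T, ε * k t * G t := by
    unfold TC
    congr 1
    funext t
    rw [← ev_SQ, ev_KK_mul, ev_SQ_mul, hkev, hG]
    simp only
    have h3 := hSQ t
    have h4 := hk0 t
    have h5 := hεk t
    have h6 : |k t| = ε * k t := by
      have h7 : |ε * k t| = |k t| := by
        rw [abs_mul]
        rcases hε with h | h <;> simp [h]
      rw [← h7, abs_of_pos h5]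
    rw [abs_mul, abs_pow, ← sq_abs (k t), h6]
    field_simp
  have e2 : TC P Q α (fun u => γ (τ (ε * u))) S = ∫ u in (0:ℝ)..S, G (τ (ε * u)) := by
    unfold TC
    simp only [← ev_SQ]
    rw [hG]
  rw [e1, e2]
  obtain ⟨H, hH⟩ : ∃ H : ℝ → ℝ, H = fun t => ε * k t * G t := ⟨_, rfl⟩
  have hHc : Continuous H := by
    rw [hH]
    exact (continuous_const.mul hkc).mul hGc
  have hHper : Function.Periodic H T := by
    intro t
    rw [hH]
    simp only [hkper, hGper]
  obtain ⟨Φ, hΦ⟩ : ∃ Φ : ℝ → ℝ, Φ = fun t => ∫ s in (0:ℝ)..t, H s := ⟨_, rfl⟩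
  have hΦd : ∀ t, HasDerivAt Φ (H t) t := by
    intro t
    rw [hΦ]
    exact (hHc.integral_hasStrictDerivAt 0 t).hasDerivAt
  have hτc : Continuous τ := continuous_iff_continuousAt.2 fun t => (hτd t).continuousAt
  have hcomp : ∀ v, HasDerivAt (fun v => Φ (τ v)) (G (τ v)) v := by
    intro v
    have h3 := (hΦd (τ v)).comp v (hτd v)
    refine h3.congr_deriv ?_
    have h5 := (hεk (τ v)).ne'
    rw [hH]
    show ε * k (τ v) * G (τ v) * (ε * k (τ v))⁻¹ = G (τ v)
    rw [mul_right_comm, mul_inv_cancel₀ h5, one_mul]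
  have hGτ : Continuous fun v => G (τ v) := hGc.comp hτc
  have key : ∀ a, ∫ v in a..(a + S), G (τ v) = ∫ t in (0:ℝ)..T, H t := by
    intro a
    rw [intervalIntegral.integral_eq_sub_of_hasDerivAt (fun v _ => hcomp v)
      (hGτ.intervalIntegrable _ _), hτp, hΦ]
    simp only
    rw [intervalIntegral.integral_interval_sub_left (hHc.intervalIntegrable _ _)
      (hHc.intervalIntegrable _ _)]
    have := hHper.intervalIntegral_add_eq (τ a) 0
    rw [zero_add] at this
    exact this
  have e3 : ∫ t in (0:ℝ)..T, ε * k t * G t = ∫ t in (0:ℝ)..T, H t := by rw [hH]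
  rw [e3]
  rcases hε with h3 | h3
  · subst h3
    simp only [one_mul]
    have := key 0
    rw [zero_add] at this
    exact this
  · subst h3
    simp only [neg_mul, one_mul]
    rw [intervalIntegral.integral_comp_neg (fun v => G (τ v)), neg_zero]
    have := key (-S)
    rw [neg_add_cancel] at this
    exact this

end

end Run7.h202
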