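import Pool.Agent.Run7.h202.Asm
import Pool.Agent.N224.Hil.M2
import Pool.Agent.H709U.TopG

/-! Counting closed orbits of bounded curvature. -/

open Real Set MeasureTheory Topology Filter
open scoped ENNReal

namespace Run7.h202

noncomputable section

open Pool.Agent.H709R2 (rot wedge field ClosedOrbit winv)
open Pool.Agent.H709U (rf Orb kern V W mb ma)
open Pool.Agent.H709Q (Maj)
open Pool.Agent.N224.Hil

variable {P Q : MvPolynomial (Fin 2) ℝ} {κ : ℝ}

lemma sum_L {Z : Finset (ℝ × ℝ)} {K : Set (Cyc P Q κ)} (hK : ∀ c ∈ K, (c.S Z).Nonempty) {m : ℕ}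
    (hZ : Z.card ≤ m ^ 2) (hκ : 0 ≤ κ) : ∑ _S : Sf Z K, 2 * κ ≤ 4 * κ * m ^ 2 := by
  rw [Finset.sum_const, nsmul_eq_mul, Finset.card_univ, Fintype.card_coe]
  have h1 : ((Sf Z K).card : ℝ) ≤ 2 * m ^ 2 := by
    have h2 := (card_Sf hK).trans (Nat.mul_le_mul_left 2 hZ)
    exact_mod_cast h2
  nlinarith

lemma pair_bd {Z : Finset (ℝ × ℝ)} {K : Set (Cyc P Q κ)} (hK : ∀ c ∈ K, (c.S Z).Nonempty)
    {i o : Finset (ℝ × ℝ) → Cyc P Q κ} (hp : ∀ S ∈ Sf Z K, Pair Z K S (i S) (o S)) :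
    (∀ S : Sf Z K, Bd P Q (Cyc.R (i S) (o S)) (2 * κ)) ∧
    ∀ S T : Sf Z K, S ≠ T → Disjoint (Cyc.R (i S) (o S)) (Cyc.R (i T) (o T)) := by
  constructor
  · intro S
    obtain ⟨h1, h2, h3, h4, h5⟩ := hp S S.2
    exact Cyc.R_bd (Z := Z) (by rw [h3, h4]) (hK _ h1) h5
  · intro S T hST
    obtain ⟨h1, h2, h3, h4, h5⟩ := hp S S.2
    obtain ⟨k1, k2, k3, k4, k5⟩ := hp T T.2
    refine Cyc.R_disj (Z := Z) (by rw [h3, h4]) (by rw [k3, k4]) (hK _ h2) (hK _ k2) ?_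
    rw [h4, k4]
    exact fun h => hST (Subtype.ext h)

/-- closed orbits of comparable sizes in every class -/
theorem count_size {m : ℕ} (hP : P.totalDegree ≤ m) (hQ : Q.totalDegree ≤ m) (hκ : 0 ≤ κ)
    {Z : Finset (ℝ × ℝ)} (hZ : Z.card ≤ m ^ 2) {K : Set (Cyc P Q κ)}
    (hK : ∀ c ∈ K, (c.S Z).Nonempty) (d : Finset (ℝ × ℝ) → ℝ) {ρ : ℝ} (hρ : 0 < ρ)
    (hd : ∀ c ∈ K, 0 < d (c.S Z))
    (hlo : ∀ c ∈ K, ∃ x ∈ c.C, ∃ y ∈ c.C, d (c.S Z) ≤ √(Pool.Agent.H709R2.sq (x - y)))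
    (hbox : ∀ c ∈ K, ∀ x ∈ c.C, ∀ y ∈ c.C, |x.1 - y.1| ≤ ρ * d (c.S Z) ∧
      |x.2 - y.2| ≤ ρ * d (c.S Z)) :
    Maj (fun α => ({C | ∃ c ∈ K, c.α = α ∧ c.C = C}.encard : ℝ≥0∞))
      (ρ / 2 * (4 * κ * m ^ 2 + 6 * π * m ^ 2)) := by
  classical
  have hπ := pi_pos
  refine assemble hK fun i o hp => ?_
  obtain ⟨hbd, hdis⟩ := pair_bd hK hp
  have hF : ContDiff ℝ 2 (field P Q) := Pool.Agent.H709R2.contDiff_field P Q
  have hker : Measurable (ker (field P Q)) :=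
    (Pool.Agent.H709R2.measurable_kernel hF _).add (Pool.Agent.H709R2.measurable_kernel hF _)
  have hdS : ∀ S : Sf Z K, 0 < d S := by
    rintro ⟨S, hS⟩
    obtain ⟨c, hc, rfl⟩ := mem_Sf.1 hS
    exact hd c hc
  have hmb : ∀ S : Sf Z K, ∃ g : ℝ → ℝ≥0∞, Measurable g ∧
      (∀ α ∈ Ioo 0 π, ((cnt Z K S (i S) (o S) α).encard : ℝ≥0∞) ≤ g α) ∧
      ∫⁻ α, g α ≤ ENNReal.ofReal (1 / (2 * d S)) *
        ∫⁻ z in Cyc.R (i S) (o S), ker (field P Q) z := by
    intro S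
    have hdp := hdS S
    obtain ⟨g, hg1, hg2, hg3⟩ := mb (field P Q) hF (winv (field P Q))
      (fun z hz => Pool.Agent.H709R2.contDiffAt_winv hF hz) _ (hbd S).cpt (Pool.Agent.N224.Hil.ker (field P Q)) hker
      (2 * d S) (by positivity) (by
        intro α _ z _ hz
        unfold Pool.Agent.N224.Hil.ker
        rw [← ENNReal.ofReal_add (by unfold Pool.Agent.H709R2.sq; positivity)
          (by unfold Pool.Agent.H709R2.sq; positivity)]
        exact ENNReal.ofReal_le_ofReal (Pool.Agent.H709R2.abs_divW_winv_le hF hz α))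
    refine ⟨g, hg1, fun α hα => ?_, hg3⟩
    refine le_trans (ENat.toENNReal_le.2 (encard_le_encard ?_)) (hg2 α hα)
    rintro C ⟨c, hc, rfl, rfl, h3, h4⟩
    obtain ⟨x, hx, y, hy, hxy⟩ := hlo c hc
    rw [h3] at hxy
    exact ⟨c.γ, c.T, c.orb, rfl, h4, (by linarith :
      2 * d S ≤ 2 * √(Pool.Agent.H709R2.sq (x - y))).trans (orb_len hF.continuous c.orb hx hy)⟩
  choose g hg1 hg2 hg3 using hmb
  refine ⟨fun α => ∑ S : Sf Z K, g S α, Finset.measurable_fun_sum _ fun S _ => hg1 S,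
    fun α hα => ?_, ?_⟩
  · beta_reduce
    rw [← Finset.sum_coe_sort]
    exact Finset.sum_le_sum fun S _ => hg2 S α hα
  · refine (setLIntegral_le_lintegral _ _).trans ?_
    rw [lintegral_finsetSum _ fun S _ => hg1 S]
    refine (Finset.sum_le_sum fun S _ => hg3 S).trans ?_
    -- the strips
    have hstrip : ∀ (u : ℝ × ℝ), (u = ((0:ℝ), (-1:ℝ)) ∨ u = ((1:ℝ), (0:ℝ))) →
        ∀ S : Sf Z K, ∃ l : ℝ, ∀ z ∈ Cyc.R (i S) (o S),
          |u.1 * z.1 + u.2 * z.2 - l| ≤ ρ * d S / 2 := by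
      intro u hu S
      obtain ⟨h1, h2, h3, h4, h5⟩ := hp S S.2
      obtain ⟨l, hl⟩ := exists_mid w3 (orb_loop (o S).orb) u (D := ρ * d S) (by
        intro s t
        have h6 := hbox _ h2 ((o S).γ s) ⟨s, rfl⟩ ((o S).γ t) ⟨t, rfl⟩
        rw [h4] at h6
        rcases hu with rfl | rfl
        · simp only [zero_mul, zero_add, neg_mul, one_mul]
          rw [show -((o S).γ s).2 - -((o S).γ t).2 = -(((o S).γ s).2 - ((o S).γ t).2) by ring,
            abs_neg]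
          exact h6.2
        · simp only [zero_mul, add_zero, one_mul]
          exact h6.1)
      exact ⟨l, fun z hz => hl z hz.1⟩
    have hρd : ∀ S : Sf Z K, 0 < ρ * d S := fun S => mul_pos hρ (hdS S)
    choose lx hlx using hstrip _ (Or.inl rfl)
    choose ly hly using hstrip _ (Or.inr rfl)
    have hx := lin_sum hP hQ hbd hdis ((0:ℝ), (-1:ℝ)) lx hρd hlx (NX P Q) (deg_NX hP hQ)
      (fun z => by simp)
    have hy := lin_sum hP hQ hbd hdis ((1:ℝ), (0:ℝ)) ly hρd hly (NY P Q) (deg_NY hP hQ)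
      (fun z => by simp)
    have hL : ENNReal.ofReal (∑ _S : Sf Z K, 2 * κ + 6 * π * m ^ 2) ≤
        ENNReal.ofReal (4 * κ * m ^ 2 + 6 * π * m ^ 2) :=
      ENNReal.ofReal_le_ofReal (by linarith [sum_L hK hZ hκ])
    have e1 : ∀ z, ker (field P Q) z = ENNReal.ofReal (|ev (NX P Q) z| / ev (SQ P Q) z) +
        ENNReal.ofReal (|ev (NY P Q) z| / ev (SQ P Q) z) := by
      intro z
      rw [ev_NX, ev_NY, ev_SQ]
      rfl
    have hm : Measurable fun z => ENNReal.ofReal (|ev (NX P Q) z| / ev (SQ P Q) z) := by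
      have a1 := (ev_continuous (NX P Q)).measurable
      have a2 := (ev_continuous (SQ P Q)).measurable
      fun_prop
    have e2 : ∀ S : Sf Z K, ENNReal.ofReal (1 / (2 * d S)) *
        ∫⁻ z in Cyc.R (i S) (o S), ker (field P Q) z = ENNReal.ofReal (ρ / 4) *
        ((∫⁻ z in Cyc.R (i S) (o S), ENNReal.ofReal (2 / (ρ * d S)) *
          ENNReal.ofReal (|ev (NX P Q) z| / ev (SQ P Q) z)) +
        ∫⁻ z in Cyc.R (i S) (o S), ENNReal.ofReal (2 / (ρ * d S)) *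
          ENNReal.ofReal (|ev (NY P Q) z| / ev (SQ P Q) z)) := by
      intro S
      have hdp := hdS S
      simp only [e1]
      rw [lintegral_add_left hm, lintegral_const_mul' _ _ ENNReal.ofReal_ne_top,
        lintegral_const_mul' _ _ ENNReal.ofReal_ne_top, ← mul_add, ← mul_assoc,
        ← ENNReal.ofReal_mul (by positivity)]
      congr 2
      field_simp
      ring
    simp only [e2]
    rw [← Finset.mul_sum, Finset.sum_add_distrib]
    refine (mul_le_mul_right (add_le_add (hx.trans hL) (hy.trans hL)) _).trans ?_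
    rw [← ENNReal.ofReal_add (by positivity) (by positivity), ← ENNReal.ofReal_mul (by positivity)]
    apply ENNReal.ofReal_le_ofReal
    apply le_of_eq
    ring

/-- closed orbits which are uniformly star-shaped about all zeros which they enclose -/
theorem count_round {m : ℕ} (hP : P.totalDegree ≤ m) (hQ : Q.totalDegree ≤ m) (hκ : 0 ≤ κ)
    {Z : Finset (ℝ × ℝ)} (hZ : Z.card ≤ m ^ 2) {K : Set (Cyc P Q κ)}
    (hK : ∀ c ∈ K, (c.S Z).Nonempty) {x : ℝ} (hx : 0 < x)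
    (hr : ∀ c ∈ K, ∀ p ∈ c.S Z, ∀ z ∈ c.C,
      x ^ 2 * W (field P Q) p c.α z ^ 2 < V (field P Q) p c.α z ^ 2) :
    Maj (fun α => ({C | ∃ c ∈ K, c.α = α ∧ c.C = C}.encard : ℝ≥0∞))
      ((1 + 1 / x ^ 2) * (κ + 3 / 2 * π) * m ^ 2) := by
  classical
  have hπ := pi_pos
  refine assemble hK fun i o hp => ?_
  obtain ⟨hbd, hdis⟩ := pair_bd hK hp
  have hX : ContDiff ℝ 2 (field P Q) := Pool.Agent.H709R2.contDiff_field P Q
  have hc0 : 0 ≤ 1 + 1 / x ^ 2 := by positivity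
  have hpS : ∀ S : Sf Z K, ∃ p, p ∈ (S : Finset (ℝ × ℝ)) := by
    rintro ⟨S, hS⟩
    obtain ⟨c, hc, rfl⟩ := mem_Sf.1 hS
    exact hK c hc
  choose p hpm using hpS
  have hma : ∀ S : Sf Z K, ∃ g : ℝ → ℝ≥0∞, Measurable g ∧
      (∀ α ∈ Ioo 0 π, ((cnt Z K S (i S) (o S) α).encard : ℝ≥0∞) ≤ g α) ∧
      ∫⁻ α, g α ≤ ENNReal.ofReal (1 / (2 * π)) * ∫⁻ z in Cyc.R (i S) (o S),
        ENNReal.ofReal ((1 + 1 / x ^ 2) * kern (field P Q) (p S) z) := by
    intro S
    have hmeas : Measurable (fun z => ENNReal.ofReal ((1 + 1 / x ^ 2) *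
        kern (field P Q) (p S) z)) := by
      have h1 := (Pool.Agent.H709U.g2 m P Q hP hQ (p S)).1
      have : (fun z => ENNReal.ofReal ((1 + 1 / x ^ 2) * kern (field P Q) (p S) z)) =
          fun z => ENNReal.ofReal (1 + 1 / x ^ 2) * ENNReal.ofReal (kern (field P Q) (p S) z) := by
        funext z
        rw [ENNReal.ofReal_mul hc0]
      rw [this]
      exact h1.const_mul _
    obtain ⟨g, hg1, hg2, hg3⟩ := ma (field P Q) hX (fun α z => |V (field P Q) (p S) α z|⁻¹)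
      (fun q => V (field P Q) (p S) q.1 q.2 ^ 2 - x ^ 2 * W (field P Q) (p S) q.1 q.2 ^ 2)
      (Pool.Agent.H709U.g4_cont hX.continuous (p S) x) _ (hbd S).cpt
      (fun z => ENNReal.ofReal ((1 + 1 / x ^ 2) * kern (field P Q) (p S) z)) hmeas (2 * π)
      (by positivity)
      (by
        intro α _ z _ _ hF
        have hF' : x ^ 2 * W (field P Q) (p S) α z ^ 2 < V (field P Q) (p S) α z ^ 2 := by
          have : 0 < V (field P Q) (p S) α z ^ 2 - x ^ 2 * W (field P Q) (p S) α z ^ 2 := hF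
          linarith
        obtain ⟨h1, h2⟩ := Pool.Agent.H709U.g1 (field P Q) hX (p S) z α x hx hF'
        exact ⟨h1, ENNReal.ofReal_le_ofReal h2⟩)
      (by
        intro α _ γ T hγ _ hF
        refine Pool.Agent.H709U.g3 (field P Q) hX.continuous (p S) α γ T hγ fun t h0 => ?_
        have h1 : 0 < V (field P Q) (p S) α (γ t) ^ 2 -
          x ^ 2 * W (field P Q) (p S) α (γ t) ^ 2 := hF t
        rw [h0] at h1
        have : 0 ≤ x ^ 2 * W (field P Q) (p S) α (γ t) ^ 2 := by positivity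
        linarith)
    refine ⟨g, hg1, fun α hα => ?_, hg3⟩
    refine le_trans (ENat.toENNReal_le.2 (encard_le_encard ?_)) (hg2 α hα)
    rintro C ⟨c, hc, rfl, rfl, h3, h4⟩
    refine ⟨c.closed, h4, fun z hz => sub_pos.2 (hr c hc (p S) ?_ z hz)⟩
    rw [h3]
    exact hpm S
  choose g hg1 hg2 hg3 using hma
  refine ⟨fun α => ∑ S : Sf Z K, g S α, Finset.measurable_fun_sum _ fun S _ => hg1 S,
    fun α hα => ?_, ?_⟩
  · beta_reduce
    rw [← Finset.sum_coe_sort]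
    exact Finset.sum_le_sum fun S _ => hg2 S α hα
  · refine (setLIntegral_le_lintegral _ _).trans ?_
    rw [lintegral_finsetSum _ fun S _ => hg1 S]
    refine (Finset.sum_le_sum fun S _ => hg3 S).trans ?_
    have h1 := polar_sum hP hQ hbd hdis p
    have hL : ENNReal.ofReal (π / 2 * (∑ _S : Sf Z K, 2 * κ + 6 * π * m ^ 2)) ≤
        ENNReal.ofReal (π / 2 * (4 * κ * m ^ 2 + 6 * π * m ^ 2)) :=
      ENNReal.ofReal_le_ofReal (by
        have := sum_L hK hZ hκ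
        gcongr)
    have e2 : ∀ S : Sf Z K, ENNReal.ofReal (1 / (2 * π)) * ∫⁻ z in Cyc.R (i S) (o S),
        ENNReal.ofReal ((1 + 1 / x ^ 2) * kern (field P Q) (p S) z) =
        ENNReal.ofReal (1 / (2 * π) * (1 + 1 / x ^ 2)) *
          ∫⁻ z in Cyc.R (i S) (o S), ENNReal.ofReal (kern (field P Q) (p S) z) := by
      intro S
      simp only [ENNReal.ofReal_mul hc0]
      rw [lintegral_const_mul' _ _ ENNReal.ofReal_ne_top, ← mul_assoc,
        ← ENNReal.ofReal_mul (by positivity)]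
    simp only [e2]
    rw [← Finset.mul_sum]
    refine (mul_le_mul_right (h1.trans hL) _).trans ?_
    rw [← ENNReal.ofReal_mul (by positivity)]
    apply ENNReal.ofReal_le_ofReal
    apply le_of_eq
    field_simp
    ring

end

end Run7.h202
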