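import Pool.Agent.Run7.h202.Local

/-! One box: the averaged number of wide closed orbits is at most the double integral of the vector
product of the gradients of the argument. -/

open Real Set MeasureTheory Topology Filter
open scoped ENNReal NNReal

namespace Run7.h202

noncomputable section

open Pool.Agent
open Pool.Agent.H709R2 (rot wedge field contDiff_field divW winv)

/-- length of the gradient of the argument -/
def gn (F : ℝ × ℝ → ℝ × ℝ) (z : ℝ × ℝ) : ℝ := √(dth F (1, 0) z ^ 2 + dth F (0, 1) z ^ 2)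

lemma gn_nonneg (F : ℝ × ℝ → ℝ × ℝ) (z : ℝ × ℝ) : 0 ≤ gn F z := Real.sqrt_nonneg _

lemma measurable_gn {F : ℝ × ℝ → ℝ × ℝ} (hF : ContDiff ℝ 2 F) : Measurable (gn F) := by
  unfold gn
  exact (((measurable_dth hF _).pow_const 2).add ((measurable_dth hF _).pow_const 2)).sqrt

lemma dth_lin (F : ℝ × ℝ → ℝ × ℝ) (v z : ℝ × ℝ) :
    dth F v z = v.1 * dth F (1, 0) z + v.2 * dth F (0, 1) z := by
  unfold dth
  rw [H709R2.clm_decomp (fderiv ℝ F z) v]
  unfold wedge
  simp only [Prod.fst_add, Prod.snd_add, Prod.smul_fst, Prod.smul_snd, smul_eq_mul]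
  ring

/-- the divergence of the unit field is at most the length of the gradient of the argument -/
lemma abs_divW_le {F : ℝ × ℝ → ℝ × ℝ} (hF : ContDiff ℝ 2 F) {z : ℝ × ℝ} (hz : F z ≠ 0) (α : ℝ) :
    |divW (winv F) F α z| ≤ gn F z := by
  have hs := H709R2.sq_pos hz
  have hs2 := Real.sqrt_pos.2 hs
  have h1 := H709R2.divW_winv hF hz α
  have e1 : wedge (F z) (fderiv ℝ F z (1, 0)) = dth F (1, 0) z * H709R2.sq (F z) := by
    unfold dth
    field_simp
  have e2 : wedge (F z) (fderiv ℝ F z (0, 1)) = dth F (0, 1) z * H709R2.sq (F z) := by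
    unfold dth
    field_simp
  rw [e1, e2] at h1
  have h2 : divW (winv F) F α z * √(H709R2.sq (F z)) =
      (rot α (F z)).1 * dth F (0, 1) z - (rot α (F z)).2 * dth F (1, 0) z := by
    have : (divW (winv F) F α z * √(H709R2.sq (F z))) * H709R2.sq (F z) =
      ((rot α (F z)).1 * dth F (0, 1) z - (rot α (F z)).2 * dth F (1, 0) z) *
        H709R2.sq (F z) := by rw [h1]; ring
    exact mul_right_cancel₀ hs.ne' this
  have h3 : |divW (winv F) F α z| * √(H709R2.sq (F z)) ≤ gn F z * √(H709R2.sq (F z)) := by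
    have h4 : |divW (winv F) F α z| * √(H709R2.sq (F z)) =
        |(rot α (F z)).1 * dth F (0, 1) z - (rot α (F z)).2 * dth F (1, 0) z| := by
      rw [← h2, abs_mul, abs_of_pos hs2]
    rw [h4]
    unfold gn
    rw [← Real.sqrt_mul (by positivity)]
    apply Real.abs_le_sqrt
    rw [← H709R2.sq_rot α (F z)]
    unfold H709R2.sq
    nlinarith [sq_nonneg ((rot α (F z)).1 * dth F (1, 0) z + (rot α (F z)).2 * dth F (0, 1) z)]
  exact le_of_mul_le_mul_right h3 hs2

/-- the vector product in polar coordinates of the gradient at the first point -/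
lemma kap_polar (F : ℝ × ℝ → ℝ × ℝ) (x : ℝ × ℝ) :
    ∃ β : ℝ, ∀ y, kap F x y = gn F x * dth F (rot β (0, 1)) y := by
  set w : ℂ := ⟨dth F (1, 0) x, dth F (0, 1) x⟩ with hw
  have hn : ‖w‖ = gn F x := by
    rw [Complex.norm_def, Complex.normSq_apply]
    unfold gn
    congr 1
    simp only [hw]
    ring
  refine ⟨Complex.arg w, fun y => ?_⟩
  have h1 : gn F x * cos (Complex.arg w) = dth F (1, 0) x := by
    rw [← hn, Complex.norm_mul_cos_arg]
  have h2 : gn F x * sin (Complex.arg w) = dth F (0, 1) x := by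
    rw [← hn, Complex.norm_mul_sin_arg]
  rw [dth_lin F (rot (Complex.arg w) (0, 1)) y]
  unfold kap
  rw [← h1, ← h2]
  unfold rot
  simp only
  ring

/-- the extent of `C` in every direction is at least `r` -/
def Wide (r : ℝ) (C : Set (ℝ × ℝ)) : Prop :=
  ∀ β : ℝ, ∃ p ∈ C, ∃ q ∈ C, r ≤ (rot (-β) q).1 - (rot (-β) p).1

/-- lengths of the wide closed orbits in `Ω` -/
def lens (F : ℝ × ℝ → ℝ × ℝ) (Ω : Set (ℝ × ℝ)) (r : ℝ) : Set ℝ :=
  {l | ∃ α ∈ Ioo 0 π, ∃ γ T, H709U.Orb (H709U.rf F α) γ T ∧ (∀ t, γ t ∈ Ω) ∧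
    Wide r (range γ) ∧ l = ∫ t in (0:ℝ)..T, √(H709R2.sq (F (γ t)))}

/-- the double integral -/
def dbl (F : ℝ × ℝ → ℝ × ℝ) (Ω : Set (ℝ × ℝ)) : ℝ≥0∞ :=
  ∫⁻ x in Ω, ∫⁻ y in Ω, ENNReal.ofReal |kap F x y|

lemma le_len {F : ℝ × ℝ → ℝ × ℝ} (hF : ContDiff ℝ 2 F) {Ω : Set (ℝ × ℝ)} {r l : ℝ}
    (hl : l ∈ lens F Ω r) : r ≤ l := by
  obtain ⟨α, hα, γ, T, hγ, hin, hw, rfl⟩ := hl
  obtain ⟨_, ⟨s, rfl⟩, _, ⟨t, rfl⟩, hst⟩ := hw 0
  have hγc : Continuous γ := continuous_iff_continuousAt.2 fun t => (hγ.ode t).continuousAt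
  have hVc : Continuous fun t => H709U.rf F α (γ t) :=
    (H709R2.continuous_rot α).comp (hF.continuous.comp hγc)
  have hsp : ∀ t, √(H709R2.sq (H709U.rf F α (γ t))) = √(H709R2.sq (F (γ t))) := by
    intro t
    unfold H709U.rf
    rw [H709R2.sq_rot]
  obtain ⟨u, hu, hu2⟩ := (show Function.Periodic γ T from hγ.per).exists_mem_Ico hγ.pos t s
  have h1 := H709R2.dist_le_len (γ := γ) (V := fun t => H709U.rf F α (γ t)) hγ.ode hVc hu.1
  simp only [hsp] at h1
  have hc : Continuous fun t => √(H709R2.sq (F (γ t))) :=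
    (H709R2.continuous_sq.comp (hF.continuous.comp hγc)).sqrt
  have h2 : ∫ t in s..u, √(H709R2.sq (F (γ t))) ≤ ∫ t in s..(s + T), √(H709R2.sq (F (γ t))) := by
    rw [← intervalIntegral.integral_add_adjacent_intervals (hc.intervalIntegrable s u)
      (hc.intervalIntegrable u (s + T))]
    have h3 : 0 ≤ ∫ t in u..(s + T), √(H709R2.sq (F (γ t))) :=
      intervalIntegral.integral_nonneg hu.2.le fun t _ => Real.sqrt_nonneg _
    linarith
  have h3 : ∫ t in s..(s + T), √(H709R2.sq (F (γ t))) = ∫ t in (0:ℝ)..T, √(H709R2.sq (F (γ t))) := by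
    have hper' : Function.Periodic (fun t => √(H709R2.sq (F (γ t)))) T := fun t => by
      simp only [hγ.per]
    rw [hper'.intervalIntegral_add_eq s 0, zero_add]
  have h4 : r ≤ √(H709R2.sq (γ u - γ s)) := by
    refine hst.trans ?_
    rw [neg_zero, ← hu2]
    have e : ∀ z, (rot 0 z).1 = z.1 := by intro z; simp [rot]
    rw [e, e]
    refine (le_abs_self _).trans (Real.abs_le_sqrt ?_)
    unfold H709R2.sq
    simp only [Prod.fst_sub, Prod.snd_sub]
    nlinarith [sq_nonneg ((γ u).2 - (γ s).2)]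
  linarith

/-- lower bound for the double integral by the lengths of the wide orbits -/
lemma dbl_ge {F : ℝ × ℝ → ℝ × ℝ} (hF : ContDiff ℝ 2 F) {Z : Set (ℝ × ℝ)}
    (hZ : Z.Countable) (hZ0 : ∀ z, F z = 0 → z ∈ Z) {Ω : Set (ℝ × ℝ)} (hΩ : Convex ℝ Ω)
    (hΩm : MeasurableSet Ω) {r : ℝ} (hr : 0 < r) {l : ℝ} (hl : l ∈ lens F Ω r) :
    ENNReal.ofReal (2 * r ^ 2 / l) * (∫⁻ x in Ω, ENNReal.ofReal (gn F x)) ≤ dbl F Ω := by
  obtain ⟨α, hα, γ, T, hγ, hin, hw, rfl⟩ := hl
  have hm : Measurable fun x => ENNReal.ofReal (gn F x) := (measurable_gn hF).ennreal_ofReal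
  rw [← lintegral_const_mul _ hm]
  unfold dbl
  refine lintegral_mono fun x => ?_
  obtain ⟨β, hβ⟩ := kap_polar F x
  have h1 := local_lower hF hZ hZ0 hΩ hΩm (β := β) hγ hin hr (by
    obtain ⟨_, ⟨s, rfl⟩, _, ⟨t, rfl⟩, hst⟩ := hw β
    exact ⟨s, t, hst⟩)
  calc ENNReal.ofReal (2 * r ^ 2 / ∫ t in (0:ℝ)..T, √(H709R2.sq (F (γ t)))) *
        ENNReal.ofReal (gn F x)
      ≤ (∫⁻ z in Ω, ENNReal.ofReal |dth F (rot β (0, 1)) z|) * ENNReal.ofReal (gn F x) := by
        gcongr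
    _ = ∫⁻ y in Ω, ENNReal.ofReal |kap F x y| := by
        have hmd : Measurable fun z => ENNReal.ofReal |dth F (rot β (0, 1)) z| :=
          (measurable_dth hF _).abs.ennreal_ofReal
        rw [← lintegral_mul_const _ hmd]
        refine lintegral_congr fun y => ?_
        rw [hβ y, abs_mul, abs_of_nonneg (gn_nonneg F x), mul_comm,
          ENNReal.ofReal_mul (gn_nonneg F x)]

/-- **One box.** -/
theorem box_bound {F : ℝ × ℝ → ℝ × ℝ} (hF : ContDiff ℝ 2 F) {Z : Set (ℝ × ℝ)}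
    (hZ : Z.Countable) (hZ0 : ∀ z, F z = 0 → z ∈ Z) {Ω : Set (ℝ × ℝ)} (hΩ : Convex ℝ Ω)
    (hΩc : IsCompact Ω) {r : ℝ} (hr : 0 < r) :
    ∃ g : ℝ → ℝ≥0∞, Measurable g ∧
      (∀ α ∈ Ioo 0 π, ({C | ∃ γ T, H709U.Orb (H709U.rf F α) γ T ∧ C = range γ ∧ C ⊆ Ω ∧
        Wide r C}.encard : ℝ≥0∞) ≤ g α) ∧
      ∫⁻ α, g α ≤ ENNReal.ofReal (1 / (2 * r ^ 2)) * dbl F Ω := by
  by_cases hS : (lens F Ω r).Nonempty
  · set L : ℝ := sInf (lens F Ω r) with hL
    have hbdd : BddBelow (lens F Ω r) := ⟨r, fun l hl => le_len hF hl⟩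
    have hrL : r ≤ L := le_csInf hS fun l hl => le_len hF hl
    have hLpos : 0 < L := hr.trans_le hrL
    have hh : Measurable fun z => ENNReal.ofReal (gn F z) := (measurable_gn hF).ennreal_ofReal
    obtain ⟨g, hg1, hg2, hg3⟩ := H709U.mb F hF (winv F) (fun z hz => H709R2.contDiffAt_winv hF hz)
      Ω hΩc (fun z => ENNReal.ofReal (gn F z)) hh L hLpos
      (fun α _ z _ hz => ENNReal.ofReal_le_ofReal (abs_divW_le hF hz α))
    refine ⟨g, hg1, fun α hα => ?_, hg3.trans ?_⟩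
    · refine le_trans (ENat.toENNReal_le.2 (encard_le_encard ?_)) (hg2 α hα)
      rintro C ⟨γ, T, hγ, rfl, hC, hw⟩
      refine ⟨γ, T, hγ, rfl, hC, ?_⟩
      have h1 : ∫ t in (0:ℝ)..T, winv F (γ t) * H709R2.sq (F (γ t)) =
          ∫ t in (0:ℝ)..T, √(H709R2.sq (F (γ t))) := by
        congr 1
        ext1 t
        unfold winv
        have h2 : 0 ≤ H709R2.sq (F (γ t)) := by unfold H709R2.sq; positivity
        rcases eq_or_lt_of_le h2 with h3 | h3
        · rw [← h3]; simp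
        · have h4 := Real.sqrt_pos.2 h3
          rw [inv_mul_eq_div, div_eq_iff h4.ne', Real.mul_self_sqrt h2]
      rw [h1]
      exact csInf_le hbdd ⟨α, hα, γ, T, hγ, fun t => hC ⟨t, rfl⟩, hw, rfl⟩
    · -- the limit in the length
      have key : ENNReal.ofReal (2 * r ^ 2 / L) * (∫⁻ x in Ω, ENNReal.ofReal (gn F x)) ≤
          dbl F Ω := by
        have hall : ∀ l ∈ lens F Ω r,
            ENNReal.ofReal (2 * r ^ 2 / l) * (∫⁻ x in Ω, ENNReal.ofReal (gn F x)) ≤ dbl F Ω :=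
          fun l hl => dbl_ge hF hZ hZ0 hΩ hΩc.measurableSet hr hl
        set A : ℝ≥0∞ := ∫⁻ x in Ω, ENNReal.ofReal (gn F x) with hA
        set J : ℝ≥0∞ := dbl F Ω with hJ
        rcases eq_or_ne J ⊤ with hJt | hJt
        · rw [hJt]; exact le_top
        obtain ⟨l₀, hl₀⟩ := hS
        have hl₀pos : 0 < l₀ := hr.trans_le (le_len hF hl₀)
        have hAt : A ≠ ⊤ := by
          intro hAt
          have h1 := hall l₀ hl₀
          rw [hAt, ENNReal.mul_top (by
            simp only [ne_eq, ENNReal.ofReal_eq_zero, not_le]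
            positivity)] at h1
          exact hJt (top_le_iff.1 h1)
        have hall' : ∀ l ∈ lens F Ω r, 2 * r ^ 2 * A.toReal ≤ J.toReal * l := by
          intro l hl
          have hlpos : 0 < l := hr.trans_le (le_len hF hl)
          have h1 := ENNReal.toReal_mono hJt (hall l hl)
          rw [ENNReal.toReal_mul, ENNReal.toReal_ofReal (by positivity), div_mul_eq_mul_div,
            div_le_iff₀ hlpos] at h1
          exact h1
        have hfin : 2 * r ^ 2 * A.toReal ≤ J.toReal * L := by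
          rcases eq_or_lt_of_le (ENNReal.toReal_nonneg (a := J)) with h0 | h0
          · have h1 := hall' l₀ hl₀
            rw [← h0] at h1 ⊢
            simpa using h1
          · rw [← div_le_iff₀' h0]
            refine le_csInf ⟨l₀, hl₀⟩ fun l hl => ?_
            rw [div_le_iff₀' h0]
            exact hall' l hl
        rw [← ENNReal.ofReal_toReal hAt, ← ENNReal.ofReal_toReal hJt,
          ← ENNReal.ofReal_mul (by positivity)]
        apply ENNReal.ofReal_le_ofReal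
        rw [div_mul_eq_mul_div, div_le_iff₀ hLpos]
        exact hfin
      calc ENNReal.ofReal (1 / L) * ∫⁻ z in Ω, ENNReal.ofReal (gn F z)
          = ENNReal.ofReal (1 / (2 * r ^ 2)) * (ENNReal.ofReal (2 * r ^ 2 / L) *
              ∫⁻ z in Ω, ENNReal.ofReal (gn F z)) := by
            rw [← mul_assoc, ← ENNReal.ofReal_mul (by positivity)]
            congr 2
            field_simp
        _ ≤ _ := by gcongr
  · refine ⟨fun _ => 0, measurable_const, fun α hα => ?_, by simp⟩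
    have h1 : {C | ∃ γ T, H709U.Orb (H709U.rf F α) γ T ∧ C = range γ ∧ C ⊆ Ω ∧
        Wide r C} = ∅ := by
      ext C
      simp only [mem_ofPred_eq, mem_empty_iff_false, iff_false]
      rintro ⟨γ, T, hγ, rfl, hC, hw⟩
      exact hS ⟨_, α, hα, γ, T, hγ, fun t => hC ⟨t, rfl⟩, hw, rfl⟩
    rw [h1]
    simp

end

end Run7.h202
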