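import Pool.Agent.Run7.h202.Geo

/-! Round closed orbits of bounded curvature and of all sizes. -/

open Real Set MeasureTheory Topology Filter
open scoped ENNReal

namespace Run7.h202

noncomputable section

open Pool.Agent.H709R2 (rot wedge field ClosedOrbit)
open Pool.Agent.H709U (rf Orb V W dot)
open Pool.Agent.H709Q (Maj)
open Pool.Agent.N224.Hil

variable {P Q : MvPolynomial (Fin 2) ℝ}

/-- all tangent lines of `c` have distance at least `β` times the diameter from some zero of the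
field -/
def Rd (β : ℝ) {κ : ℝ} (c : Cyc P Q κ) : Prop :=
  ∃ p, field P Q p = 0 ∧ ∀ x ∈ c.C, ∀ y ∈ c.C, ∀ z ∈ c.C,
    β * ds x y * √(Pool.Agent.H709R2.sq (rf (field P Q) c.α z)) ≤
      |wedge (z - p) (rf (field P Q) c.α z)|

lemma sq_rf_pos {κ : ℝ} (c : Cyc P Q κ) {z : ℝ × ℝ} (hz : z ∈ c.C) :
    0 < Pool.Agent.H709R2.sq (rf (field P Q) c.α z) := by
  obtain ⟨t, rfl⟩ := hz
  exact Pool.Agent.H709R2.sq_pos (c.orb.ne t)

lemma Rd_mem {β : ℝ} (hβ : 0 < β) {κ : ℝ} {c : Cyc P Q κ} {p : ℝ × ℝ}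
    (h : ∀ x ∈ c.C, ∀ y ∈ c.C, ∀ z ∈ c.C,
      β * ds x y * √(Pool.Agent.H709R2.sq (rf (field P Q) c.α z)) ≤
        |wedge (z - p) (rf (field P Q) c.α z)|) : p ∈ c.I := by
  refine mem_I c fun z hz h0 => ?_
  obtain ⟨x, hx, y, hy, hxy⟩ := exists_two c
  have h1 := h x hx y hy z hz
  rw [h0, abs_zero] at h1
  have h2 := Real.sqrt_pos.2 (sq_rf_pos c hz)
  have h3 : 0 < β * ds x y * √(Pool.Agent.H709R2.sq (rf (field P Q) c.α z)) := by positivity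
  linarith

lemma wedge_le (a b : ℝ × ℝ) : |wedge a b| ≤ √(a.1 ^ 2 + a.2 ^ 2) * √(Pool.Agent.H709R2.sq b) := by
  rw [← Real.sqrt_mul (by positivity)]
  apply Real.abs_le_sqrt
  unfold wedge Pool.Agent.H709R2.sq
  nlinarith [sq_nonneg (a.1 * b.1 + a.2 * b.2)]

lemma dot_le (a b : ℝ × ℝ) : |dot a b| ≤ √(a.1 ^ 2 + a.2 ^ 2) * √(Pool.Agent.H709R2.sq b) := by
  rw [← Real.sqrt_mul (by positivity)]
  apply Real.abs_le_sqrt
  unfold dot Pool.Agent.H709R2.sq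
  nlinarith [sq_nonneg (a.1 * b.2 - a.2 * b.1)]

/-- large closed orbits are star-shaped about all zeros which they enclose -/
lemma large_round {β : ℝ} (hβ : 0 < β) {κ : ℝ} {c : Cyc P Q κ} {Z : Finset (ℝ × ℝ)}
    (hZ : ∀ z, field P Q z = 0 ↔ z ∈ Z) (hc : Rd β c)
    (hl : ∀ p ∈ c.S Z, ∀ q ∈ c.S Z, ∃ x ∈ c.C, ∃ y ∈ c.C, ds p q ≤ β / 4 * ds x y)
    {q : ℝ × ℝ} (hq : q ∈ c.S Z) {z : ℝ × ℝ} (hz : z ∈ c.C) :
    (β / 2) ^ 2 * W (field P Q) q c.α z ^ 2 < V (field P Q) q c.α z ^ 2 := by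
  obtain ⟨p, hp0, hp⟩ := hc
  have hpI := Rd_mem hβ hp
  have hpS : p ∈ c.S Z := Cyc.mem_S.2 ⟨(hZ p).1 hp0, hpI⟩
  obtain ⟨x, hx, y, hy, hpos, hmax⟩ := exists_diam c
  obtain ⟨D, hD⟩ : ∃ D, D = ds x y := ⟨_, rfl⟩
  rw [← hD] at hpos hmax
  obtain ⟨s, hs⟩ : ∃ s, s = √(Pool.Agent.H709R2.sq (rf (field P Q) c.α z)) := ⟨_, rfl⟩
  have hs0 : 0 < s := by rw [hs]; exact Real.sqrt_pos.2 (sq_rf_pos c hz)
  have h1 : β * D * s ≤ |wedge (z - p) (rf (field P Q) c.α z)| := by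
    have := hp x hx y hy z hz
    rwa [← hD, ← hs] at this
  obtain ⟨a, ha, b, hb, hab⟩ := hl q hq p hpS
  have h2 : ds q p ≤ β / 4 * D := hab.trans (by have := hmax a ha b hb; gcongr)
  have h3 : |wedge (q - p) (rf (field P Q) c.α z)| ≤ β / 4 * D * s := by
    refine (wedge_le _ _).trans ?_
    rw [← hs]
    exact mul_le_mul_of_nonneg_right h2 hs0.le
  have h4 : 3 / 4 * β * D * s ≤ |V (field P Q) q c.α z| := by
    have h5 : V (field P Q) q c.α z = wedge (z - p) (rf (field P Q) c.α z) -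
        wedge (q - p) (rf (field P Q) c.α z) := by
      show wedge (z - q) (rf (field P Q) c.α z) = _
      unfold wedge
      simp only [Prod.fst_sub, Prod.snd_sub]
      ring
    rw [h5]
    have h6 := abs_sub_abs_le_abs_sub (wedge (z - p) (rf (field P Q) c.α z))
      (wedge (q - p) (rf (field P Q) c.α z))
    nlinarith
  have h7 : |W (field P Q) q c.α z| ≤ D * s := by
    refine (dot_le _ _).trans ?_
    have h8 : √(Pool.Agent.H709R2.sq (rot c.α (field P Q z))) = s := by rw [hs]; rfl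
    rw [h8]
    refine mul_le_mul_of_nonneg_right ?_ hs0.le
    obtain ⟨w, hw, h9⟩ := far c (Cyc.mem_S.1 hq).2 z
    have h10 : √((z - q).1 ^ 2 + (z - q).2 ^ 2) = ds z q := rfl
    rw [h10, ds_comm]
    exact h9.trans (hmax w hw z hz)
  have h8 : W (field P Q) q c.α z ^ 2 ≤ (D * s) ^ 2 := by
    rw [← sq_abs]
    exact pow_le_pow_left₀ (abs_nonneg _) h7 2
  have h9 : (3 / 4 * β * D * s) ^ 2 ≤ V (field P Q) q c.α z ^ 2 := by
    rw [← sq_abs (V (field P Q) q c.α z)]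
    exact pow_le_pow_left₀ (by positivity) h4 2
  have h10 : 0 < (β * D * s) ^ 2 := by positivity
  calc (β / 2) ^ 2 * W (field P Q) q c.α z ^ 2 ≤ (β / 2) ^ 2 * (D * s) ^ 2 := by gcongr
    _ < (3 / 4 * β * D * s) ^ 2 := by nlinarith
    _ ≤ _ := h9

/-- the diameter of a finite set -/
def dm (S : Finset (ℝ × ℝ)) : ℝ := ((S ×ˢ S).sup fun q => Real.toNNReal (ds q.1 q.2) : NNReal)

lemma le_dm {S : Finset (ℝ × ℝ)} {p q : ℝ × ℝ} (hp : p ∈ S) (hq : q ∈ S) : ds p q ≤ dm S := by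
  have h1 : Real.toNNReal (ds p q) ≤ (S ×ˢ S).sup fun q => Real.toNNReal (ds q.1 q.2) :=
    Finset.le_sup (f := fun q : (ℝ × ℝ) × (ℝ × ℝ) => Real.toNNReal (ds q.1 q.2))
      (Finset.mem_product.2 ⟨hp, hq⟩ : (p, q) ∈ S ×ˢ S)
  have h2 : (Real.toNNReal (ds p q) : ℝ) ≤ dm S := by exact_mod_cast h1
  rwa [Real.coe_toNNReal _ (ds_nonneg p q)] at h2

lemma exists_dm {S : Finset (ℝ × ℝ)} (hS : S.Nonempty) : ∃ p ∈ S, ∃ q ∈ S, dm S = ds p q := by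
  obtain ⟨⟨p, q⟩, hpq, h⟩ := Finset.exists_mem_eq_sup (S ×ˢ S) (hS.product hS)
    (fun q : (ℝ × ℝ) × (ℝ × ℝ) => Real.toNNReal (ds q.1 q.2))
  rw [Finset.mem_product] at hpq
  refine ⟨p, hpq.1, q, hpq.2, ?_⟩
  unfold dm
  rw [h, Real.coe_toNNReal _ (ds_nonneg _ _)]

/-- **round closed orbits of all sizes** -/
theorem round_maj {m : ℕ} (hP : P.totalDegree ≤ m) (hQ : Q.totalDegree ≤ m) {κ β : ℝ} (hκ : 0 ≤ κ)
    (hβ : 0 < β) {Z : Finset (ℝ × ℝ)} (hZc : Z.card ≤ m ^ 2) (hZ : ∀ z, field P Q z = 0 ↔ z ∈ Z) :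
    Maj (fun α => ({C | ∃ c : Cyc P Q κ, Rd β c ∧ c.α = α ∧ c.C = C}.encard : ℝ≥0∞))
      ((1 + 8 / β + 4 / β ^ 2) * (κ + 3 / 2 * π) * m ^ 2) := by
  have hπ := pi_pos
  have hne : ∀ c : Cyc P Q κ, Rd β c → (c.S Z).Nonempty := by
    rintro c ⟨p, hp0, hp⟩
    exact ⟨p, Cyc.mem_S.2 ⟨(hZ p).1 hp0, Rd_mem hβ hp⟩⟩
  obtain ⟨K₁, hK₁⟩ : ∃ K₁ : Set (Cyc P Q κ), K₁ = {c | Rd β c ∧
    ∀ p ∈ c.S Z, ∀ q ∈ c.S Z, ∃ x ∈ c.C, ∃ y ∈ c.C, ds p q ≤ β / 4 * ds x y} := ⟨_, rfl⟩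
  obtain ⟨K₂, hK₂⟩ : ∃ K₂ : Set (Cyc P Q κ), K₂ = {c | Rd β c ∧
    ¬ ∀ p ∈ c.S Z, ∀ q ∈ c.S Z, ∃ x ∈ c.C, ∃ y ∈ c.C, ds p q ≤ β / 4 * ds x y} := ⟨_, rfl⟩
  have h1 := count_round hP hQ hκ hZc (K := K₁) (fun c hc => by
      rw [hK₁] at hc
      exact hne c hc.1) (x := β / 2) (by positivity) (fun c hc p hp z hz => by
      rw [hK₁] at hc
      exact large_round hβ hZ hc.1 hc.2 hp hz)
  have hsm : ∀ c ∈ K₂, ∃ p ∈ c.S Z, ∃ q ∈ c.S Z, ∀ x ∈ c.C, ∀ y ∈ c.C,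
      β / 4 * ds x y < ds p q := by
    intro c hc
    rw [hK₂] at hc
    have := hc.2
    push Not at this
    exact this
  have h2 := count_size hP hQ hκ hZc (K := K₂) (fun c hc => by
      rw [hK₂] at hc
      exact hne c hc.1) dm (ρ := 4 / β) (by positivity)
    (fun c hc => by
      obtain ⟨p, hp, q, hq, h⟩ := hsm c hc
      obtain ⟨x, hx⟩ := c.C_ne
      have h3 := h x hx x hx
      rw [ds_self, mul_zero] at h3
      exact h3.trans_le (le_dm hp hq))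
    (fun c hc => by
      obtain ⟨p, hp, q, hq, h⟩ := exists_dm (hne c (by rw [hK₂] at hc; exact hc.1))
      obtain ⟨x, hx, y, hy, hxy⟩ := far2 c (Cyc.mem_S.1 hp).2 (Cyc.mem_S.1 hq).2
      exact ⟨x, hx, y, hy, by rw [h]; exact hxy⟩)
    (fun c hc x hx y hy => by
      obtain ⟨p, hp, q, hq, h⟩ := hsm c hc
      have h3 : ds x y ≤ 4 / β * dm (c.S Z) := by
        have h4 := (h x hx y hy).le.trans (le_dm hp hq)
        rw [div_mul_eq_mul_div, le_div_iff₀ hβ]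
        linarith
      have h5 := abs_le_ds x y
      exact ⟨h5.1.trans h3, h5.2.trans h3⟩)
  have h3 := Pool.Agent.H709Q.majRules.2.1 _ _ _ _ (by positivity) (by positivity) h1 h2
  refine Pool.Agent.H709U.maj_mono ?_ ?_ h3
  · intro α _
    rw [← ENat.toENNReal_add]
    refine ENat.toENNReal_le.2 (le_trans (encard_le_encard ?_) (encard_union_le _ _))
    rintro C ⟨c, hc, h4, h5⟩
    by_cases hl : ∀ p ∈ c.S Z, ∀ q ∈ c.S Z, ∃ x ∈ c.C, ∃ y ∈ c.C, ds p q ≤ β / 4 * ds x y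
    · left
      exact ⟨c, by rw [hK₁]; exact ⟨hc, hl⟩, h4, h5⟩
    · right
      exact ⟨c, by rw [hK₂]; exact ⟨hc, hl⟩, h4, h5⟩
  · apply le_of_eq
    field_simp
    ring

end

end Run7.h202
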