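import Pool.Agent.Run7.h202.Chg

/-! Closed orbits of bounded curvature with diameters in a given range. -/

open Real Set MeasureTheory Topology Filter
open scoped ENNReal

namespace Run7.h202

noncomputable section

open Pool.Agent.H709R2 (rot wedge field ClosedOrbit)
open Pool.Agent.H709U (rf Orb V W dot)
open Pool.Agent.H709Q (Maj)
open Pool.Agent.N224.Hil

/-- diameter between `r` and `R` -/
def Dm (r R : ℝ) (C : Set (ℝ × ℝ)) : Prop :=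
  (∃ x ∈ C, ∃ y ∈ C, r ≤ ds x y) ∧ ∀ x ∈ C, ∀ y ∈ C, ds x y ≤ R

variable {P Q : MvPolynomial (Fin 2) ℝ}

lemma S_ne {κ : ℝ} {Z : Finset (ℝ × ℝ)} (hZ : ∀ z, field P Q z = 0 ↔ z ∈ Z) (c : Cyc P Q κ) :
    (c.S Z).Nonempty := by
  obtain ⟨p, hp, h0⟩ := zero_inside c.orb
  exact ⟨p, Cyc.mem_S.2 ⟨(hZ p).1 h0, hp⟩⟩

/-- one dyadic scale -/
theorem scale_curv {m : ℕ} (hP : P.totalDegree ≤ m) (hQ : Q.totalDegree ≤ m) {κ : ℝ} (hκ : 0 ≤ κ)
    {Z : Finset (ℝ × ℝ)} (hZc : Z.card ≤ m ^ 2) (hZ : ∀ z, field P Q z = 0 ↔ z ∈ Z) {d : ℝ}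
    (hd : 0 < d) :
    Maj (fun α => ({C | ∃ c : Cyc P Q κ, Dm d (2 * d) c.C ∧ c.α = α ∧ c.C = C}.encard : ℝ≥0∞))
      ((4 * κ + 6 * π) * m ^ 2) := by
  have h2 := count_size hP hQ hκ hZc (K := {c : Cyc P Q κ | Dm d (2 * d) c.C})
    (fun c _ => S_ne hZ c) (fun _ => d) (ρ := 2) (by norm_num) (fun c _ => hd)
    (fun c hc => hc.1)
    (fun c hc x hx y hy => by
      have h3 := hc.2 x hx y hy
      have h5 := abs_le_ds x y
      exact ⟨h5.1.trans h3, h5.2.trans h3⟩)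
  refine Pool.Agent.H709U.maj_mono (fun α _ => le_rfl) (le_of_eq ?_) h2
  ring

/-- all dyadic scales -/
theorem scales_curv {m : ℕ} (hP : P.totalDegree ≤ m) (hQ : Q.totalDegree ≤ m) {κ : ℝ} (hκ : 0 ≤ κ)
    {Z : Finset (ℝ × ℝ)} (hZc : Z.card ≤ m ^ 2) (hZ : ∀ z, field P Q z = 0 ↔ z ∈ Z) {r : ℝ}
    (hr : 0 < r) {j : ℕ} (hj : 1 ≤ j) :
    Maj (fun α => ({C | ∃ c : Cyc P Q κ, Dm r (2 ^ j * r) c.C ∧ c.α = α ∧ c.C = C}.encard : ℝ≥0∞))
      (j * ((4 * κ + 6 * π) * m ^ 2)) := by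
  have hπ := pi_pos
  have h1 : ∀ i ∈ Finset.range j, Maj (fun α => ({C | ∃ c : Cyc P Q κ,
      Dm (2 ^ i * r) (2 * (2 ^ i * r)) c.C ∧ c.α = α ∧ c.C = C}.encard : ℝ≥0∞))
      ((4 * κ + 6 * π) * m ^ 2) := fun i _ => scale_curv hP hQ hκ hZc hZ (by positivity)
  have h2 := Pool.Agent.H709U.maj_sum _ _ ((4 * κ + 6 * π) * m ^ 2) (by positivity) h1
  refine Pool.Agent.H709U.maj_mono ?_ ?_ h2
  · intro α hα
    apply Pool.Agent.H709U.encard_biUnion_le'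
    rintro C ⟨c, ⟨⟨x₀, hx₀, y₀, hy₀, hbig⟩, hsm⟩, hcα, rfl⟩
    obtain ⟨x, hx, y, hy, -, hmax⟩ := exists_diam c
    have hrD : r ≤ ds x y := hbig.trans (hmax x₀ hx₀ y₀ hy₀)
    have hDR : ds x y ≤ 2 ^ j * r := hsm x hx y hy
    have hex : ∃ k, k < j ∧ 2 ^ k * r ≤ ds x y ∧ ds x y ≤ 2 * (2 ^ k * r) := by
      have h0 : ∃ k, ds x y ≤ 2 * (2 ^ k * r) := ⟨j - 1, by
        have h5 : (2:ℝ) * (2 ^ (j - 1) * r) = 2 ^ j * r := by
          rw [← mul_assoc, ← pow_succ', Nat.sub_add_cancel hj]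
        rw [h5]
        exact hDR⟩
      refine ⟨Nat.find h0, ?_, ?_, Nat.find_spec h0⟩
      · have h5 : Nat.find h0 ≤ j - 1 := Nat.find_min' h0 (by
          have h5 : (2:ℝ) * (2 ^ (j - 1) * r) = 2 ^ j * r := by
            rw [← mul_assoc, ← pow_succ', Nat.sub_add_cancel hj]
          rw [h5]
          exact hDR)
        omega
      · rcases Nat.eq_zero_or_pos (Nat.find h0) with h5 | h5
        · rw [h5, pow_zero, one_mul]
          exact hrD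
        · have h6 := Nat.find_min h0 (show Nat.find h0 - 1 < Nat.find h0 by omega)
          rw [not_le, ← mul_assoc, ← pow_succ', Nat.sub_add_cancel h5] at h6
          exact h6.le
    obtain ⟨k, hkm, hk1, hk2⟩ := hex
    simp only [mem_iUnion]
    exact ⟨k, Finset.mem_range.2 hkm, c, ⟨⟨x, hx, y, hy, hk1⟩,
      fun a ha b hb => (hmax a ha b hb).trans hk2⟩, hcα, rfl⟩
  · rw [Finset.card_range]

/-- **closed orbits of bounded total curvature with diameters between `r` and `R`** -/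
theorem curv_maj {m : ℕ} (hP : P.totalDegree ≤ m) (hQ : Q.totalDegree ≤ m)
    (hne : P ≠ 0 ∨ Q ≠ 0) {κ : ℝ} (hκ : 0 ≤ κ) {r R : ℝ} (hr : 0 < r) (hR : r ≤ R) :
    Maj (fun α => ({C | ∃ c : Cyc P Q κ, Dm r R c.C ∧ c.α = α ∧ c.C = C}.encard : ℝ≥0∞))
      ((4 * κ + 6 * π) * m ^ 2 * (1 + Real.logb 2 (R / r))) := by
  have hπ := pi_pos
  obtain ⟨h, P₁, Q₁, rfl, rfl, hrel, hP₁, hQ₁⟩ := Pool.Agent.H709U.b1 m P Q hP hQ hne
  obtain ⟨Z, hZc, hZ⟩ := Pool.Agent.H709U.b3 m P₁ Q₁ hP₁ hQ₁ hrel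
  set j : ℕ := ⌊Real.logb 2 (R / r)⌋₊ + 1 with hj
  have hlog : 0 ≤ Real.logb 2 (R / r) := Real.logb_nonneg (by norm_num) (by
    rw [le_div_iff₀ hr, one_mul]
    exact hR)
  refine Pool.Agent.H709U.maj_mono ?_ ?_ (scales_curv hP₁ hQ₁ hκ hZc hZ hr (j := j) (by omega))
  · intro α _
    apply ENat.toENNReal_le.2
    apply encard_le_encard
    rintro C ⟨c, ⟨hbig, hsm⟩, hcα, rfl⟩
    obtain ⟨c', h1, h2⟩ := cyc_change c
    refine ⟨c', ?_, h1.trans hcα, h2⟩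
    rw [h2]
    refine ⟨hbig, fun x hx y hy => (hsm x hx y hy).trans ?_⟩
    have h1 : Real.logb 2 (R / r) ≤ j := by
      rw [hj]
      push_cast
      exact (Nat.lt_floor_add_one _).le
    have hRp : 0 < R := hr.trans_le hR
    have h2 : R / r ≤ 2 ^ j := by
      have h3 : R / r = (2:ℝ) ^ Real.logb 2 (R / r) :=
        (Real.rpow_logb (by norm_num) (by norm_num) (by positivity)).symm
      rw [h3, ← Real.rpow_natCast]
      exact Real.rpow_le_rpow_of_exponent_le (by norm_num) h1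
    rwa [div_le_iff₀ hr] at h2
  · have h1 : (j : ℝ) ≤ 1 + Real.logb 2 (R / r) := by
      rw [hj]
      push_cast
      have := Nat.floor_le hlog
      linarith
    calc (j : ℝ) * ((4 * κ + 6 * π) * m ^ 2)
        ≤ (1 + Real.logb 2 (R / r)) * ((4 * κ + 6 * π) * m ^ 2) := by gcongr
      _ = _ := by ring

end

end Run7.h202
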