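import Pool.Agent.Run7.h202.Uml
import Pool.Agent.Run7.h202.Scl
import Pool.Agent.Run7.h202.Rnd

/-! Convex closed orbits: their total curvature is `2 π`, and a point at distance `δ` from the
curve has distance at least `δ` from all tangent lines. -/

open Real Set MeasureTheory Topology Filter
open scoped ENNReal

namespace Run7.h202

noncomputable section

open Pool.Agent.H709R2 (rot wedge field ClosedOrbit)
open Pool.Agent.H709U (rf Orb V W dot)
open Pool.Agent.H709Q (Maj)
open Pool.Agent.N224.Hil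

/-- every point of the set lies on a line which has the set on one side -/
def Cvx (C : Set (ℝ × ℝ)) : Prop := ∀ z ∈ C, ∃ u : ℝ × ℝ, u ≠ 0 ∧ ∀ w ∈ C, dot (w - z) u ≤ 0

/-- second order condition at a maximum -/
lemma second_le {f f' : ℝ → ℝ} {a t : ℝ} (hf : ∀ s, HasDerivAt f (f' s) s) (hf' : HasDerivAt f' a t)
    (hmax : ∀ s, f s ≤ f t) : a ≤ 0 := by
  by_contra hcon
  push Not at hcon
  have e1 : deriv f = f' := funext fun s => (hf s).deriv
  have h0 : f' t = 0 := by
    have h1 : IsLocalMax f t := Eventually.of_forall hmax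
    exact h1.hasDerivAt_eq_zero (hf t)
  have h1 : IsLocalMin f t := by
    apply isLocalMin_of_deriv_deriv_pos
    · rw [e1, hf'.deriv]
      exact hcon
    · rw [e1, h0]
    · exact (hf t).continuousAt
  have h2 : f =ᶠ[𝓝 t] fun _ => f t := by
    filter_upwards [h1] with s hs
    exact le_antisymm (hmax s) hs
  have h3 : f' =ᶠ[𝓝 t] fun _ => 0 := by
    have h4 := h2.deriv
    rw [e1] at h4
    simpa using h4
  have h4 := h3.hasDerivAt_iff.1 hf'
  have h5 := h4.unique (hasDerivAt_const t (0:ℝ))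
  linarith

lemma dot_mul_sq {X u w : ℝ × ℝ} (h : dot X u = 0) :
    dot w u * Pool.Agent.H709R2.sq X = wedge X u * wedge X w := by
  unfold dot at h
  unfold dot wedge Pool.Agent.H709R2.sq
  linear_combination (X.1 * w.1 + X.2 * w.2) * h

variable {P Q : MvPolynomial (Fin 2) ℝ} {κ : ℝ}

/-- the supporting line is the tangent line, and the curve bends towards it -/
lemma support {α : ℝ} {γ : ℝ → ℝ × ℝ} {T : ℝ} (h : Orb (rf (field P Q) α) γ T) {t : ℝ}
    {u : ℝ × ℝ} (hu : ∀ s, dot (γ s - γ t) u ≤ 0) :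
    dot (rf (field P Q) α (γ t)) u = 0 ∧
      wedge (rf (field P Q) α (γ t)) u * ev (KK P Q α) (γ t) ≤ 0 := by
  have hF : ContDiff ℝ 2 (field P Q) := Pool.Agent.H709R2.contDiff_field P Q
  have h3 : ∀ t, HasDerivAt (fun t => rf (field P Q) α (γ t))
      (rot α (fderiv ℝ (field P Q) (γ t) (rf (field P Q) α (γ t)))) t := fun t =>
    rot_deriv α (((hF.differentiable (by norm_num) (γ t)).hasFDerivAt).comp_hasDerivAt t (h.ode t))
  have hdd : ∀ {g : ℝ → ℝ × ℝ} {v : ℝ × ℝ} {s : ℝ}, HasDerivAt g v s →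
      HasDerivAt (fun s => dot (g s) u) (dot v u) s := by
    intro g v s hg
    exact ((fst_deriv hg).mul_const _).add ((snd_deriv hg).mul_const _)
  have h4 : ∀ s, HasDerivAt (fun s => dot (γ s) u) (dot (rf (field P Q) α (γ s)) u) s :=
    fun s => hdd (h.ode s)
  have hmax : ∀ s, dot (γ s) u ≤ dot (γ t) u := by
    intro s
    have := hu s
    unfold dot at this ⊢
    simp only [Prod.fst_sub, Prod.snd_sub] at this
    linarith
  have h5 : dot (rf (field P Q) α (γ t)) u = 0 := by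
    have h1 : IsLocalMax (fun s => dot (γ s) u) t := Eventually.of_forall hmax
    exact h1.hasDerivAt_eq_zero (h4 t)
  refine ⟨h5, ?_⟩
  have h6 := second_le h4 (hdd (h3 t)) hmax
  have h7 := dot_mul_sq (w := rot α (fderiv ℝ (field P Q) (γ t) (rf (field P Q) α (γ t)))) h5
  have h8 : wedge (rf (field P Q) α (γ t))
      (rot α (fderiv ℝ (field P Q) (γ t) (rf (field P Q) α (γ t)))) = ev (KK P Q α) (γ t) := by
    rw [KK_eq]
    exact Pool.Agent.H709U.g1_wedge_rot α _ _
  rw [h8] at h7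
  rw [← h7]
  exact mul_nonpos_of_nonpos_of_nonneg h6 (Pool.Agent.H709R2.sq_pos (h.ne t)).le

/-- a strict form of one-sidedness for interior points -/
lemma strict_of_open {U : Set (ℝ × ℝ)} (hU : IsOpen U) {z u : ℝ × ℝ} (hu : u ≠ 0)
    (h : ∀ p ∈ U, dot (p - z) u ≤ 0) {p : ℝ × ℝ} (hp : p ∈ U) : dot (p - z) u < 0 := by
  have h1 : ∀ᶠ e : ℝ in 𝓝 0, p + e • u ∈ U := by
    have h2 : ContinuousAt (fun e : ℝ => p + e • u) 0 := by fun_prop
    apply h2
    simp only [zero_smul, add_zero]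
    exact hU.mem_nhds hp
  obtain ⟨e, he, he0⟩ := ((h1.filter_mono nhdsWithin_le_nhds).and
    (self_mem_nhdsWithin : ∀ᶠ e : ℝ in 𝓝[>] 0, e ∈ Ioi 0)).exists
  have h3 := h _ he
  have h4 := Pool.Agent.H709R2.sq_pos hu
  have h5 : 0 < e * Pool.Agent.H709R2.sq u := mul_pos he0 h4
  have h6 : dot (p + e • u - z) u = dot (p - z) u + e * Pool.Agent.H709R2.sq u := by
    unfold dot Pool.Agent.H709R2.sq
    simp only [Prod.fst_sub, Prod.snd_sub, Prod.fst_add, Prod.snd_add, Prod.smul_fst,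
      Prod.smul_snd, smul_eq_mul]
    ring
  linarith

/-- points inside the curve lie strictly on the same side of a supporting line -/
lemma inside_strict {α : ℝ} {γ : ℝ → ℝ × ℝ} {T : ℝ} (h : Orb (rf (field P Q) α) γ T)
    {z u : ℝ × ℝ} (hu0 : u ≠ 0) (hu : ∀ s, dot (γ s - z) u ≤ 0) {p : ℝ × ℝ}
    (hp : p ∈ il P Q α γ T) : dot (p - z) u < 0 := by
  refine strict_of_open (il_open h) hu0 (fun q hq => ?_) hp
  by_contra hcon
  push Not at hcon
  apply hq.2
  refine w3 _ _ _ (orb_loop h) q (-u) fun s => ?_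
  have h1 := hu s
  unfold dot at h1 hcon
  simp only [Prod.fst_sub, Prod.snd_sub] at h1 hcon
  simp only [Prod.fst_neg, Prod.snd_neg]
  nlinarith

/-- the total curvature of a convex closed orbit -/
theorem convex_curv {α : ℝ} {γ : ℝ → ℝ × ℝ} {T : ℝ} (h : Orb (rf (field P Q) α) γ T)
    (hC : Cvx (range γ)) : TC P Q α γ T = 2 * π := by
  have hγ := orb_cont h
  obtain ⟨p, hp, -⟩ := zero_inside h
  have hX : Continuous fun t => rf (field P Q) α (γ t) := (orb_loop h).cont
  have key : ∀ t, (wedge (rf (field P Q) α (γ t)) (p - γ t) ≠ 0) ∧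
      0 ≤ wedge (rf (field P Q) α (γ t)) (p - γ t) * ev (KK P Q α) (γ t) := by
    intro t
    obtain ⟨u, hu0, hu⟩ := hC (γ t) ⟨t, rfl⟩
    obtain ⟨h1, h2⟩ := support h (t := t) (u := u) fun s => hu _ ⟨s, rfl⟩
    have h3 := inside_strict h hu0 (fun s => hu _ ⟨s, rfl⟩) hp
    have h4 := dot_mul_sq (w := p - γ t) h1
    have h5 := Pool.Agent.H709R2.sq_pos (h.ne t)
    have h6 : wedge (rf (field P Q) α (γ t)) u * wedge (rf (field P Q) α (γ t)) (p - γ t) < 0 := by
      rw [← h4]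
      exact mul_neg_of_neg_of_pos h3 h5
    refine ⟨fun h0 => ?_, ?_⟩
    · rw [h0, mul_zero] at h6
      exact lt_irrefl _ h6
    · by_contra hcon
      push Not at hcon
      have h7 : 0 < (wedge (rf (field P Q) α (γ t)) u * wedge (rf (field P Q) α (γ t)) (p - γ t)) *
          (wedge (rf (field P Q) α (γ t)) (p - γ t) * ev (KK P Q α) (γ t)) :=
        mul_pos_of_neg_of_neg h6 hcon
      have h8 : (wedge (rf (field P Q) α (γ t)) u * wedge (rf (field P Q) α (γ t)) (p - γ t)) *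
          (wedge (rf (field P Q) α (γ t)) (p - γ t) * ev (KK P Q α) (γ t)) =
          wedge (rf (field P Q) α (γ t)) (p - γ t) ^ 2 *
          (wedge (rf (field P Q) α (γ t)) u * ev (KK P Q α) (γ t)) := by ring
      rw [h8] at h7
      have h9 := mul_nonpos_of_nonneg_of_nonpos
        (sq_nonneg (wedge (rf (field P Q) α (γ t)) (p - γ t))) h2
      linarith
  have hDc : Continuous fun t => wedge (rf (field P Q) α (γ t)) (p - γ t) := by
    unfold wedge
    exact (hX.fst.mul (continuous_const.sub hγ).snd).sub (hX.snd.mul (continuous_const.sub hγ).fst)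
  have hsign : (∀ t, 0 < wedge (rf (field P Q) α (γ t)) (p - γ t)) ∨
      ∀ t, wedge (rf (field P Q) α (γ t)) (p - γ t) < 0 := by
    by_contra hc
    push Not at hc
    obtain ⟨⟨s, hs⟩, ⟨t, ht⟩⟩ := hc
    obtain ⟨v, hv⟩ := mem_range_of_exists_le_of_exists_ge hDc ⟨s, hs⟩ ⟨t, ht⟩
    exact (key v).1 hv
  have hT := turn_eq h
  rw [← hT]
  unfold TC
  simp only [← ev_SQ]
  rcases hsign with h1 | h1
  · have h2 : ∀ t, 0 ≤ ev (KK P Q α) (γ t) := fun t => by
      by_contra hcon
      push Not at hcon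
      have h3 := (key t).2
      have h4 := mul_neg_of_pos_of_neg (h1 t) hcon
      linarith
    rw [abs_of_nonneg (intervalIntegral.integral_nonneg h.pos.le fun t _ =>
      div_nonneg (h2 t) (sq_orb_pos h t).le)]
    congr 1
    funext t
    rw [abs_of_nonneg (h2 t)]
  · have h2 : ∀ t, ev (KK P Q α) (γ t) ≤ 0 := fun t => by
      by_contra hcon
      push Not at hcon
      have h3 := (key t).2
      have h4 := mul_neg_of_neg_of_pos (h1 t) hcon
      linarith
    rw [abs_of_nonpos, ← intervalIntegral.integral_neg]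
    · congr 1
      funext t
      rw [abs_of_nonpos (h2 t), neg_div]
    · have h3 : 0 ≤ ∫ t in (0:ℝ)..T, -(ev (KK P Q α) (γ t) / ev (SQ P Q) (γ t)) :=
        intervalIntegral.integral_nonneg h.pos.le fun t _ => by
          rw [← neg_div]
          exact div_nonneg (neg_nonneg.2 (h2 t)) (sq_orb_pos h t).le
      rw [intervalIntegral.integral_neg] at h3
      linarith

/-- the cycle given by a convex periodic solution -/
lemma exists_cyc_cvx {α : ℝ} (hα : α ∈ Ioo 0 π) {γ : ℝ → ℝ × ℝ} {T : ℝ} (hT : 0 < T)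
    (hγ : ∀ t, HasDerivAt γ (rf (field P Q) α (γ t)) t) (hper : ∀ t, γ (t + T) = γ t)
    (hnc : ∃ s t, γ s ≠ γ t) (hC : Cvx (range γ)) :
    ∃ c : Cyc P Q (2 * π), c.α = α ∧ c.γ = γ := by
  obtain ⟨T₀, h1, -⟩ := min_period (Pool.Agent.H709R2.contDiff_field P Q) hT hγ hper hnc
  exact ⟨⟨α, γ, T₀, hα, h1, (convex_curv h1 hC).le⟩, rfl, rfl⟩

/-- points in the interior of the convex hull are enclosed by convex closed orbits -/
lemma mem_hull (c : Cyc P Q κ) (hC : Cvx c.C) {p : ℝ × ℝ} (hp : p ∈ interior (convexHull ℝ c.C)) :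
    p ∈ c.I := by
  refine mem_I c fun z hz h0 => ?_
  obtain ⟨u, hu0, hu⟩ := hC z hz
  have h1 : ∀ q ∈ interior (convexHull ℝ c.C), dot (q - z) u ≤ 0 := by
    intro q hq
    have h2 : Convex ℝ {w : ℝ × ℝ | dot (w - z) u ≤ 0} := by
      intro x hx y hy a b ha hb hab
      simp only [mem_setOf_eq] at hx hy ⊢
      have h3 : dot (a • x + b • y - z) u = a * dot (x - z) u + b * dot (y - z) u := by
        unfold dot
        simp only [Prod.fst_sub, Prod.snd_sub, Prod.fst_add, Prod.snd_add, Prod.smul_fst,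
          Prod.smul_snd, smul_eq_mul]
        linear_combination (-(z.1 * u.1) - z.2 * u.2) * (1 - hab)
      rw [h3]
      nlinarith
    exact convexHull_min hu h2 (interior_subset hq)
  have h2 := strict_of_open isOpen_interior hu0 h1 hp
  obtain ⟨t, rfl⟩ := hz
  obtain ⟨h3, -⟩ := support c.orb (t := t) (u := u) fun s => hu _ ⟨s, rfl⟩
  have h4 := dot_mul_sq (w := p - c.γ t) h3
  have h5 := Pool.Agent.H709R2.sq_pos (c.orb.ne t)
  have h6 : wedge (rf (field P Q) c.α (c.γ t)) (p - c.γ t) = 0 := by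
    unfold wedge at h0 ⊢
    simp only [Prod.fst_sub, Prod.snd_sub] at h0 ⊢
    linarith
  rw [h6, mul_zero] at h4
  have h7 := mul_neg_of_neg_of_pos h2 h5
  linarith

/-- the distance from the tangent lines -/
lemma foot (c : Cyc P Q κ) (hC : Cvx c.C) {p : ℝ × ℝ} (hp : p ∈ c.I) {δ : ℝ}
    (hδ : ∀ w ∈ c.C, δ ≤ ds p w) {z : ℝ × ℝ} (hz : z ∈ c.C) :
    δ * √(Pool.Agent.H709R2.sq (rf (field P Q) c.α z)) ≤
      |wedge (z - p) (rf (field P Q) c.α z)| := by
  by_contra hcon
  push Not at hcon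
  have hsq := sq_rf_pos c hz
  obtain ⟨u, hu0, hu⟩ := hC z hz
  obtain ⟨X, hX⟩ : ∃ X, X = rf (field P Q) c.α z := ⟨_, rfl⟩
  rw [← hX] at hcon hsq
  have h1 : dot X u = 0 := by
    obtain ⟨t, ht⟩ := hz
    have := support c.orb (t := t) (u := u) fun s => by
      rw [ht]
      exact hu _ ⟨s, rfl⟩
    rw [ht] at this
    rw [hX]
    exact this.1
  obtain ⟨l, hl⟩ : ∃ l, l = wedge (z - p) X / Pool.Agent.H709R2.sq X := ⟨_, rfl⟩
  obtain ⟨s, hs⟩ : ∃ s, s = √(Pool.Agent.H709R2.sq X) := ⟨_, rfl⟩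
  have hs0 : 0 < s := by rw [hs]; exact Real.sqrt_pos.2 hsq
  have hss : s ^ 2 = Pool.Agent.H709R2.sq X := by rw [hs]; exact Real.sq_sqrt hsq.le
  rw [← hs] at hcon
  obtain ⟨q, hq⟩ : ∃ q : ℝ → ℝ × ℝ, q = fun e => (p.1 + e * l * X.2, p.2 - e * l * X.1) :=
    ⟨_, rfl⟩
  have hdq : ∀ e ∈ Icc (0:ℝ) 1, ds p (q e) < δ := by
    intro e he
    have h2 : ds p (q e) = e * |l| * s := by
      unfold ds
      rw [hq]
      simp only
      have h3 : (p.1 - (p.1 + e * l * X.2)) ^ 2 + (p.2 - (p.2 - e * l * X.1)) ^ 2 =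
          (e * |l| * s) ^ 2 := by
        rw [mul_pow, mul_pow, sq_abs, hss]
        unfold Pool.Agent.H709R2.sq
        ring
      rw [h3, Real.sqrt_sq (by have := he.1; positivity)]
    rw [h2]
    have h3 : |l| * s = |wedge (z - p) X| / s := by
      rw [hl, abs_div, abs_of_pos hsq, ← hss]
      field_simp
    have h4 : |l| * s < δ := by
      rw [h3, div_lt_iff₀ hs0]
      exact hcon
    calc e * |l| * s = e * (|l| * s) := by ring
      _ ≤ 1 * (|l| * s) := mul_le_mul_of_nonneg_right he.2 (by positivity)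
      _ < δ := by rw [one_mul]; exact h4
  have hqc : Continuous q := by rw [hq]; fun_prop
  have hpre : IsPreconnected (q '' Icc (0:ℝ) 1) := isPreconnected_Icc.image _ hqc.continuousOn
  have hsub : q '' Icc (0:ℝ) 1 ⊆ c.I ∪ c.Fᶜ := by
    rintro _ ⟨e, he, rfl⟩
    by_cases h2 : q e ∈ c.F
    · left
      rw [Cyc.F_eq] at h2
      rcases h2 with h2 | h2
      · exact absurd (hδ _ h2) (not_le.2 (hdq e he))
      · exact h2
    · exact Or.inr h2
  have hq0 : q 0 = p := by rw [hq]; ext <;> simp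
  have h3 := hpre.subset_left_of_subset_union c.I_open c.F_cpt.isClosed.isOpen_compl
    (by
      rw [Set.disjoint_left]
      intro w hw hw'
      exact hw' (c.I_sub hw)) hsub
    ⟨p, ⟨0, ⟨le_rfl, zero_le_one⟩, hq0⟩, hp⟩
  have h4 : q 1 ∈ c.I := h3 ⟨1, ⟨zero_le_one, le_rfl⟩, rfl⟩
  have h5 : dot (q 1 - z) u < 0 := inside_strict c.orb hu0 (fun s => hu _ ⟨s, rfl⟩) h4
  have h6 := dot_mul_sq (w := q 1 - z) h1
  have h7 : wedge X (q 1 - z) = 0 := by
    rw [hq]
    unfold wedge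
    simp only [Prod.fst_sub, Prod.snd_sub]
    have h8 : l * Pool.Agent.H709R2.sq X = wedge (z - p) X := by
      rw [hl]
      field_simp
    unfold Pool.Agent.H709R2.sq wedge at h8
    simp only [Prod.fst_sub, Prod.snd_sub] at h8
    linear_combination -h8
  rw [h7, mul_zero] at h6
  have h9 := mul_neg_of_neg_of_pos h5 hsq
  linarith

/-- a convex closed orbit around a zero which is not close to the orbit is round -/
lemma Rd_cvx {β : ℝ} (c : Cyc P Q κ) (hC : Cvx c.C) {p : ℝ × ℝ} (h0 : field P Q p = 0)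
    (hp : p ∈ interior (convexHull ℝ c.C))
    (hd : ∀ x ∈ c.C, ∀ y ∈ c.C, ∀ w ∈ c.C, β * ds x y ≤ ds p w) : Rd β c :=
  ⟨p, h0, fun x hx y hy _ hz => foot c hC (mem_hull c hC hp) (hd x hx y hy) hz⟩

end

end Run7.h202
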