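import Pool.Agent.Run7.h202.Bd

/-! The weighted variation of the angle in one direction inside disjoint regions. -/

open Real Set MeasureTheory Topology Filter
open scoped ENNReal

namespace Run7.h202

noncomputable section

open Pool.Agent.H709R2 (rot wedge field ClosedOrbit)
open Pool.Agent.H709U (rf Orb)
open Pool.Agent.N224.Hil

variable {P Q : MvPolynomial (Fin 2) ℝ}

/-- the weighted variation of the angle in one direction inside one region -/
lemma core_one {E : Set (ℝ × ℝ)} {L : ℝ} (hE : Bd P Q E L) {δ ε : ℝ} (hδ : 0 < δ) (hε : 0 < ε)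
    (u : ℝ × ℝ) (l : ℝ) {h h' : ℝ → ℝ} (hh : ∀ t, HasDerivAt h (h' t) t) (hc : Continuous h')
    (h0 : ∀ t, 0 ≤ h' t) {M : ℝ} (hM0 : 0 ≤ M)
    (hM : ∀ z ∈ E, |h (u.1 * z.1 + u.2 * z.2 - l)| ≤ M)
    (A : MvPolynomial (Fin 2) ℝ) (hA : ∀ z, ev A z = u.1 * ev (NY P Q) z - u.2 * ev (NX P Q) z) :
    ∫ z in E, h' (u.1 * z.1 + u.2 * z.2 - l) * (|ev A z| / sd P Q δ z) ≤
      M * (L + ∫ z in E, |Ph P Q δ (gg A ε) z|) +
        ε * (2 / π / δ ^ 2 * ∫ z in E, h' (u.1 * z.1 + u.2 * z.2 - l)) := by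
  have hπ := pi_pos
  have hK := hE.cpt
  obtain ⟨ℓ, hℓ⟩ : ∃ ℓ : ℝ × ℝ → ℝ, ℓ = fun z => u.1 * z.1 + u.2 * z.2 - l := ⟨_, rfl⟩
  have hℓd : ∀ z, HasFDerivAt ℓ (u.1 • ContinuousLinearMap.fst ℝ ℝ ℝ +
      u.2 • ContinuousLinearMap.snd ℝ ℝ ℝ) z := by
    intro z
    rw [hℓ]
    exact ((hasFDerivAt_fst.const_mul u.1).add (hasFDerivAt_snd.const_mul u.2)).sub_const l
  have hℓc : ContDiff ℝ 1 ℓ := by
    rw [hℓ]
    fun_prop
  have hhc : ContDiff ℝ 1 h := by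
    rw [contDiff_one_iff_deriv]
    refine ⟨fun t => (hh t).differentiableAt, ?_⟩
    have : deriv h = h' := funext fun t => (hh t).deriv
    rw [this]
    exact hc
  have hhl : ContDiff ℝ 1 (fun z => h (ℓ z)) := hhc.comp hℓc
  have hg1 : ContDiff ℝ 1 (gg A ε) := gg_contDiff _ _
  have hs : ∀ z, 0 < sd P Q δ z := fun z => sd_pos P Q hδ _
  have hGM : ∀ z ∈ E, |h (ℓ z) * gg A ε z| ≤ M := by
    intro z hz
    rw [abs_mul]
    have e1 : |h (ℓ z)| ≤ M := by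
      rw [hℓ]
      exact hM z hz
    have e2 : |gg A ε z| ≤ 1 := abs_arctan_le _
    calc |h (ℓ z)| * |gg A ε z| ≤ M * 1 := mul_le_mul e1 e2 (abs_nonneg _) hM0
      _ = M := mul_one _
  have h2 := hE.bd δ hδ (fun z => h (ℓ z) * gg A ε z) (hhl.mul hg1) M hM0 hGM
  -- the exterior derivative
  have h3 : ∀ z, Ph P Q δ (fun z => h (ℓ z) * gg A ε z) z =
      h (ℓ z) * Ph P Q δ (gg A ε) z + h' (ℓ z) * (gg A ε z * (ev A z / sd P Q δ z)) := by
    intro z
    have h5 : HasFDerivAt (fun z => h (ℓ z)) (h' (ℓ z) • (u.1 • ContinuousLinearMap.fst ℝ ℝ ℝ +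
      u.2 • ContinuousLinearMap.snd ℝ ℝ ℝ)) z := (hh (ℓ z)).comp_hasFDerivAt z (hℓd z)
    have h4 : HasFDerivAt (fun z => h (ℓ z) * gg A ε z) _ z :=
      h5.mul ((hg1.differentiable (by norm_num) z).hasFDerivAt)
    unfold Ph
    rw [h4.fderiv, hA]
    unfold aa bb
    simp only [add_apply, smul_apply, ContinuousLinearMap.coe_fst', ContinuousLinearMap.coe_snd',
      smul_eq_mul]
    ring
  have cP : Continuous (Ph P Q δ (gg A ε)) := Ph_continuous P Q hδ hg1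
  have cs : Continuous (sd P Q δ) := (sd_contDiff P Q (m := 0)).continuous
  have cA : Continuous fun z => ev A z / sd P Q δ z :=
    (ev_continuous A).div cs fun z => (hs z).ne'
  have ch' : Continuous fun z => h' (ℓ z) := hc.comp hℓc.continuous
  have cgA : Continuous fun z => h' (ℓ z) * (gg A ε z * (ev A z / sd P Q δ z)) :=
    ch'.mul (hg1.continuous.mul cA)
  have chP : Continuous fun z => h (ℓ z) * Ph P Q δ (gg A ε) z := hhl.continuous.mul cP
  have i1 := chP.continuousOn.integrableOn_compact (μ := volume) hK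
  have i2 := cgA.continuousOn.integrableOn_compact (μ := volume) hK
  have i3 := cP.abs.continuousOn.integrableOn_compact (μ := volume) hK
  have cAa : Continuous fun z => h' (ℓ z) * (|ev A z| / sd P Q δ z) :=
    ch'.mul ((ev_continuous A).abs.div cs fun z => (hs z).ne')
  have i4 := cAa.continuousOn.integrableOn_compact (μ := volume) hK
  have i5 := ch'.continuousOn.integrableOn_compact (μ := volume) hK
  simp only [h3] at h2
  have h5 : ∫ z in E, (h (ℓ z) * Ph P Q δ (gg A ε) z +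
      h' (ℓ z) * (gg A ε z * (ev A z / sd P Q δ z))) =
      (∫ z in E, h (ℓ z) * Ph P Q δ (gg A ε) z) +
        ∫ z in E, h' (ℓ z) * (gg A ε z * (ev A z / sd P Q δ z)) := integral_add i1 i2
  rw [h5] at h2
  have h6 := (abs_le.1 h2).2
  -- the plane integral
  have h8 : -(∫ z in E, h (ℓ z) * Ph P Q δ (gg A ε) z) ≤
      M * ∫ z in E, |Ph P Q δ (gg A ε) z| := by
    refine (neg_le_abs _).trans ?_
    rw [← integral_const_mul]
    refine abs_integral_le_integral_abs.trans ?_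
    refine setIntegral_mono_on i1.abs (i3.const_mul _) hK.measurableSet fun z hz => ?_
    rw [abs_mul]
    refine mul_le_mul_of_nonneg_right ?_ (abs_nonneg _)
    rw [hℓ]
    exact hM z hz
  -- comparison with the absolute value
  have h9 : ∫ z in E, h' (ℓ z) * (|ev A z| / sd P Q δ z) ≤
      ∫ z in E, (h' (ℓ z) * (gg A ε z * (ev A z / sd P Q δ z)) +
        (ε * (2 / π / δ ^ 2)) * h' (ℓ z)) := by
    refine setIntegral_mono_on i4 (i2.add (i5.const_mul _)) hK.measurableSet fun z hz => ?_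
    have h4 := abs_le_arctan hε (ev A z)
    have h5 : |ev A z| / sd P Q δ z ≤
        (2 / π * arctan (ev A z / ε) * ev A z + 2 / π * ε) / sd P Q δ z := by
      have := hs z
      gcongr
    have h6 : |ev A z| / sd P Q δ z ≤ gg A ε z * (ev A z / sd P Q δ z) + ε * (2 / π / δ ^ 2) := by
      refine h5.trans ?_
      rw [add_div]
      refine add_le_add (le_of_eq ?_) ?_
      · unfold gg
        ring
      · have h6 := sd_ge P Q (δ := δ) z
        calc 2 / π * ε / sd P Q δ z ≤ 2 / π * ε / δ ^ 2 := by gcongr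
          _ = ε * (2 / π / δ ^ 2) := by ring
    have h7 := mul_le_mul_of_nonneg_left h6 (h0 (ℓ z))
    refine h7.trans (le_of_eq ?_)
    ring
  have h10 : ∫ z in E, (h' (ℓ z) * (gg A ε z * (ev A z / sd P Q δ z)) +
        (ε * (2 / π / δ ^ 2)) * h' (ℓ z)) =
      (∫ z in E, h' (ℓ z) * (gg A ε z * (ev A z / sd P Q δ z))) +
        ε * (2 / π / δ ^ 2) * ∫ z in E, h' (ℓ z) := by
    rw [integral_add i2 (i5.const_mul _), integral_const_mul]
  rw [h10] at h9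
  have h11 : ∫ z in E, h' (u.1 * z.1 + u.2 * z.2 - l) * (|ev A z| / sd P Q δ z) =
      ∫ z in E, h' (ℓ z) * (|ev A z| / sd P Q δ z) := by rw [hℓ]
  have h12 : ∫ z in E, h' (u.1 * z.1 + u.2 * z.2 - l) = ∫ z in E, h' (ℓ z) := by rw [hℓ]
  rw [h11, h12]
  linarith

/-- Bezout's theorem for the direction `A`, on disjoint regions -/
lemma sum_gg {ι : Type*} [Fintype ι] {m : ℕ} (hP : P.totalDegree ≤ m) (hQ : Q.totalDegree ≤ m)
    {E : ι → Set (ℝ × ℝ)} (hE : ∀ i, IsCompact (E i)) (hd : ∀ i j, i ≠ j → Disjoint (E i) (E j))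
    {A : MvPolynomial (Fin 2) ℝ} (hA : A.totalDegree ≤ 2 * m) {δ ε : ℝ} (hδ : 0 < δ) (hε : 0 < ε) :
    ∑ i, ∫ z in E i, |Ph P Q δ (gg A ε) z| ≤ 6 * π * m ^ 2 := by
  have hπ := pi_pos
  have h1 : ∀ i, ENNReal.ofReal (∫ z in E i, |Ph P Q δ (gg A ε) z|) =
      ∫⁻ z in E i, ENNReal.ofReal |Ph P Q δ (gg A ε) z| := fun i =>
    ofReal_setIntegral (hE i) (Ph_continuous P Q hδ (gg_contDiff _ _)).abs fun z => abs_nonneg _
  have h2 : ENNReal.ofReal (∑ i, ∫ z in E i, |Ph P Q δ (gg A ε) z|) ≤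
      ENNReal.ofReal (6 * π * m ^ 2) := by
    rw [ENNReal.ofReal_sum_of_nonneg fun i _ => integral_nonneg fun z => abs_nonneg _]
    simp only [h1]
    have h3 : ∑ i, ∫⁻ z in E i, ENNReal.ofReal |Ph P Q δ (gg A ε) z| =
        ∫⁻ z in ⋃ i, E i, ENNReal.ofReal |Ph P Q δ (gg A ε) z| := by
      rw [lintegral_iUnion (fun i => (hE i).measurableSet) (fun i j hij => hd i j hij),
        tsum_fintype]
    rw [h3]
    refine (setLIntegral_le_lintegral _ _).trans ((gg_bound a1 a2' hP hQ hA hδ hε).trans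
      (ENNReal.ofReal_le_ofReal (le_of_eq ?_)))
    push_cast
    ring
  exact (ENNReal.ofReal_le_ofReal_iff (by positivity)).1 h2

/-- the weighted variation of the angle in one direction inside disjoint regions -/
lemma core_sum {ι : Type*} [Fintype ι] {m : ℕ} (hP : P.totalDegree ≤ m) (hQ : Q.totalDegree ≤ m)
    {E : ι → Set (ℝ × ℝ)} {L : ι → ℝ} (hE : ∀ i, Bd P Q (E i) (L i))
    (hd : ∀ i j, i ≠ j → Disjoint (E i) (E j)) {δ : ℝ} (hδ : 0 < δ)
    (u : ℝ × ℝ) (l : ι → ℝ) {h h' : ι → ℝ → ℝ} (hh : ∀ i t, HasDerivAt (h i) (h' i t) t)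
    (hc : ∀ i, Continuous (h' i)) (h0 : ∀ i t, 0 ≤ h' i t) {M : ι → ℝ} (hM0 : ∀ i, 0 < M i)
    (hM : ∀ i, ∀ z ∈ E i, |h i (u.1 * z.1 + u.2 * z.2 - l i)| ≤ M i)
    (A : MvPolynomial (Fin 2) ℝ) (hAd : A.totalDegree ≤ 2 * m)
    (hA : ∀ z, ev A z = u.1 * ev (NY P Q) z - u.2 * ev (NX P Q) z) :
    ∑ i, (M i)⁻¹ * ∫ z in E i, h' i (u.1 * z.1 + u.2 * z.2 - l i) * (|ev A z| / sd P Q δ z) ≤
      ∑ i, L i + 6 * π * m ^ 2 := by
  have hπ := pi_pos
  refine le_of_forall_pos_le_add fun η hη => ?_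
  obtain ⟨c, hc'⟩ : ∃ c : ℝ, c = ∑ i, (M i)⁻¹ * (2 / π / δ ^ 2 *
      ∫ z in E i, h' i (u.1 * z.1 + u.2 * z.2 - l i)) := ⟨_, rfl⟩
  have hc0 : 0 ≤ c := by
    rw [hc']
    refine Finset.sum_nonneg fun i _ => mul_nonneg (inv_nonneg.2 (hM0 i).le)
      (mul_nonneg (by positivity) (integral_nonneg fun z => h0 i _))
  obtain ⟨ε, hε⟩ : ∃ ε : ℝ, ε = η / (c + 1) := ⟨_, rfl⟩
  have hεp : 0 < ε := by rw [hε]; positivity
  have hεc : ε * c ≤ η := by
    rw [hε, div_mul_eq_mul_div, div_le_iff₀ (by positivity)]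
    nlinarith
  have h1 : ∀ i, (M i)⁻¹ * ∫ z in E i, h' i (u.1 * z.1 + u.2 * z.2 - l i) *
      (|ev A z| / sd P Q δ z) ≤ L i + (∫ z in E i, |Ph P Q δ (gg A ε) z|) +
        ε * ((M i)⁻¹ * (2 / π / δ ^ 2 * ∫ z in E i, h' i (u.1 * z.1 + u.2 * z.2 - l i))) := by
    intro i
    have h2 := core_one (hE i) hδ hεp u (l i) (hh i) (hc i) (h0 i) (hM0 i).le (hM i) A hA
    have h3 := mul_le_mul_of_nonneg_left h2 (inv_nonneg.2 (hM0 i).le)
    refine h3.trans (le_of_eq ?_)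
    have h4 := (hM0 i).ne'
    rw [mul_add, ← mul_assoc, inv_mul_cancel₀ h4, one_mul]
    ring
  calc ∑ i, (M i)⁻¹ * ∫ z in E i, h' i (u.1 * z.1 + u.2 * z.2 - l i) * (|ev A z| / sd P Q δ z)
      ≤ ∑ i, (L i + (∫ z in E i, |Ph P Q δ (gg A ε) z|) +
        ε * ((M i)⁻¹ * (2 / π / δ ^ 2 * ∫ z in E i, h' i (u.1 * z.1 + u.2 * z.2 - l i)))) :=
        Finset.sum_le_sum fun i _ => h1 i
    _ = ∑ i, L i + (∑ i, ∫ z in E i, |Ph P Q δ (gg A ε) z|) + ε * c := by
        rw [Finset.sum_add_distrib, Finset.sum_add_distrib, hc', Finset.mul_sum]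
    _ ≤ ∑ i, L i + 6 * π * m ^ 2 + η :=
        add_le_add (add_le_add le_rfl (sum_gg hP hQ (fun i => (hE i).cpt) hd hAd hδ hεp)) hεc

end

end Run7.h202
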