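import Mathlib

/-! Laminar families of sets. -/

namespace Run7.h202

/-- a laminar family of nonempty subsets of a finite nonempty set `Z` has less than `2 |Z|` members -/
theorem laminar_card {α : Type*} [DecidableEq α] (Z : Finset α) (hZ : Z.Nonempty)
    (F : Finset (Finset α)) (h1 : ∀ S ∈ F, S.Nonempty ∧ S ⊆ Z)
    (h2 : ∀ S ∈ F, ∀ T ∈ F, S ⊆ T ∨ T ⊆ S ∨ Disjoint S T) : F.card + 1 ≤ 2 * Z.card := by
  obtain ⟨n, hn⟩ : ∃ n, n = Z.card := ⟨_, rfl⟩
  induction n using Nat.strong_induction_on generalizing Z F with
  | _ n ih =>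
    subst hn
    have hZc : 1 ≤ Z.card := hZ.card_pos
    rcases (F.erase Z).eq_empty_or_nonempty with he | hne
    · have h3 : F ⊆ {Z} := by
        intro S hS
        rw [Finset.mem_singleton]
        by_contra hc
        have : S ∈ F.erase Z := Finset.mem_erase.2 ⟨hc, hS⟩
        rw [he] at this
        simp at this
      have := Finset.card_le_card h3
      rw [Finset.card_singleton] at this
      omega
    · obtain ⟨M, hM⟩ := (F.erase Z).exists_maximal hne
      have hMF : M ∈ F := Finset.mem_of_mem_erase hM.1
      have hMZ : M ≠ Z := Finset.ne_of_mem_erase hM.1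
      have hMs : M ⊆ Z := (h1 M hMF).2
      have hMc : M.card < Z.card := Finset.card_lt_card (hMs.ssubset_of_ne hMZ)
      have hMp : 0 < M.card := (h1 M hMF).1.card_pos
      have hD : (Z \ M).card = Z.card - M.card := Finset.card_sdiff_of_subset hMs
      have hDn : (Z \ M).Nonempty := by
        rw [← Finset.card_pos]
        omega
      have k1 := ih M.card hMc M (h1 M hMF).1 ((F.erase Z).filter (· ⊆ M))
        (fun S hS => by
          rw [Finset.mem_filter] at hS
          exact ⟨(h1 S (Finset.mem_of_mem_erase hS.1)).1, hS.2⟩)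
        (fun S hS T hT => h2 S (Finset.mem_of_mem_erase (Finset.mem_filter.1 hS).1) T
          (Finset.mem_of_mem_erase (Finset.mem_filter.1 hT).1)) rfl
      have k2 := ih (Z \ M).card (by omega) (Z \ M) hDn ((F.erase Z).filter (· ⊆ Z \ M))
        (fun S hS => by
          rw [Finset.mem_filter] at hS
          exact ⟨(h1 S (Finset.mem_of_mem_erase hS.1)).1, hS.2⟩)
        (fun S hS T hT => h2 S (Finset.mem_of_mem_erase (Finset.mem_filter.1 hS).1) T
          (Finset.mem_of_mem_erase (Finset.mem_filter.1 hT).1)) rfl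
      have hsub : F ⊆ insert Z ((F.erase Z).filter (· ⊆ M) ∪ (F.erase Z).filter (· ⊆ Z \ M)) := by
        intro S hS
        rw [Finset.mem_insert, Finset.mem_union, Finset.mem_filter, Finset.mem_filter]
        by_cases hSZ : S = Z
        · exact Or.inl hSZ
        · have hSe : S ∈ F.erase Z := Finset.mem_erase.2 ⟨hSZ, hS⟩
          right
          rcases h2 S hS M hMF with h | h | h
          · exact Or.inl ⟨hSe, h⟩
          · exact Or.inl ⟨hSe, hM.2 hSe h⟩
          · refine Or.inr ⟨hSe, fun x hx => ?_⟩
            rw [Finset.mem_sdiff]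
            exact ⟨(h1 S hS).2 hx, fun hxM => (Finset.disjoint_left.1 h) hx hxM⟩
      have k3 := (Finset.card_le_card hsub).trans (Finset.card_insert_le _ _)
      have k4 := Finset.card_union_le ((F.erase Z).filter (· ⊆ M)) ((F.erase Z).filter (· ⊆ Z \ M))
      omega

end Run7.h202
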