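import Pool.Agent.Run7.h202.Lim
import Pool.Agent.Run7.h202.Lam

/-! Closed orbits of all rotated fields, the zeros which they enclose, and the regions between
closed orbits which enclose the same zeros. -/

open Real Set MeasureTheory Topology Filter
open scoped ENNReal

namespace Run7.h202

noncomputable section

open Pool.Agent.H709R2 (rot wedge field ClosedOrbit)
open Pool.Agent.H709U (rf Orb)
open Pool.Agent.H709Q (Maj)
open Pool.Agent.N224.Hil
open Classical in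

/-- a closed orbit of one of the rotated fields with total absolute curvature at most `κ` -/
structure Cyc (P Q : MvPolynomial (Fin 2) ℝ) (κ : ℝ) where
  /-- the angle -/
  α : ℝ
  /-- the solution -/
  γ : ℝ → ℝ × ℝ
  /-- the minimal period -/
  T : ℝ
  hα : α ∈ Ioo 0 π
  orb : Orb (rf (field P Q) α) γ T
  curv : TC P Q α γ T ≤ κ

variable {P Q : MvPolynomial (Fin 2) ℝ} {κ : ℝ}

namespace Cyc

/-- the curve -/
def C (c : Cyc P Q κ) : Set (ℝ × ℝ) := range c.γ
/-- the closed disc -/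
def F (c : Cyc P Q κ) : Set (ℝ × ℝ) := fl P Q c.α c.γ c.T
/-- the open disc -/
def I (c : Cyc P Q κ) : Set (ℝ × ℝ) := il P Q c.α c.γ c.T

lemma F_eq (c : Cyc P Q κ) : c.F = c.C ∪ c.I := rfl

lemma I_sub (c : Cyc P Q κ) : c.I ⊆ c.F := subset_union_right

lemma C_sub (c : Cyc P Q κ) : c.C ⊆ c.F := subset_union_left

lemma disj (c : Cyc P Q κ) : Disjoint c.C c.I := range_disj_il _ _ _

lemma I_eq (c : Cyc P Q κ) : c.I = c.F \ c.C := by
  rw [F_eq]
  ext z
  constructor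
  · intro hz
    exact ⟨Or.inr hz, fun h => (Set.disjoint_left.1 c.disj) h hz⟩
  · rintro ⟨h | h, h'⟩
    · exact absurd h h'
    · exact h

lemma I_open (c : Cyc P Q κ) : IsOpen c.I := il_open c.orb

lemma F_cpt (c : Cyc P Q κ) : IsCompact c.F := fl_cpt c.orb

lemma closed (c : Cyc P Q κ) : ClosedOrbit (rf (field P Q) c.α) c.C := by
  obtain ⟨h1, h2, h3, h4⟩ := orb_par c.orb
  exact ⟨c.γ, c.T, h1, h2, h3, h4, rfl⟩

lemma alpha_eq (c c' : Cyc P Q κ) (h : ¬ Disjoint c.C c'.C) : c.α = c'.α := by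
  by_contra hne
  apply h
  refine Pool.Agent.W960.HP.disjoint_rf (Pool.Agent.H709R2.contDiff_field P Q) ?_ c.closed c'.closed
  intro h0
  have h1 := c.hα
  have h2 := c'.hα
  rw [Real.sin_eq_zero_iff_of_lt_of_lt (by linarith [h1.2, h2.1]) (by linarith [h1.1, h2.2])] at h0
  exact hne (by linarith)

lemma C_eq (c c' : Cyc P Q κ) (h : ¬ Disjoint c.C c'.C) : c.C = c'.C := by
  have hα := alpha_eq c c' h
  rw [Set.not_disjoint_iff] at h
  obtain ⟨z, ⟨s, hs⟩, ⟨t, ht⟩⟩ := h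
  have h1 := c'.orb
  rw [← hα] at h1
  exact Pool.Agent.W960.HP.orbits_eq (Pool.Agent.W960.HP.rf_smooth
    (Pool.Agent.H709R2.contDiff_field P Q) c.α) c.orb.pos h1.pos c.orb.ode h1.ode c.orb.per h1.per
    (s := s) (s' := t) (by rw [hs, ht])

lemma C_ne (c : Cyc P Q κ) : c.C.Nonempty := range_nonempty _

lemma F_congr {c c' : Cyc P Q κ} (h : c.C = c'.C) : c.F = c'.F := by
  have hα : c.α = c'.α := by
    apply alpha_eq
    rw [← h, disjoint_self, Set.bot_eq_empty]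
    exact c.C_ne.ne_empty
  obtain ⟨α, γ, T, hα1, ho, hc⟩ := c
  obtain ⟨α', γ', T', hα2, ho', hc'⟩ := c'
  simp only at hα
  subst hα
  obtain ⟨h1, h2, h3, h4⟩ := orb_par ho
  obtain ⟨k1, k2, k3, k4⟩ := orb_par ho'
  exact Pool.Agent.N224.Hil.i _ (Pool.Agent.W960.HP.rf_smooth
    (Pool.Agent.H709R2.contDiff_field P Q) α) γ γ' T T' h1 h2 h3 h4 k1 k2 k3 k4 h

lemma I_congr {c c' : Cyc P Q κ} (h : c.C = c'.C) : c.I = c'.I := by
  rw [I_eq, I_eq, F_congr h, h]

/-- two closed orbits are equal, nested or enclose disjoint sets -/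
lemma tri (c c' : Cyc P Q κ) : c.C = c'.C ∨ c.F ⊆ c'.I ∨ c'.F ⊆ c.I ∨ Disjoint c.F c'.F := by
  by_cases h : Disjoint c.C c'.C
  · exact Or.inr (allTT _ _ _ _ _ _ (orb_loop c.orb) (orb_loop c'.orb) h)
  · exact Or.inl (C_eq c c' h)

/-- the largest first coordinate -/
def m (c : Cyc P Q κ) : ℝ := sSup (Prod.fst '' c.F)

lemma m_congr {c c' : Cyc P Q κ} (h : c.C = c'.C) : c.m = c'.m := by
  unfold m
  rw [F_congr h]

lemma m_lt {c c' : Cyc P Q κ} (h : c.F ⊆ c'.I) : c.m < c'.m := by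
  have hne : c.F.Nonempty := c.C_ne.mono c.C_sub
  obtain ⟨z, hz, hmax⟩ := c.F_cpt.exists_isMaxOn hne continuous_fst.continuousOn
  have h1 : c.m = z.1 := by
    unfold m
    apply le_antisymm
    · refine csSup_le (hne.image _) ?_
      rintro _ ⟨w, hw, rfl⟩
      exact hmax hw
    · exact le_csSup (c.F_cpt.image continuous_fst).bddAbove ⟨z, hz, rfl⟩
  have hz' := h hz
  obtain ⟨ε, hε, hb⟩ := Metric.isOpen_iff.1 c'.I_open z hz'
  have h2 : ((z.1 + ε / 2, z.2) : ℝ × ℝ) ∈ c'.I := by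
    apply hb
    rw [Metric.mem_ball, Prod.dist_eq, Real.dist_eq, Real.dist_eq]
    simp only [add_sub_cancel_left, sub_self, abs_zero]
    rw [abs_of_pos (by positivity), max_eq_left (by positivity)]
    linarith
  have h3 : z.1 + ε / 2 ≤ c'.m :=
    le_csSup (c'.F_cpt.image continuous_fst).bddAbove ⟨_, c'.I_sub h2, rfl⟩
  rw [h1]
  linarith

/-- the enclosed points of `Z` -/
def S (Z : Finset (ℝ × ℝ)) (c : Cyc P Q κ) : Finset (ℝ × ℝ) := by
  classical exact Z.filter (· ∈ c.I)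

variable {Z : Finset (ℝ × ℝ)}

lemma mem_S {c : Cyc P Q κ} {z : ℝ × ℝ} : z ∈ c.S Z ↔ z ∈ Z ∧ z ∈ c.I := by
  classical
  unfold S
  rw [Finset.mem_filter]

lemma S_congr {c c' : Cyc P Q κ} (h : c.C = c'.C) : c.S Z = c'.S Z := by
  ext z
  rw [mem_S, mem_S, I_congr h]

lemma S_mono {c c' : Cyc P Q κ} (h : c.F ⊆ c'.I) : c.S Z ⊆ c'.S Z := by
  intro z hz
  rw [mem_S] at hz ⊢
  exact ⟨hz.1, h (c.I_sub hz.2)⟩

lemma S_disj {c c' : Cyc P Q κ} (h : Disjoint c.F c'.F) : Disjoint (c.S Z) (c'.S Z) := by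
  rw [Finset.disjoint_left]
  intro z hz hz'
  rw [mem_S] at hz hz'
  exact (Set.disjoint_left.1 h) (c.I_sub hz.2) (c'.I_sub hz'.2)

/-- closed orbits which enclose the same zeros are nested -/
lemma nest {c c' : Cyc P Q κ} (hS : c.S Z = c'.S Z) (hne : (c.S Z).Nonempty) (hm : c.m ≤ c'.m) :
    c.C = c'.C ∨ c.F ⊆ c'.I := by
  rcases tri c c' with h | h | h | h
  · exact Or.inl h
  · exact Or.inr h
  · exact absurd (m_lt h) (not_lt.2 hm)
  · have := S_disj (Z := Z) h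
    rw [← hS, Finset.disjoint_self_iff_empty] at this
    exact absurd this hne.ne_empty

lemma nest_F {c c' : Cyc P Q κ} (hS : c.S Z = c'.S Z) (hne : (c.S Z).Nonempty) (hm : c.m ≤ c'.m) :
    c.F ⊆ c'.F := by
  rcases nest hS hne hm with h | h
  · rw [F_congr h]
  · exact h.trans c'.I_sub

lemma nest_I {c c' : Cyc P Q κ} (hS : c.S Z = c'.S Z) (hne : (c.S Z).Nonempty) (hm : c.m ≤ c'.m) :
    c.I ⊆ c'.I := by
  rcases nest hS hne hm with h | h
  · rw [I_congr h]
  · exact c.I_sub.trans h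

/-- the region between two closed orbits -/
def R (i o : Cyc P Q κ) : Set (ℝ × ℝ) := o.F \ i.I

lemma kappa_nonneg (c : Cyc P Q κ) : 0 ≤ κ := (TC_nonneg c.orb).trans c.curv

lemma R_bd {i o : Cyc P Q κ} (hS : i.S Z = o.S Z) (hne : (i.S Z).Nonempty) (hm : i.m ≤ o.m) :
    Bd P Q (R i o) (2 * κ) := by
  have hκ := kappa_nonneg i
  rcases nest hS hne hm with h | h
  · unfold R
    rw [I_congr h]
    exact bd_curve o.orb (by positivity)
  · refine (bd_ann i.orb o.orb h).mono ?_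
    linarith [i.curv, o.curv]

lemma R_mono {i o i' o' : Cyc P Q κ} (hi : i'.S Z = i.S Z) (ho : o.S Z = o'.S Z)
    (hn : (i.S Z).Nonempty) (hn' : (o.S Z).Nonempty) (hm : i'.m ≤ i.m) (hm' : o.m ≤ o'.m) :
    R i o ⊆ R i' o' := by
  rintro z ⟨h1, h2⟩
  exact ⟨nest_F ho hn' hm' h1, fun h => h2 (nest_I hi (by rw [hi]; exact hn) hm h)⟩

lemma C_sub_R {i o c : Cyc P Q κ} (hi : i.S Z = c.S Z) (ho : c.S Z = o.S Z)
    (hn : (c.S Z).Nonempty) (hm : i.m ≤ c.m) (hm' : c.m ≤ o.m) : c.C ⊆ R i o := by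
  intro z hz
  refine ⟨nest_F ho hn hm' (c.C_sub hz), fun h => ?_⟩
  have h1 := nest_I hi (by rw [hi]; exact hn) hm h
  exact (Set.disjoint_left.1 c.disj) hz h1

lemma R_disj {i o i' o' : Cyc P Q κ} (hS : i.S Z = o.S Z) (hS' : i'.S Z = o'.S Z)
    (hn : (o.S Z).Nonempty) (hn' : (o'.S Z).Nonempty) (hne : o.S Z ≠ o'.S Z) :
    Disjoint (R i o) (R i' o') := by
  have key : ∀ a b a' b' : Cyc P Q κ, a.S Z = b.S Z → a'.S Z = b'.S Z → (b.S Z).Nonempty →
      b.S Z ≠ b'.S Z → b.F ⊆ b'.I → Disjoint (R a b) (R a' b') := by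
    intro a b a' b' h1 h2 h3 h4 h5
    rcases tri b a' with h | h | h | h
    · exact absurd ((S_congr h).trans h2) h4
    · rw [Set.disjoint_left]
      rintro z ⟨hz, -⟩ ⟨-, hz'⟩
      exact hz' (h hz)
    · exfalso
      apply h4
      apply Finset.Subset.antisymm (S_mono h5)
      rw [← h2]
      exact S_mono h
    · exfalso
      have h6 := S_disj (Z := Z) h
      rw [h2] at h6
      obtain ⟨z, hz⟩ := h3
      exact (Finset.disjoint_left.1 h6) hz (S_mono h5 hz)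
  rcases tri o o' with h | h | h | h
  · exact absurd (S_congr h) hne
  · exact key i o i' o' hS hS' hn hne h
  · exact (key i' o' i o hS' hS hn' hne.symm h).symm
  · exact h.mono sdiff_subset sdiff_subset

end Cyc

/-- a cofinal sequence in a set of real numbers -/
lemma cofinal {B : Set ℝ} {b₀ : ℝ} (hb : b₀ ∈ B) : ∃ u : ℕ → ℝ, (∀ k, u k ∈ B) ∧ Monotone u ∧
    (∀ k, b₀ ≤ u k) ∧ ∀ b ∈ B, ∃ k, b ≤ u k := by
  classical
  by_cases hmax : ∃ b ∈ B, ∀ b' ∈ B, b' ≤ b
  · obtain ⟨b, h1, h2⟩ := hmax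
    exact ⟨fun _ => b, fun _ => h1, monotone_const, fun _ => h2 _ hb, fun b' hb' => ⟨0, h2 b' hb'⟩⟩
  · push Not at hmax
    obtain ⟨q, hq⟩ := exists_surjective_nat ℚ
    obtain ⟨v, hv⟩ : ∃ v : ℕ → ℝ, v = fun k =>
      if h : ∃ b ∈ B, ((q k : ℚ) : ℝ) ≤ b then h.choose else b₀ := ⟨_, rfl⟩
    have hvB : ∀ k, v k ∈ B := by
      intro k
      rw [hv]
      simp only
      split_ifs with h
      · exact h.choose_spec.1
      · exact hb
    have hvq : ∀ k, (∃ b ∈ B, ((q k : ℚ) : ℝ) ≤ b) → ((q k : ℚ) : ℝ) ≤ v k := by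
      intro k h
      rw [hv]
      simp only
      rw [dif_pos h]
      exact h.choose_spec.2
    obtain ⟨u, hu⟩ : ∃ u : ℕ → ℝ, u = fun k => max b₀ (partialSups v k) := ⟨_, rfl⟩
    have hpB : ∀ k, partialSups v k ∈ B := by
      intro k
      induction k with
      | zero => simpa using hvB 0
      | succ k ih =>
        rw [partialSups_add_one]
        rcases le_total (partialSups v k) (v (k + 1)) with h | h
        · rw [sup_eq_right.2 h]
          exact hvB _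
        · rw [sup_eq_left.2 h]
          exact ih
    refine ⟨u, fun k => ?_, fun i j hij => ?_, fun k => ?_, fun b hbB => ?_⟩
    · rw [hu]
      simp only
      rcases le_total b₀ (partialSups v k) with h | h
      · rw [max_eq_right h]
        exact hpB k
      · rw [max_eq_left h]
        exact hb
    · rw [hu]
      exact max_le_max le_rfl ((partialSups v).monotone hij)
    · rw [hu]
      exact le_max_left _ _
    · obtain ⟨b', hb', hlt⟩ := hmax b hbB
      obtain ⟨r, hr1, hr2⟩ := exists_rat_btwn hlt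
      obtain ⟨k, hk⟩ := hq r
      refine ⟨k, ?_⟩
      have h1 := hvq k ⟨b', hb', by rw [hk]; exact hr2.le⟩
      rw [hk] at h1
      have h2 : v k ≤ partialSups v k := le_partialSups v k
      rw [hu]
      simp only
      exact (hr1.le.trans h1).trans (h2.trans (le_max_right _ _))

/-- a coinitial sequence in a set of real numbers -/
lemma coinitial {B : Set ℝ} {b₀ : ℝ} (hb : b₀ ∈ B) : ∃ u : ℕ → ℝ, (∀ k, u k ∈ B) ∧ Antitone u ∧
    (∀ k, u k ≤ b₀) ∧ ∀ b ∈ B, ∃ k, u k ≤ b := by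
  obtain ⟨u, h1, h2, h3, h4⟩ := cofinal (B := Neg.neg '' B) (b₀ := -b₀) ⟨b₀, hb, rfl⟩
  refine ⟨fun k => -u k, fun k => ?_, fun i j hij => neg_le_neg (h2 hij), fun k => ?_,
    fun b hbB => ?_⟩
  · obtain ⟨b, hb', e⟩ := h1 k
    simp only [← e, neg_neg]
    exact hb'
  · have := h3 k
    simp only
    linarith
  · obtain ⟨k, hk⟩ := h4 (-b) ⟨b, hbB, rfl⟩
    refine ⟨k, ?_⟩
    simp only
    linarith

end

end Run7.h202
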