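import Pool.Agent.Run7.h202.Bd
import Pool.Agent.H709U.T2

/-! A closed orbit of a rotated polynomial field encloses a zero of the field. -/

open Real Set MeasureTheory Topology Filter
open scoped ENNReal

namespace Run7.h202

noncomputable section

open Pool.Agent.H709R2 (rot wedge field ClosedOrbit)
open Pool.Agent.H709U (rf Orb)
open Pool.Agent.N224.Hil

variable {P Q : MvPolynomial (Fin 2) ℝ}

lemma wedge_fderiv (z v : ℝ × ℝ) : wedge (field P Q z) (fderiv ℝ (field P Q) z v) =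
    ev (NX P Q) z * v.1 + ev (NY P Q) z * v.2 := by
  have h1 : fderiv ℝ (field P Q) z v =
      v.1 • fderiv ℝ (field P Q) z (1, 0) + v.2 • fderiv ℝ (field P Q) z (0, 1) := by
    have h2 : v = v.1 • ((1:ℝ), (0:ℝ)) + v.2 • ((0:ℝ), (1:ℝ)) := by
      ext <;> simp
    conv_lhs => rw [h2]
    rw [map_add, map_smul, map_smul]
  rw [h1, ev_NX, ev_NY]
  unfold wedge
  simp only [Prod.fst_add, Prod.snd_add, Prod.smul_fst, Prod.smul_snd, smul_eq_mul]
  ring

lemma KK_eq (β : ℝ) (z : ℝ × ℝ) : ev (KK P Q β) z =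
    wedge (field P Q z) (fderiv ℝ (field P Q) z (rf (field P Q) β z)) := by
  rw [wedge_fderiv]
  have e1 : (rf (field P Q) β z).1 = cos β * ev P z - sin β * ev Q z := rfl
  have e2 : (rf (field P Q) β z).2 = sin β * ev P z + cos β * ev Q z := rfl
  rw [e1, e2]
  unfold KK
  simp only [ev_add, ev_mul, ev_sub, ev_C]

/-- the identification with the complex plane -/
def cx (v : ℝ × ℝ) : ℂ := (v.1 : ℂ) + v.2 * Complex.I

lemma cx_re (v : ℝ × ℝ) : (cx v).re = v.1 := by simp [cx]
lemma cx_im (v : ℝ × ℝ) : (cx v).im = v.2 := by simp [cx]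

lemma cx_inj {v w : ℝ × ℝ} (h : cx v = cx w) : v = w := by
  have h1 := congrArg Complex.re h
  have h2 := congrArg Complex.im h
  rw [cx_re, cx_re] at h1
  rw [cx_im, cx_im] at h2
  exact Prod.ext h1 h2

lemma cx_ne {v : ℝ × ℝ} (h : v ≠ 0) : cx v ≠ 0 := by
  intro h0
  apply h
  apply cx_inj
  rw [h0]
  simp [cx]

lemma cx_rot (α : ℝ) (v : ℝ × ℝ) : cx (rot α v) = Complex.exp (α * Complex.I) * cx v := by
  unfold cx
  rw [Complex.exp_mul_I]
  unfold rot
  push_cast
  ring_nf
  rw [Complex.I_sq]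
  ring

lemma cx_deriv {γ : ℝ → ℝ × ℝ} {γ' : ℝ × ℝ} {t : ℝ} (h : HasDerivAt γ γ' t) :
    HasDerivAt (fun t => cx (γ t)) (cx γ') t := by
  have a1 : HasDerivAt (fun t => (γ t).1) γ'.1 t :=
    (ContinuousLinearMap.fst ℝ ℝ ℝ).hasFDerivAt.comp_hasDerivAt t h
  have a2 : HasDerivAt (fun t => (γ t).2) γ'.2 t :=
    (ContinuousLinearMap.snd ℝ ℝ ℝ).hasFDerivAt.comp_hasDerivAt t h
  have h1 : HasDerivAt (fun t => ((γ t).1 : ℂ)) (γ'.1 : ℂ) t := a1.ofReal_comp
  have h2 : HasDerivAt (fun t => ((γ t).2 : ℂ)) (γ'.2 : ℂ) t := a2.ofReal_comp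
  exact h1.add (h2.mul_const Complex.I)

lemma cx_cont {γ : ℝ → ℝ × ℝ} (h : Continuous γ) : Continuous fun t => cx (γ t) := by
  unfold cx
  fun_prop

lemma div_im {a b : ℝ × ℝ} : (cx a / cx b).im = wedge b a / Pool.Agent.H709R2.sq b := by
  rw [Complex.div_im, cx_re, cx_re, cx_im, cx_im, Complex.normSq_apply, cx_re, cx_im]
  unfold wedge Pool.Agent.H709R2.sq
  rw [← sub_div]
  congr 1
  · ring
  · ring

/-- the total curvature of a closed orbit does not vanish -/
lemma turn_ne {β : ℝ} {γ : ℝ → ℝ × ℝ} {T : ℝ} (h : Orb (rf (field P Q) β) γ T) :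
    ∫ t in (0:ℝ)..T, ev (KK P Q β) (γ t) / ev (SQ P Q) (γ t) ≠ 0 := by
  intro hI
  have hγ := orb_cont h
  have hF : ContDiff ℝ 2 (field P Q) := Pool.Agent.H709R2.contDiff_field P Q
  have hFne : ∀ t, field P Q (γ t) ≠ 0 := by
    intro t h0
    have := sq_orb_pos h t
    rw [ev_SQ, h0] at this
    simp [Pool.Agent.H709R2.sq] at this
  -- the velocity and its derivative
  obtain ⟨v, hv⟩ : ∃ v : ℝ → ℂ, v = fun t => cx (rf (field P Q) β (γ t)) := ⟨_, rfl⟩
  obtain ⟨a, ha⟩ : ∃ a : ℝ → ℝ × ℝ, a = fun t =>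
    fderiv ℝ (field P Q) (γ t) (rf (field P Q) β (γ t)) := ⟨_, rfl⟩
  have hvr : ∀ t, v t = Complex.exp (β * Complex.I) * cx (field P Q (γ t)) := by
    intro t
    rw [hv]
    exact cx_rot β _
  have hvd : ∀ t, HasDerivAt v (Complex.exp (β * Complex.I) * cx (a t)) t := by
    intro t
    have h1 : HasDerivAt (fun t => field P Q (γ t)) (a t) t := by
      rw [ha]
      exact ((hF.differentiable (by norm_num) (γ t)).hasFDerivAt).comp_hasDerivAt t (h.ode t)
    have h2 := (cx_deriv h1).const_mul (Complex.exp (β * Complex.I))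
    exact h2.congr_of_eventuallyEq (Eventually.of_forall hvr)
  have hac : Continuous a := by
    rw [ha]
    have h1 : Continuous fun t => fderiv ℝ (field P Q) (γ t) :=
      (hF.continuous_fderiv (by norm_num)).comp hγ
    exact h1.clm_apply ((orb_loop h).cont)
  have hvne : ∀ t, v t ≠ 0 := by
    intro t
    rw [hv]
    exact cx_ne (h.ne t)
  have hvc : Continuous v := continuous_iff_continuousAt.2 fun t => (hvd t).continuousAt
  obtain ⟨w, hw⟩ : ∃ w : ℝ → ℂ, w = fun t => cx (a t) / cx (field P Q (γ t)) := ⟨_, rfl⟩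
  have hwv : ∀ t, Complex.exp (β * Complex.I) * cx (a t) = v t * w t := by
    intro t
    rw [hvr, hw]
    simp only
    have := cx_ne (hFne t)
    field_simp
  have hwc : Continuous w := by
    rw [hw]
    exact (cx_cont hac).div (cx_cont (hF.continuous.comp hγ)) fun t => cx_ne (hFne t)
  -- the logarithm
  obtain ⟨L, hL⟩ : ∃ L : ℝ → ℂ, L = fun t => Complex.log (v 0) + ∫ s in (0:ℝ)..t, w s := ⟨_, rfl⟩
  have hLd : ∀ t, HasDerivAt L (w t) t := by
    intro t
    rw [hL]
    exact (hwc.integral_hasStrictDerivAt 0 t).hasDerivAt.const_add _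
  have hLc : Continuous L := continuous_iff_continuousAt.2 fun t => (hLd t).continuousAt
  have hexp : ∀ t, Complex.exp (L t) = v t := by
    have hG : ∀ t, HasDerivAt (fun t => v t * Complex.exp (-L t)) 0 t := by
      intro t
      have h1 := (hvd t).mul ((hLd t).neg.cexp)
      refine h1.congr_deriv ?_
      rw [hwv]
      ring
    have h2 : ∀ t, v t * Complex.exp (-L t) = v 0 * Complex.exp (-L 0) := fun t =>
      is_const_of_deriv_eq_zero (fun t => (hG t).differentiableAt) (fun t => (hG t).deriv) t 0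
    intro t
    have h3 : L 0 = Complex.log (v 0) := by
      rw [hL]
      simp
    have h4 := h2 t
    rw [h3, Complex.exp_neg, Complex.exp_neg, Complex.exp_log (hvne 0),
      mul_inv_cancel₀ (hvne 0)] at h4
    have h5 := Complex.exp_ne_zero (L t)
    field_simp at h4
    exact h4.symm
  have hTT := Pool.Agent.H709U.t2 Pool.Agent.H709U.t1 (fun t => cx (γ t)) v T h.pos
    (fun t => by rw [hv]; exact cx_deriv (h.ode t)) hvc
    (fun t => by simp only [h.per t]) hvne (fun s t hst => h.inj s t (cx_inj hst)) L hLc hexp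
  apply hTT
  have hLT : L T - L 0 = ∫ s in (0:ℝ)..T, w s := by
    rw [hL]
    simp
  have him : (∫ s in (0:ℝ)..T, w s).im = 0 := by
    have h1 : (∫ s in (0:ℝ)..T, w s).im = ∫ s in (0:ℝ)..T, (w s).im := by
      have := Complex.imCLM.intervalIntegral_comp_comm
        (hwc.intervalIntegrable (μ := volume) 0 T)
      exact this.symm
    rw [h1, ← hI]
    congr 1
    funext t
    rw [hw]
    simp only
    rw [div_im, ← ev_SQ, KK_eq, ha]
  have hexp1 : Complex.exp (L T - L 0) = 1 := by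
    rw [Complex.exp_sub, hexp, hexp]
    have : v T = v 0 := by
      rw [hv]
      simp only
      have := h.per 0
      rw [zero_add] at this
      rw [this]
    rw [this, div_self (hvne 0)]
  have hre : (L T - L 0).re = 0 := by
    have h1 := congrArg (fun z : ℂ => ‖z‖) hexp1
    simp only [Complex.norm_exp, norm_one] at h1
    exact Real.exp_eq_one_iff _ |>.1 h1
  have h0 : L T - L 0 = 0 := by
    apply Complex.ext
    · rw [hre]
      rfl
    · rw [hLT, him]
      rfl
  exact sub_eq_zero.1 h0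

/-- **a closed orbit encloses a zero of the field** -/
theorem zero_inside {β : ℝ} {γ : ℝ → ℝ × ℝ} {T : ℝ} (h : Orb (rf (field P Q) β) γ T) :
    ∃ p ∈ il P Q β γ T, field P Q p = 0 := by
  by_contra hcon
  push Not at hcon
  have hγ := orb_cont h
  have hSpos : ∀ z ∈ fl P Q β γ T, 0 < ev (SQ P Q) z := by
    intro z hz
    rcases hz with ⟨t, rfl⟩ | hz
    · exact sq_orb_pos h t
    · rw [ev_SQ]
      exact Pool.Agent.H709R2.sq_pos (hcon z hz)
  have hcpt := fl_cpt h
  have hne : (fl P Q β γ T).Nonempty := ⟨γ 0, Or.inl ⟨0, rfl⟩⟩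
  obtain ⟨z₀, hz₀, hmin⟩ := hcpt.exists_isMinOn hne (ev_continuous (SQ P Q)).continuousOn
  obtain ⟨z₁, hz₁, hmax⟩ := hcpt.exists_isMaxOn hne (ev_continuous (WW P Q)).abs.continuousOn
  obtain ⟨s, hs⟩ : ∃ s, s = ev (SQ P Q) z₀ := ⟨_, rfl⟩
  have hs0 : 0 < s := by rw [hs]; exact hSpos z₀ hz₀
  have hsm : ∀ z ∈ fl P Q β γ T, s ≤ ev (SQ P Q) z := fun z hz => by
    rw [hs]
    exact hmin hz
  obtain ⟨M, hM⟩ : ∃ M, M = |ev (WW P Q) z₁| := ⟨_, rfl⟩
  have hMm : ∀ z ∈ fl P Q β γ T, |ev (WW P Q) z| ≤ M := fun z hz => by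
    rw [hM]
    exact hmax hz
  obtain ⟨I, hI⟩ : ∃ I, I = ∫ t in (0:ℝ)..T, ev (KK P Q β) (γ t) / ev (SQ P Q) (γ t) := ⟨_, rfl⟩
  obtain ⟨c, hc⟩ : ∃ c, c = 2 * M / s ^ 2 * volume.real (fl P Q β γ T) +
    ∫ t in (0:ℝ)..T, |ev (KK P Q β) (γ t)| / ev (SQ P Q) (γ t) ^ 2 := ⟨_, rfl⟩
  have cK : Continuous fun t => ev (KK P Q β) (γ t) := (ev_continuous _).comp hγ
  have cS : Continuous fun t => ev (SQ P Q) (γ t) := (ev_continuous _).comp hγ
  have key : ∀ δ : ℝ, 0 < δ → |I| ≤ δ ^ 2 * c := by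
    intro δ hδ
    have csd : Continuous fun t => sd P Q δ (γ t) := (sd_contDiff P Q (m := 0)).continuous.comp hγ
    obtain ⟨e, he, h1⟩ := green_fill P Q allG allJ Pool.Agent.N224.Hil.n allT0 hδ h
    have h2 := h1 (fun _ => 1) contDiff_const
    have he1 : |e| = 1 := by rcases he with h | h <;> simp [h]
    simp only [one_mul] at h2
    have h3 : |∫ t in (0:ℝ)..T, ev (KK P Q β) (γ t) / sd P Q δ (γ t)| ≤
        δ ^ 2 * (2 * M / s ^ 2 * volume.real (fl P Q β γ T)) := by
      rw [h2, abs_mul, he1, one_mul]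
      have h4 := norm_setIntegral_le_of_norm_le_const (μ := volume) (s := fl P Q β γ T)
        (f := Ph P Q δ fun _ => 1) (C := δ ^ 2 * (2 * M / s ^ 2)) hcpt.measure_lt_top
        (fun z hz => by
          have h5 : Ph P Q δ (fun _ => (1:ℝ)) z = cc P Q δ z := by
            unfold Ph
            simp
          rw [h5]
          unfold cc
          have h6 := hsm z hz
          have h7 : s ≤ sd P Q δ z := by
            unfold sd
            nlinarith
          rw [Real.norm_eq_abs, abs_div, abs_mul, abs_of_pos (by positivity : 0 < 2 * δ ^ 2),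
            abs_of_pos (pow_pos (sd_pos P Q hδ z) 2)]
          have h8 := hMm z hz
          have h9 : 0 ≤ M := (abs_nonneg _).trans h8
          calc 2 * δ ^ 2 * |ev (WW P Q) z| / sd P Q δ z ^ 2
              ≤ 2 * δ ^ 2 * M / s ^ 2 := by gcongr
            _ = δ ^ 2 * (2 * M / s ^ 2) := by ring)
      rw [Real.norm_eq_abs] at h4
      refine (le_of_eq ?_).trans (h4.trans (le_of_eq ?_))
      · rfl
      · ring
    have c1 : Continuous fun t => ev (KK P Q β) (γ t) / ev (SQ P Q) (γ t) :=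
      cK.div cS fun t => (sq_orb_pos h t).ne'
    have c2 : Continuous fun t => ev (KK P Q β) (γ t) / sd P Q δ (γ t) :=
      cK.div csd fun t => (sd_pos P Q hδ _).ne'
    have c3 : Continuous fun t => δ ^ 2 * (|ev (KK P Q β) (γ t)| / ev (SQ P Q) (γ t) ^ 2) :=
      continuous_const.mul (cK.abs.div (cS.pow 2) fun t => by
        have := sq_orb_pos h t
        positivity)
    have h4 : |I - ∫ t in (0:ℝ)..T, ev (KK P Q β) (γ t) / sd P Q δ (γ t)| ≤
        δ ^ 2 * ∫ t in (0:ℝ)..T, |ev (KK P Q β) (γ t)| / ev (SQ P Q) (γ t) ^ 2 := by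
      rw [hI, ← intervalIntegral.integral_sub (c1.intervalIntegrable _ _)
        (c2.intervalIntegrable _ _), ← intervalIntegral.integral_const_mul]
      refine (intervalIntegral.abs_integral_le_integral_abs h.pos.le).trans ?_
      refine intervalIntegral.integral_mono_on h.pos.le ((c1.sub c2).abs.intervalIntegrable _ _)
        (c3.intervalIntegrable _ _) fun t _ => ?_
      have h5 := sq_orb_pos h t
      have h6 := sd_pos P Q hδ (γ t)
      have h7 : ev (SQ P Q) (γ t) ≤ sd P Q δ (γ t) := by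
        unfold sd
        nlinarith
      have h8 : ev (KK P Q β) (γ t) / ev (SQ P Q) (γ t) - ev (KK P Q β) (γ t) / sd P Q δ (γ t) =
          ev (KK P Q β) (γ t) * (δ ^ 2 / (ev (SQ P Q) (γ t) * sd P Q δ (γ t))) := by
        have h9 : δ ^ 2 = sd P Q δ (γ t) - ev (SQ P Q) (γ t) := by
          unfold sd
          ring
        rw [h9]
        field_simp
      rw [h8, abs_mul, abs_of_pos (by positivity : 0 < δ ^ 2 / (ev (SQ P Q) (γ t) *
        sd P Q δ (γ t)))]
      calc |ev (KK P Q β) (γ t)| * (δ ^ 2 / (ev (SQ P Q) (γ t) * sd P Q δ (γ t)))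
          ≤ |ev (KK P Q β) (γ t)| * (δ ^ 2 / (ev (SQ P Q) (γ t) * ev (SQ P Q) (γ t))) := by
            gcongr
        _ = δ ^ 2 * (|ev (KK P Q β) (γ t)| / ev (SQ P Q) (γ t) ^ 2) := by ring
    have h5 : |I| ≤ |I - ∫ t in (0:ℝ)..T, ev (KK P Q β) (γ t) / sd P Q δ (γ t)| +
        |∫ t in (0:ℝ)..T, ev (KK P Q β) (γ t) / sd P Q δ (γ t)| := by
      have := abs_add_le (I - ∫ t in (0:ℝ)..T, ev (KK P Q β) (γ t) / sd P Q δ (γ t))
        (∫ t in (0:ℝ)..T, ev (KK P Q β) (γ t) / sd P Q δ (γ t))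
      rwa [sub_add_cancel] at this
    rw [hc, mul_add]
    linarith
  have hI0 : I = 0 := by
    by_contra hne0
    have hIp : 0 < |I| := abs_pos.2 hne0
    have hcp : 0 < c := by
      have := key 1 one_pos
      rw [one_pow, one_mul] at this
      linarith
    obtain ⟨δ, hδ⟩ : ∃ δ : ℝ, δ = √(|I| / (2 * c)) := ⟨_, rfl⟩
    have hδp : 0 < δ := by
      rw [hδ]
      positivity
    have h1 := key δ hδp
    have h2 : δ ^ 2 = |I| / (2 * c) := by
      rw [hδ, Real.sq_sqrt (by positivity)]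
    rw [h2] at h1
    have h3 : |I| / (2 * c) * c = |I| / 2 := by field_simp
    rw [h3] at h1
    linarith
  exact turn_ne h (by rw [← hI]; exact hI0)

end

end Run7.h202
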