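import Pool.Agent.Run7.h202.Cnt
import Pool.Agent.Run7.h202.Ins

/-! Closed orbits with a given parametrisation; points inside closed orbits. -/

open Real Set MeasureTheory Topology Filter
open scoped ENNReal

namespace Run7.h202

noncomputable section

open Pool.Agent.H709R2 (rot wedge field ClosedOrbit)
open Pool.Agent.H709U (rf Orb V W dot)
open Pool.Agent.H709Q (Maj)
open Pool.Agent.N224.Hil

lemma rot_eq_zero {α : ℝ} {v : ℝ × ℝ} (h : rot α v = 0) : v = 0 := by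
  have h1 := congrArg Prod.fst h
  have h2 := congrArg Prod.snd h
  simp only [rot, Prod.fst_zero, Prod.snd_zero] at h1 h2
  have hs := Real.sin_sq_add_cos_sq α
  ext
  · simp only [Prod.fst_zero]
    linear_combination Real.cos α * h1 + Real.sin α * h2 - v.1 * hs
  · simp only [Prod.snd_zero]
    linear_combination Real.cos α * h2 - Real.sin α * h1 - v.2 * hs

/-- the minimal period of a nonconstant periodic solution -/
theorem min_period {X : ℝ × ℝ → ℝ × ℝ} (hX : ContDiff ℝ 2 X) {α : ℝ} {γ : ℝ → ℝ × ℝ} {T : ℝ}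
    (hT : 0 < T) (hγ : ∀ t, HasDerivAt γ (rf X α (γ t)) t) (hper : ∀ t, γ (t + T) = γ t)
    (hnc : ∃ s t, γ s ≠ γ t) : ∃ T₀, Orb (rf X α) γ T₀ ∧ T₀ ≤ T := by
  have hcont : Continuous γ := continuous_iff_continuousAt.2 fun t => (hγ t).continuousAt
  have hpT : Function.Periodic γ T := hper
  have hcomp : IsCompact (range γ) := hpT.compact_of_continuous hT.ne' hcont
  obtain ⟨R, hR⟩ := hcomp.isBounded.exists_norm_le
  obtain ⟨Y, hY, ⟨K, hK⟩, ⟨M, hM⟩, hYF⟩ := Pool.Agent.H709R2.exists_cutoff (F := X) hX R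
  obtain ⟨φ, hφ⟩ := Pool.Agent.H709R2.exists_rotFlow hY hK hM
  have hYf : ∀ t, Y (γ t) = X (γ t) := fun t =>
    (hYF (γ t) (hR _ ⟨t, rfl⟩)).eq_of_nhds
  have hγ' : ∀ t, HasDerivAt γ (rot α (Y (γ t))) t := by
    intro t
    rw [hYf]
    exact hγ t
  obtain ⟨T₀, hmp, hrange⟩ := Pool.Agent.H709R2.minPer_of_closed hφ hT hγ' hper hnc
  have hu : ∀ t, γ t = φ t (γ 0) α := hφ.uniq α γ hγ'
  have hP : Function.Periodic γ T₀ := by
    intro t
    rw [hu (t + T₀), hφ.add, hmp.per, ← hu t]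
  have horb : Orb (rf X α) γ T₀ := by
    refine ⟨hmp.pos, hγ, hP, ?_, ?_⟩
    · intro s t hst
      have h1 : φ (-t + s) (γ 0) α = γ 0 := by
        rw [hφ.add, ← hu s, hst, hu t, ← hφ.add, neg_add_cancel, hφ.zero]
      set k : ℤ := ⌊(s - t) / T₀⌋ with hk
      have hpos := hmp.pos
      have hr0 : 0 ≤ (s - t) - k * T₀ := by
        have := Int.floor_le ((s - t) / T₀)
        rw [← hk, le_div_iff₀ hpos] at this
        linarith
      have hr1 : (s - t) - k * T₀ < T₀ := by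
        have := Int.lt_floor_add_one ((s - t) / T₀)
        rw [← hk, div_lt_iff₀ hpos] at this
        linarith
      have h2 : φ ((s - t) - k * T₀) (γ 0) α = γ 0 := by
        rw [← hu, hP.sub_int_mul_eq, hu, show s - t = -t + s by ring, h1]
      refine ⟨k, ?_⟩
      rcases hr0.lt_or_eq with h3 | h3
      · exact absurd h2 (hmp.min _ ⟨h3, hr1⟩)
      · linarith
    · intro t h0
      have h1 : X (γ t) = 0 := rot_eq_zero h0
      rw [← hYf, hu] at h1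
      exact hφ.ne_zero hmp.ne t h1
  refine ⟨T₀, horb, ?_⟩
  obtain ⟨k, hk⟩ := horb.inj T 0 (by simpa using hper 0)
  rw [zero_add] at hk
  have hp := horb.pos
  have hk1 : (1:ℤ) ≤ k := by
    by_contra hc
    have h1 : k ≤ 0 := by omega
    have h2 : (k : ℝ) ≤ 0 := by exact_mod_cast h1
    have h3 : (k : ℝ) * T₀ ≤ 0 := mul_nonpos_of_nonpos_of_nonneg h2 hp.le
    linarith
  have hk2 : (1:ℝ) ≤ k := by exact_mod_cast hk1
  rw [hk]
  nlinarith

/-- total absolute curvature of a closed curve -/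
def totalCurvature (γ : ℝ → ℝ × ℝ) (T : ℝ) : ℝ :=
  ∫ t in (0:ℝ)..T,
    |deriv (fun s => (γ s).1) t * deriv (deriv fun s => (γ s).2) t -
      deriv (fun s => (γ s).2) t * deriv (deriv fun s => (γ s).1) t| /
      (deriv (fun s => (γ s).1) t ^ 2 + deriv (fun s => (γ s).2) t ^ 2)

variable {P Q : MvPolynomial (Fin 2) ℝ}

lemma fst_deriv {γ : ℝ → ℝ × ℝ} {v : ℝ × ℝ} {t : ℝ} (h : HasDerivAt γ v t) :
    HasDerivAt (fun s => (γ s).1) v.1 t :=
  (ContinuousLinearMap.fst ℝ ℝ ℝ).hasFDerivAt.comp_hasDerivAt t h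

lemma snd_deriv {γ : ℝ → ℝ × ℝ} {v : ℝ × ℝ} {t : ℝ} (h : HasDerivAt γ v t) :
    HasDerivAt (fun s => (γ s).2) v.2 t :=
  (ContinuousLinearMap.snd ℝ ℝ ℝ).hasFDerivAt.comp_hasDerivAt t h

lemma rot_deriv (α : ℝ) {γ : ℝ → ℝ × ℝ} {v : ℝ × ℝ} {t : ℝ} (h : HasDerivAt γ v t) :
    HasDerivAt (fun s => rot α (γ s)) (rot α v) t := by
  unfold rot
  exact (((fst_deriv h).const_mul _).sub ((snd_deriv h).const_mul _)).prodMk
    (((fst_deriv h).const_mul _).add ((snd_deriv h).const_mul _))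

lemma totalCurvature_eq {α : ℝ} {γ : ℝ → ℝ × ℝ}
    (hγ : ∀ t, HasDerivAt γ (rf (field P Q) α (γ t)) t) (T : ℝ) :
    totalCurvature γ T = TC P Q α γ T := by
  have hF : ContDiff ℝ 2 (field P Q) := Pool.Agent.H709R2.contDiff_field P Q
  have e1 : deriv (fun s => (γ s).1) = fun t => (rf (field P Q) α (γ t)).1 :=
    funext fun t => (fst_deriv (hγ t)).deriv
  have e2 : deriv (fun s => (γ s).2) = fun t => (rf (field P Q) α (γ t)).2 :=
    funext fun t => (snd_deriv (hγ t)).deriv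
  have h3 : ∀ t, HasDerivAt (fun t => rf (field P Q) α (γ t))
      (rot α (fderiv ℝ (field P Q) (γ t) (rf (field P Q) α (γ t)))) t := fun t =>
    rot_deriv α (((hF.differentiable (by norm_num) (γ t)).hasFDerivAt).comp_hasDerivAt t (hγ t))
  have e3 : ∀ t, deriv (deriv fun s => (γ s).1) t =
      (rot α (fderiv ℝ (field P Q) (γ t) (rf (field P Q) α (γ t)))).1 := by
    intro t
    rw [e1]
    exact (fst_deriv (h3 t)).deriv
  have e4 : ∀ t, deriv (deriv fun s => (γ s).2) t =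
      (rot α (fderiv ℝ (field P Q) (γ t) (rf (field P Q) α (γ t)))).2 := by
    intro t
    rw [e2]
    exact (snd_deriv (h3 t)).deriv
  unfold totalCurvature TC
  congr 1
  funext t
  rw [e3, e4, e1, e2]
  simp only
  rw [KK_eq]
  have h5 := Pool.Agent.H709U.g1_wedge_rot α (field P Q (γ t))
    (fderiv ℝ (field P Q) (γ t) (rf (field P Q) α (γ t)))
  have h6 := Pool.Agent.H709R2.sq_rot α (field P Q (γ t))
  rw [← h5, ← h6]
  rfl

lemma TC_mono {α : ℝ} {γ : ℝ → ℝ × ℝ} {T₀ T : ℝ} (h : Orb (rf (field P Q) α) γ T₀) (hT : T₀ ≤ T) :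
    TC P Q α γ T₀ ≤ TC P Q α γ T := by
  unfold TC
  simp only [← ev_SQ]
  have hγ := orb_cont h
  have c1 : Continuous fun t => |ev (KK P Q α) (γ t)| / ev (SQ P Q) (γ t) :=
    ((ev_continuous _).comp hγ).abs.div ((ev_continuous _).comp hγ) fun t => (sq_orb_pos h t).ne'
  have h1 := intervalIntegral.integral_add_adjacent_intervals
    (c1.intervalIntegrable (μ := volume) 0 T₀) (c1.intervalIntegrable (μ := volume) T₀ T)
  rw [← h1]
  have h2 : 0 ≤ ∫ t in T₀..T, |ev (KK P Q α) (γ t)| / ev (SQ P Q) (γ t) :=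
    intervalIntegral.integral_nonneg hT fun t _ =>
      div_nonneg (abs_nonneg _) (sq_orb_pos h t).le
  linarith

/-- the cycle given by a periodic solution -/
lemma exists_cyc {κ α : ℝ} (hα : α ∈ Ioo 0 π) {γ : ℝ → ℝ × ℝ} {T : ℝ} (hT : 0 < T)
    (hγ : ∀ t, HasDerivAt γ (rf (field P Q) α (γ t)) t) (hper : ∀ t, γ (t + T) = γ t)
    (hnc : ∃ s t, γ s ≠ γ t) (hκ : totalCurvature γ T ≤ κ) :
    ∃ c : Cyc P Q κ, c.α = α ∧ c.γ = γ := by
  obtain ⟨T₀, h1, h2⟩ := min_period (Pool.Agent.H709R2.contDiff_field P Q) hT hγ hper hnc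
  refine ⟨⟨α, γ, T₀, hα, h1, (TC_mono h1 h2).trans ?_⟩, rfl, rfl⟩
  rw [← totalCurvature_eq hγ]
  exact hκ

/-! ### points inside closed orbits -/

/-- the Euclidean distance -/
def ds (x y : ℝ × ℝ) : ℝ := √((x.1 - y.1) ^ 2 + (x.2 - y.2) ^ 2)

lemma ds_nonneg (x y : ℝ × ℝ) : 0 ≤ ds x y := Real.sqrt_nonneg _

lemma ds_comm (x y : ℝ × ℝ) : ds x y = ds y x := by
  unfold ds
  congr 1
  ring

lemma ds_sq (x y : ℝ × ℝ) : ds x y ^ 2 = (x.1 - y.1) ^ 2 + (x.2 - y.2) ^ 2 :=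
  Real.sq_sqrt (by positivity)

lemma ds_self (x : ℝ × ℝ) : ds x x = 0 := by
  unfold ds
  simp

lemma ds_pos {x y : ℝ × ℝ} (h : x ≠ y) : 0 < ds x y := by
  unfold ds
  apply Real.sqrt_pos.2
  by_contra hc
  apply h
  have h1 : (x.1 - y.1) ^ 2 + (x.2 - y.2) ^ 2 ≤ 0 := not_lt.1 hc
  ext <;> nlinarith [sq_nonneg (x.1 - y.1), sq_nonneg (x.2 - y.2)]

lemma abs_le_ds (x y : ℝ × ℝ) : |x.1 - y.1| ≤ ds x y ∧ |x.2 - y.2| ≤ ds x y :=
  ⟨Real.abs_le_sqrt (by nlinarith [sq_nonneg (x.2 - y.2)]),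
    Real.abs_le_sqrt (by nlinarith [sq_nonneg (x.1 - y.1)])⟩

/-- every point inside a closed orbit is closer to `z` than some point of the orbit -/
lemma far {κ : ℝ} (c : Cyc P Q κ) {q : ℝ × ℝ} (hq : q ∈ c.I) (z : ℝ × ℝ) :
    ∃ w ∈ c.C, ds q z ≤ ds w z := by
  by_contra hcon
  push Not at hcon
  apply hq.2
  refine w3 _ _ _ (orb_loop c.orb) q (z - q) fun t => ?_
  have h1 := hcon (c.γ t) ⟨t, rfl⟩
  have h2 := ds_sq (c.γ t) z
  have h3 := ds_sq q z
  have h4 : ds (c.γ t) z ^ 2 < ds q z ^ 2 := by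
    have := ds_nonneg (c.γ t) z
    nlinarith
  rw [h2, h3] at h4
  simp only [Prod.fst_sub, Prod.snd_sub]
  nlinarith [sq_nonneg ((c.γ t).1 - q.1), sq_nonneg ((c.γ t).2 - q.2)]

/-- the distance of two points inside a closed orbit is at most its diameter -/
lemma far2 {κ : ℝ} (c : Cyc P Q κ) {p q : ℝ × ℝ} (hp : p ∈ c.I) (hq : q ∈ c.I) :
    ∃ x ∈ c.C, ∃ y ∈ c.C, ds p q ≤ ds x y := by
  obtain ⟨w, hw, h1⟩ := far c hp q
  obtain ⟨w', hw', h2⟩ := far c hq w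
  refine ⟨w', hw', w, hw, ?_⟩
  rw [ds_comm q w] at h2
  exact h1.trans h2

lemma exists_two {κ : ℝ} (c : Cyc P Q κ) : ∃ x ∈ c.C, ∃ y ∈ c.C, 0 < ds x y := by
  obtain ⟨-, -, -, s, t, hst⟩ := orb_par c.orb
  exact ⟨_, ⟨s, rfl⟩, _, ⟨t, rfl⟩, ds_pos hst⟩

/-- the diameter of a closed orbit is attained -/
lemma exists_diam {κ : ℝ} (c : Cyc P Q κ) : ∃ x ∈ c.C, ∃ y ∈ c.C, 0 < ds x y ∧
    ∀ a ∈ c.C, ∀ b ∈ c.C, ds a b ≤ ds x y := by
  have hγ := orb_cont c.orb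
  have hcomp : IsCompact c.C :=
    (show Function.Periodic c.γ c.T from c.orb.per).compact_of_continuous c.orb.pos.ne' hγ
  obtain ⟨x₀, hx₀, y₀, hy₀, hpos⟩ := exists_two c
  obtain ⟨⟨x, y⟩, hxy, hmax⟩ := (hcomp.prod hcomp).exists_isMaxOn ⟨(x₀, y₀), hx₀, hy₀⟩
    (f := fun q : (ℝ × ℝ) × (ℝ × ℝ) => ds q.1 q.2) (by unfold ds; fun_prop)
  have hmax' : ∀ a ∈ c.C, ∀ b ∈ c.C, ds a b ≤ ds x y :=
    fun a ha b hb => hmax (show (a, b) ∈ c.C ×ˢ c.C from ⟨ha, hb⟩)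
  exact ⟨x, hxy.1, y, hxy.2, hpos.trans_le (hmax' _ hx₀ _ hy₀), hmax'⟩

/-- a point about which a closed orbit turns is enclosed -/
lemma mem_I {κ : ℝ} (c : Cyc P Q κ) {p : ℝ × ℝ}
    (h : ∀ z ∈ c.C, wedge (z - p) (rf (field P Q) c.α z) ≠ 0) : p ∈ c.I := by
  have hπ := pi_pos
  have hγ := orb_cont c.orb
  have hV := (orb_loop c.orb).cont
  have hpne : ∀ t, c.γ t - p ≠ 0 := by
    intro t h0
    apply h (c.γ t) ⟨t, rfl⟩
    rw [h0]
    simp [wedge]
  refine ⟨?_, ?_⟩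
  · rintro ⟨t, ht⟩
    apply hpne t
    rw [ht, sub_self]
  · obtain ⟨f, hf⟩ : ∃ f : ℝ → ℝ, f = fun t => wedge (c.γ t - p) (rf (field P Q) c.α (c.γ t)) /
      Pool.Agent.H709R2.sq (c.γ t - p) := ⟨_, rfl⟩
    have hs : ∀ t, 0 < Pool.Agent.H709R2.sq (c.γ t - p) := fun t =>
      Pool.Agent.H709R2.sq_pos (hpne t)
    have hfc : Continuous f := by
      rw [hf]
      refine Continuous.div ?_ (Pool.Agent.H709R2.continuous_sq.comp (hγ.sub continuous_const))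
        fun t => (hs t).ne'
      unfold wedge
      exact ((hγ.sub continuous_const).fst.mul hV.snd).sub ((hγ.sub continuous_const).snd.mul hV.fst)
    have hf0 : ∀ t, f t ≠ 0 := by
      intro t
      rw [hf]
      exact div_ne_zero (h _ ⟨t, rfl⟩) (hs t).ne'
    have hwn : wn c.γ (fun t => rf (field P Q) c.α (c.γ t)) c.T p =
        (2 * π)⁻¹ * ∫ t in (0:ℝ)..c.T, f t := by
      rw [hf]
      rfl
    rw [hwn]
    refine mul_ne_zero (by positivity) ?_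
    have hTp := c.orb.pos
    have hsign : (∀ t, 0 < f t) ∨ ∀ t, f t < 0 := by
      by_contra hc
      push Not at hc
      obtain ⟨⟨s, hs⟩, ⟨t, ht⟩⟩ := hc
      obtain ⟨u, hu⟩ := mem_range_of_exists_le_of_exists_ge hfc ⟨s, hs⟩ ⟨t, ht⟩
      exact hf0 u hu
    rcases hsign with h1 | h1
    · exact (intervalIntegral.intervalIntegral_pos_of_pos (hfc.intervalIntegrable _ _) h1 hTp).ne'
    · have h2 := intervalIntegral.intervalIntegral_pos_of_pos (f := fun t => -f t)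
        (hfc.neg.intervalIntegrable 0 c.T) (fun t => neg_pos.2 (h1 t)) hTp
      rw [intervalIntegral.integral_neg] at h2
      exact ne_of_lt (neg_pos.1 h2)

end

end Run7.h202
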