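import Pool.Agent.Run7.h202.Core

/-! The variation of the angle inside disjoint regions: horizontal and vertical lines, rays. -/

open Real Set MeasureTheory Topology Filter
open scoped ENNReal

namespace Run7.h202

noncomputable section

open Pool.Agent.H709R2 (rot wedge field ClosedOrbit)
open Pool.Agent.H709U (rf Orb kern A0)
open Pool.Agent.N224.Hil

/-- Fatou's lemma for sums of integrals -/
lemma fatou_sum {ι : Type*} [Fintype ι] {E : ι → Set (ℝ × ℝ)} (hE : ∀ i, MeasurableSet (E i))
    (f : ℕ → ι → (ℝ × ℝ) → ℝ≥0∞) (hf : ∀ j i, Measurable (f j i)) (g : ι → (ℝ × ℝ) → ℝ≥0∞)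
    (hg : ∀ i z, Tendsto (fun j => f j i z) atTop (𝓝 (g i z))) {B : ℝ≥0∞}
    (hB : ∀ j, ∑ i, ∫⁻ z in E i, f j i z ≤ B) : ∑ i, ∫⁻ z in E i, g i z ≤ B := by
  have e : ∀ φ : ι → (ℝ × ℝ) → ℝ≥0∞, (∀ i, Measurable (φ i)) →
      ∑ i, ∫⁻ z in E i, φ i z = ∫⁻ z, ∑ i, (E i).indicator (φ i) z := by
    intro φ hφ
    rw [lintegral_finsetSum _ (fun i _ => (hφ i).indicator (hE i))]
    refine Finset.sum_congr rfl fun i _ => ?_
    rw [lintegral_indicator (hE i)]
  have hgm : ∀ i, Measurable (g i) := fun i =>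
    measurable_of_tendsto_metrizable (fun j => hf j i) (tendsto_pi_nhds.2 fun z => hg i z)
  rw [e g hgm]
  have hlim : ∀ z, Tendsto (fun j => ∑ i, (E i).indicator (f j i) z) atTop
      (𝓝 (∑ i, (E i).indicator (g i) z)) := by
    intro z
    refine tendsto_finsetSum _ fun i _ => ?_
    by_cases hz : z ∈ E i
    · simp only [indicator_of_mem hz]
      exact hg i z
    · simp only [indicator_of_notMem hz]
      exact tendsto_const_nhds
  calc ∫⁻ z, ∑ i, (E i).indicator (g i) z
      = ∫⁻ z, liminf (fun j => ∑ i, (E i).indicator (f j i) z) atTop := by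
        refine lintegral_congr fun z => ?_
        rw [(hlim z).liminf_eq]
    _ ≤ liminf (fun j => ∫⁻ z, ∑ i, (E i).indicator (f j i) z) atTop :=
        lintegral_liminf_le fun j => Finset.measurable_fun_sum _ fun i _ => (hf j i).indicator (hE i)
    _ ≤ B := by
        have h2 : ∀ j : ℕ, ∫⁻ z, ∑ i, (E i).indicator (f j i) z ≤ B := by
          intro j
          rw [← e (f j) (hf j)]
          exact hB j
        refine (liminf_le_liminf (Eventually.of_forall h2)).trans ?_
        simp

variable {P Q : MvPolynomial (Fin 2) ℝ}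

/-- regularised quotients converge -/
lemma tendsto_quot (A : MvPolynomial (Fin 2) ℝ) (z : ℝ × ℝ) (hz : ev (SQ P Q) z = 0 → ev A z = 0) :
    Tendsto (fun j : ℕ => |ev A z| / sd P Q (1 / ((j : ℝ) + 1)) z) atTop
      (𝓝 (|ev A z| / ev (SQ P Q) z)) := by
  rcases eq_or_lt_of_le (SQ_nonneg P Q z) with h | h
  · have hAz := hz h.symm
    simp only [hAz, abs_zero, zero_div]
    exact tendsto_const_nhds
  · refine Tendsto.div tendsto_const_nhds ?_ h.ne'
    have h1 : Tendsto (fun j : ℕ => ev (SQ P Q) z + (1 / ((j : ℝ) + 1)) ^ 2) atTop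
        (𝓝 (ev (SQ P Q) z + 0 ^ 2)) :=
      tendsto_const_nhds.add (tendsto_one_div_add_atTop_nhds_zero_nat.pow 2)
    simpa [sd] using h1

lemma N_zero {z : ℝ × ℝ} (h : ev (SQ P Q) z = 0) : ev (NX P Q) z = 0 ∧ ev (NY P Q) z = 0 := by
  have hPQ : ev P z = 0 ∧ ev Q z = 0 := by
    have : ev P z * ev P z + ev Q z * ev Q z = 0 := by
      rw [← h]; simp [SQ]
    constructor <;> nlinarith [mul_self_nonneg (ev P z), mul_self_nonneg (ev Q z)]
  constructor
  · simp [NX, hPQ.1, hPQ.2]
  · simp [NY, hPQ.1, hPQ.2]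

/-- the variation of the angle in one direction, weighted by the inverse widths -/
theorem lin_sum {ι : Type*} [Fintype ι] {m : ℕ} (hP : P.totalDegree ≤ m) (hQ : Q.totalDegree ≤ m)
    {E : ι → Set (ℝ × ℝ)} {L : ι → ℝ} (hE : ∀ i, Bd P Q (E i) (L i))
    (hd : ∀ i j, i ≠ j → Disjoint (E i) (E j)) (u : ℝ × ℝ) (l : ι → ℝ) {D : ι → ℝ}
    (hD : ∀ i, 0 < D i) (hl : ∀ i, ∀ z ∈ E i, |u.1 * z.1 + u.2 * z.2 - l i| ≤ D i / 2)
    (A : MvPolynomial (Fin 2) ℝ) (hAd : A.totalDegree ≤ 2 * m)
    (hA : ∀ z, ev A z = u.1 * ev (NY P Q) z - u.2 * ev (NX P Q) z) :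
    ∑ i, ∫⁻ z in E i, ENNReal.ofReal (2 / D i) * ENNReal.ofReal (|ev A z| / ev (SQ P Q) z) ≤
      ENNReal.ofReal (∑ i, L i + 6 * π * m ^ 2) := by
  have cA := ev_continuous A
  have hAz : ∀ z, ev (SQ P Q) z = 0 → ev A z = 0 := by
    intro z hz
    rw [hA, (N_zero hz).1, (N_zero hz).2]
    ring
  refine fatou_sum (fun i => (hE i).cpt.measurableSet)
    (fun j i z => ENNReal.ofReal (2 / D i) *
      ENNReal.ofReal (|ev A z| / sd P Q (1 / ((j : ℝ) + 1)) z)) ?_ _ ?_ ?_
  · intro j i
    have a1 := cA.measurable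
    have a2 := (sd_contDiff P Q (δ := 1 / ((j : ℝ) + 1)) (m := 0)).continuous.measurable
    fun_prop
  · intro i z
    exact ENNReal.Tendsto.const_mul (ENNReal.tendsto_ofReal (tendsto_quot A z (hAz z)))
      (Or.inr ENNReal.ofReal_ne_top)
  · intro j
    have hδ : 0 < 1 / ((j : ℝ) + 1) := by positivity
    have h1 := core_sum hP hQ hE hd hδ u l (h := fun _ t => t) (h' := fun _ _ => 1)
      (fun i t => hasDerivAt_id t) (fun i => continuous_const) (fun i t => zero_le_one)
      (M := fun i => D i / 2) (fun i => by have := hD i; positivity) hl A hAd hA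
    simp only [one_mul] at h1
    have cq : Continuous fun z => |ev A z| / sd P Q (1 / ((j : ℝ) + 1)) z :=
      cA.abs.div (sd_contDiff P Q (m := 0)).continuous fun z => (sd_pos P Q hδ z).ne'
    have hq0 : ∀ z, 0 ≤ |ev A z| / sd P Q (1 / ((j : ℝ) + 1)) z := fun z =>
      div_nonneg (abs_nonneg _) (sd_pos P Q hδ z).le
    calc ∑ i, ∫⁻ z in E i, ENNReal.ofReal (2 / D i) *
          ENNReal.ofReal (|ev A z| / sd P Q (1 / ((j : ℝ) + 1)) z)
        = ∑ i, ENNReal.ofReal ((D i / 2)⁻¹ * ∫ z in E i, |ev A z| /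
            sd P Q (1 / ((j : ℝ) + 1)) z) := by
          refine Finset.sum_congr rfl fun i _ => ?_
          rw [lintegral_const_mul' _ _ ENNReal.ofReal_ne_top,
            ← ofReal_setIntegral (hE i).cpt cq hq0, inv_div,
            ENNReal.ofReal_mul (by have := hD i; positivity)]
      _ = ENNReal.ofReal (∑ i, (D i / 2)⁻¹ * ∫ z in E i, |ev A z| /
            sd P Q (1 / ((j : ℝ) + 1)) z) := by
          rw [ENNReal.ofReal_sum_of_nonneg]
          intro i _
          have := hD i
          exact mul_nonneg (by positivity) (integral_nonneg hq0)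
      _ ≤ _ := ENNReal.ofReal_le_ofReal h1

/-! ### polar coordinates -/

/-- averaging over the directions -/
lemma polar_lower (a b : ℝ) {ν : ℝ} (hν : 0 < ν) {w : ℝ × ℝ} (hw : w ≠ 0) :
    2 / (π * Pool.Agent.H709R2.sq w) * arctan (√(Pool.Agent.H709R2.sq w) / ν) *
      |a * w.1 + b * w.2| ≤
    ∫ φ in (0:ℝ)..π, (1 / π) * (ν / (ν ^ 2 + (sin φ * w.1 - cos φ * w.2) ^ 2)) *
      |cos φ * a + sin φ * b| := by
  have hπ := pi_pos
  obtain ⟨r, ψ, hr, h1, h2⟩ : ∃ r ψ : ℝ, 0 < r ∧ w.1 = r * cos ψ ∧ w.2 = r * sin ψ := by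
    obtain ⟨c, hc⟩ : ∃ c : ℂ, c = ⟨w.1, w.2⟩ := ⟨_, rfl⟩
    have hc0 : c ≠ 0 := by
      intro h
      apply hw
      rw [hc] at h
      have h3 := congrArg Complex.re h
      have h4 := congrArg Complex.im h
      simp only [Complex.zero_re, Complex.zero_im] at h3 h4
      exact Prod.ext h3 h4
    refine ⟨‖c‖, Complex.arg c, norm_pos_iff.2 hc0, ?_, ?_⟩
    · rw [Complex.norm_mul_cos_arg, hc]
    · rw [Complex.norm_mul_sin_arg, hc]
  have hsq : Pool.Agent.H709R2.sq w = r ^ 2 := by
    unfold Pool.Agent.H709R2.sq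
    rw [h1, h2]
    nlinarith [sin_sq_add_cos_sq ψ]
  rw [hsq, Real.sqrt_sq hr.le]
  obtain ⟨A, hA⟩ : ∃ A : ℝ, A = a * cos ψ + b * sin ψ := ⟨_, rfl⟩
  obtain ⟨B, hB⟩ : ∃ B : ℝ, B = b * cos ψ - a * sin ψ := ⟨_, rfl⟩
  obtain ⟨k, hk⟩ : ∃ k : ℝ → ℝ, k = fun θ => (1 / π) * (ν / (ν ^ 2 + (r * sin θ) ^ 2)) := ⟨_, rfl⟩
  obtain ⟨g, hg⟩ : ∃ g : ℝ → ℝ, g = fun θ => k θ * |cos θ * A + sin θ * B| := ⟨_, rfl⟩
  have hk0 : ∀ θ, 0 ≤ k θ := by
    intro θ
    rw [hk]
    positivity
  have hkc : Continuous k := by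
    rw [hk]
    refine continuous_const.mul (continuous_const.div (by fun_prop) fun θ => ?_)
    positivity
  have hgc : Continuous g := by
    rw [hg]
    fun_prop
  have e1 : ∀ φ, (1 / π) * (ν / (ν ^ 2 + (sin φ * w.1 - cos φ * w.2) ^ 2)) *
      |cos φ * a + sin φ * b| = g (φ - ψ) := by
    intro φ
    rw [hg, hk]
    simp only
    have e2 : sin φ * w.1 - cos φ * w.2 = r * sin (φ - ψ) := by
      rw [sin_sub, h1, h2]
      ring
    have e3 : cos φ * a + sin φ * b = cos (φ - ψ) * A + sin (φ - ψ) * B := by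
      have h3 : φ = (φ - ψ) + ψ := by ring
      have e4 : cos φ = cos (φ - ψ) * cos ψ - sin (φ - ψ) * sin ψ := by
        rw [← cos_add]
        congr 1
      have e5 : sin φ = sin (φ - ψ) * cos ψ + cos (φ - ψ) * sin ψ := by
        rw [← sin_add]
        congr 1
      rw [e4, e5, hA, hB]
      ring
    rw [e2, e3]
  simp only [e1]
  rw [intervalIntegral.integral_comp_sub_right (fun θ => g θ) ψ]
  have hper : Function.Periodic g π := by
    intro θ
    rw [hg, hk]
    simp only [sin_add_pi, cos_add_pi]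
    rw [show -cos θ * A + -sin θ * B = -(cos θ * A + sin θ * B) by ring, abs_neg]
    congr 4
    ring
  have e6 : ∫ θ in (0 - ψ)..(π - ψ), g θ = ∫ θ in (-(π / 2))..(π / 2), g θ := by
    have h3 := hper.intervalIntegral_add_eq (0 - ψ) (-(π / 2))
    have h4 : 0 - ψ + π = π - ψ := by ring
    have h5 : -(π / 2) + π = π / 2 := by ring
    rw [h4, h5] at h3
    exact h3
  rw [e6]
  -- the two integrals
  have i1 : ∫ θ in (-(π / 2))..(π / 2), k θ * cos θ = 2 / (π * r) * arctan (r / ν) := by
    have hd : ∀ θ, HasDerivAt (fun θ => 1 / (π * r) * arctan (r * sin θ / ν)) (k θ * cos θ) θ := by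
      intro θ
      have h3 : HasDerivAt (fun θ => r * sin θ / ν) (r * cos θ / ν) θ :=
        ((hasDerivAt_sin θ).const_mul r).div_const ν
      have h4 := ((hasDerivAt_arctan (r * sin θ / ν)).comp θ h3).const_mul (1 / (π * r))
      refine h4.congr_deriv ?_
      rw [hk]
      have h5 : 0 < ν ^ 2 + (r * sin θ) ^ 2 := by positivity
      field_simp
    rw [intervalIntegral.integral_eq_sub_of_hasDerivAt (fun θ _ => hd θ)
      ((hkc.mul continuous_cos).intervalIntegrable _ _)]
    rw [sin_pi_div_two, sin_neg, sin_pi_div_two, mul_one, mul_neg, mul_one, neg_div, arctan_neg]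
    ring
  have i2 : ∫ θ in (-(π / 2))..(π / 2), k θ * sin θ = 0 := by
    have h3 : ∫ θ in (-(π / 2))..(π / 2), k θ * sin θ =
        ∫ θ in (-(π / 2))..(π / 2), k (-θ) * sin (-θ) := by
      rw [intervalIntegral.integral_comp_neg (fun θ => k θ * sin θ), neg_neg]
    have h4 : ∀ θ, k (-θ) * sin (-θ) = -(k θ * sin θ) := by
      intro θ
      rw [hk]
      simp only [sin_neg]
      rw [show (r * -sin θ) ^ 2 = (r * sin θ) ^ 2 by ring]
      ring
    simp only [h4] at h3
    rw [intervalIntegral.integral_neg] at h3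
    linarith
  have key : ∀ s : ℝ, |s| = 1 → s * A * (2 / (π * r) * arctan (r / ν)) ≤
      ∫ θ in (-(π / 2))..(π / 2), g θ := by
    intro s hs
    have h3 : ∫ θ in (-(π / 2))..(π / 2), (s * A * (k θ * cos θ) + s * B * (k θ * sin θ)) =
        s * A * (2 / (π * r) * arctan (r / ν)) := by
      have c1 : Continuous fun θ => s * A * (k θ * cos θ) := by fun_prop
      have c2 : Continuous fun θ => s * B * (k θ * sin θ) := by fun_prop
      rw [intervalIntegral.integral_add (c1.intervalIntegrable _ _) (c2.intervalIntegrable _ _),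
        intervalIntegral.integral_const_mul, intervalIntegral.integral_const_mul, i1, i2]
      ring
    rw [← h3]
    refine intervalIntegral.integral_mono_on (by linarith) ?_ (hgc.intervalIntegrable _ _)
      fun θ _ => ?_
    · exact ((continuous_const.mul (hkc.mul continuous_cos)).add
        (continuous_const.mul (hkc.mul continuous_sin))).intervalIntegrable _ _
    · rw [hg]
      simp only
      have h4 : s * A * (k θ * cos θ) + s * B * (k θ * sin θ) =
          k θ * (s * (cos θ * A + sin θ * B)) := by ring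
      rw [h4]
      refine mul_le_mul_of_nonneg_left ?_ (hk0 θ)
      refine (le_abs_self _).trans ?_
      rw [abs_mul, hs, one_mul]
  have h7 : |a * w.1 + b * w.2| = r * |A| := by
    rw [h1, h2, hA, show a * (r * cos ψ) + b * (r * sin ψ) = r * (a * cos ψ + b * sin ψ) by ring,
      abs_mul, abs_of_pos hr]
  have h8 : 2 / (π * r ^ 2) * arctan (r / ν) * (r * |A|) =
      |A| * (2 / (π * r) * arctan (r / ν)) := by
    field_simp
  rw [h7, h8]
  rcases le_total 0 A with h | h
  · have := key 1 (by simp)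
    rw [abs_of_nonneg h]
    linarith
  · have := key (-1) (by simp)
    rw [abs_of_nonpos h]
    linarith

lemma A0_eq (p z : ℝ × ℝ) : A0 (field P Q) p z =
    ev (NX P Q) z * (z - p).1 + ev (NY P Q) z * (z - p).2 := by
  unfold A0
  have h1 : fderiv ℝ (field P Q) z (z - p) =
      (z - p).1 • fderiv ℝ (field P Q) z (1, 0) + (z - p).2 • fderiv ℝ (field P Q) z (0, 1) := by
    have h2 : z - p = (z - p).1 • ((1:ℝ), (0:ℝ)) + (z - p).2 • ((0:ℝ), (1:ℝ)) := by
      ext <;> simp
    conv_lhs => rw [h2]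
    rw [map_add, map_smul, map_smul]
  rw [h1, ev_NX, ev_NY]
  unfold wedge
  simp only [Prod.fst_add, Prod.snd_add, Prod.smul_fst, Prod.smul_snd, smul_eq_mul]
  ring

/-- the variation of the angle along the rays from the centres `p i` -/
theorem polar_sum {ι : Type*} [Fintype ι] {m : ℕ} (hP : P.totalDegree ≤ m) (hQ : Q.totalDegree ≤ m)
    {E : ι → Set (ℝ × ℝ)} {L : ι → ℝ} (hE : ∀ i, Bd P Q (E i) (L i))
    (hd : ∀ i j, i ≠ j → Disjoint (E i) (E j)) (p : ι → ℝ × ℝ) :
    ∑ i, ∫⁻ z in E i, ENNReal.ofReal (kern (field P Q) (p i) z) ≤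
      ENNReal.ofReal (π / 2 * (∑ i, L i + 6 * π * m ^ 2)) := by
  have hπ := pi_pos
  have cX := ev_continuous (NX P Q)
  have cY := ev_continuous (NY P Q)
  have csq : Continuous Pool.Agent.H709R2.sq := Pool.Agent.H709R2.continuous_sq
  refine fatou_sum (fun i => (hE i).cpt.measurableSet)
    (fun j i z => ENNReal.ofReal (2 / (π * Pool.Agent.H709R2.sq (z - p i)) *
      arctan (√(Pool.Agent.H709R2.sq (z - p i)) / (1 / ((j : ℝ) + 1))) *
      (|ev (NX P Q) z * (z - p i).1 + ev (NY P Q) z * (z - p i).2| /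
        sd P Q (1 / ((j : ℝ) + 1)) z))) ?_ _ ?_ ?_
  · intro j i
    have a1 := cX.measurable
    have a2 := cY.measurable
    have a3 := (sd_contDiff P Q (δ := 1 / ((j : ℝ) + 1)) (m := 0)).continuous.measurable
    have a4 := csq.measurable
    have a5 : Measurable arctan := continuous_arctan.measurable
    fun_prop
  · intro i z
    by_cases hw : z - p i = 0
    · have h1 : Pool.Agent.H709R2.sq (z - p i) = 0 := by
        rw [hw]
        simp [Pool.Agent.H709R2.sq]
      unfold kern
      simp only [h1, mul_zero, div_zero, zero_mul]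
      exact tendsto_const_nhds
    · refine ENNReal.tendsto_ofReal ?_
      have hr := Pool.Agent.H709R2.sq_pos hw
      have e1 : kern (field P Q) (p i) z = 2 / (π * Pool.Agent.H709R2.sq (z - p i)) * (π / 2) *
          (|ev (NX P Q) z * (z - p i).1 + ev (NY P Q) z * (z - p i).2| / ev (SQ P Q) z) := by
        unfold kern
        rw [A0_eq, ev_SQ]
        by_cases hs : Pool.Agent.H709R2.sq (field P Q z) = 0
        · rw [hs]
          simp
        · field_simp
      rw [e1]
      refine Tendsto.mul (Tendsto.mul tendsto_const_nhds ?_) ?_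
      · have h2 : Tendsto (fun j : ℕ => √(Pool.Agent.H709R2.sq (z - p i)) / (1 / ((j : ℝ) + 1)))
            atTop atTop := by
          have h3 : (fun j : ℕ => √(Pool.Agent.H709R2.sq (z - p i)) / (1 / ((j : ℝ) + 1))) =
              fun j : ℕ => √(Pool.Agent.H709R2.sq (z - p i)) * ((j : ℝ) + 1) := by
            funext j
            rw [div_div_eq_mul_div, div_one]
          rw [h3]
          exact Tendsto.const_mul_atTop (Real.sqrt_pos.2 hr)
            (tendsto_atTop_add_const_right _ _ tendsto_natCast_atTop_atTop)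
        have h4 := tendsto_arctan_atTop.mono_right (nhdsWithin_le_nhds)
        exact h4.comp h2
      · have h5 := tendsto_quot (P := P) (Q := Q)
          (MvPolynomial.C (z - p i).1 * NX P Q + MvPolynomial.C (z - p i).2 * NY P Q) z
          (fun h => by simp [(N_zero h).1, (N_zero h).2])
        simp only [ev_add, ev_mul, ev_C] at h5
        rw [mul_comm (ev (NX P Q) z), mul_comm (ev (NY P Q) z)]
        exact h5
  · intro j
    obtain ⟨ν, hν'⟩ : ∃ ν : ℝ, ν = 1 / ((j : ℝ) + 1) := ⟨_, rfl⟩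
    have hν : 0 < ν := by rw [hν']; positivity
    rw [← hν']
    have cs : Continuous (sd P Q ν) := (sd_contDiff P Q (m := 0)).continuous
    have hs : ∀ z, 0 < sd P Q ν z := fun z => sd_pos P Q hν z
    -- the integrand
    obtain ⟨f, hf⟩ : ∃ f : ι → ℝ → ℝ × ℝ → ℝ, f = fun i φ z =>
      (1 / π) * (ν / (ν ^ 2 + (sin φ * z.1 + -cos φ * z.2 -
        (sin φ * (p i).1 + -cos φ * (p i).2)) ^ 2)) *
        (|ev (MvPolynomial.C (cos φ) * NX P Q + MvPolynomial.C (sin φ) * NY P Q) z| /
          sd P Q ν z) := ⟨_, rfl⟩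
    have hf0 : ∀ i φ z, 0 ≤ f i φ z := by
      intro i φ z
      rw [hf]
      have := hs z
      positivity
    have hfc : ∀ i, Continuous (fun q : ℝ × (ℝ × ℝ) => f i q.1 q.2) := by
      intro i
      rw [hf]
      simp only [ev_add, ev_mul, ev_C]
      refine (continuous_const.mul (continuous_const.div (by fun_prop) fun q => by positivity)).mul
        (Continuous.div ?_ (cs.comp continuous_snd) fun q => (hs _).ne')
      have := cX.comp (continuous_snd : Continuous (Prod.snd : ℝ × (ℝ × ℝ) → ℝ × ℝ))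
      have := cY.comp (continuous_snd : Continuous (Prod.snd : ℝ × (ℝ × ℝ) → ℝ × ℝ))
      simp only [Function.comp_def] at *
      fun_prop
    have hfz : ∀ i φ, Continuous (f i φ) := fun i φ =>
      (hfc i).comp (continuous_const.prodMk continuous_id)
    have hfφ : ∀ i z, Continuous (fun φ => f i φ z) := fun i z =>
      (hfc i).comp (continuous_id.prodMk continuous_const)
    -- one direction
    have h1 : ∀ φ, ∑ i, ∫⁻ z in E i, ENNReal.ofReal (f i φ z) ≤
        ENNReal.ofReal (1 / 2 * (∑ i, L i + 6 * π * m ^ 2)) := by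
      intro φ
      have h2 := core_sum hP hQ hE hd hν (sin φ, -cos φ)
        (fun i => sin φ * (p i).1 + -cos φ * (p i).2)
        (h := fun _ t => 1 / π * arctan (t / ν)) (h' := fun _ t => 1 / π * (ν / (ν ^ 2 + t ^ 2)))
        (fun i t => by
          have h3 : HasDerivAt (fun t : ℝ => t / ν) (1 / ν) t := (hasDerivAt_id t).div_const ν
          have h4 := ((hasDerivAt_arctan (t / ν)).comp t h3).const_mul (1 / π)
          refine h4.congr_deriv ?_
          have h5 : 0 < ν ^ 2 + t ^ 2 := by positivity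
          field_simp)
        (fun i => continuous_const.mul (continuous_const.div (by fun_prop) fun t => by positivity))
        (fun i t => by positivity) (M := fun _ => 1 / 2) (fun i => by norm_num)
        (fun i z _ => by
          rw [abs_mul, abs_of_pos (by positivity : 0 < 1 / π)]
          have h5 : |arctan ((((sin φ, -cos φ) : ℝ × ℝ).1 * z.1 + ((sin φ, -cos φ) : ℝ × ℝ).2 * z.2 -
              (sin φ * (p i).1 + -cos φ * (p i).2)) / ν)| ≤ π / 2 :=
            abs_le.2 ⟨(neg_pi_div_two_lt_arctan _).le, (arctan_lt_pi_div_two _).le⟩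
          calc 1 / π * |arctan ((((sin φ, -cos φ) : ℝ × ℝ).1 * z.1 +
                ((sin φ, -cos φ) : ℝ × ℝ).2 * z.2 - (sin φ * (p i).1 + -cos φ * (p i).2)) / ν)|
              ≤ 1 / π * (π / 2) := by gcongr
            _ = 1 / 2 := by field_simp)
        (MvPolynomial.C (cos φ) * NX P Q + MvPolynomial.C (sin φ) * NY P Q)
        (Pool.Agent.H709U.K4_add (deg_Cmul (deg_NX hP hQ) _) (deg_Cmul (deg_NY hP hQ) _))
        (fun z => by
          simp only [ev_add, ev_mul, ev_C]
          ring)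
      have h3 : ∀ i, ∫⁻ z in E i, ENNReal.ofReal (f i φ z) =
          ENNReal.ofReal (∫ z in E i, f i φ z) := fun i =>
        (ofReal_setIntegral (hE i).cpt (hfz i φ) (hf0 i φ)).symm
      simp only [h3]
      rw [← ENNReal.ofReal_sum_of_nonneg fun i _ => integral_nonneg (hf0 i φ)]
      apply ENNReal.ofReal_le_ofReal
      have h4 : ∑ i, (1 / 2 : ℝ)⁻¹ * ∫ z in E i, f i φ z ≤ ∑ i, L i + 6 * π * m ^ 2 := by
        rw [hf]
        exact h2
      rw [← Finset.mul_sum] at h4
      norm_num at h4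
      linarith
    -- pointwise
    have h2 : ∀ i z, ENNReal.ofReal (2 / (π * Pool.Agent.H709R2.sq (z - p i)) *
        arctan (√(Pool.Agent.H709R2.sq (z - p i)) / ν) *
        (|ev (NX P Q) z * (z - p i).1 + ev (NY P Q) z * (z - p i).2| / sd P Q ν z)) ≤
        ∫⁻ φ in Ioc 0 π, ENNReal.ofReal (f i φ z) := by
      intro i z
      by_cases hw : z - p i = 0
      · have h3 : Pool.Agent.H709R2.sq (z - p i) = 0 := by
          rw [hw]
          simp [Pool.Agent.H709R2.sq]
        rw [h3]
        simp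
      · have h3 := polar_lower (ev (NX P Q) z) (ev (NY P Q) z) hν hw
        have h4 : ∫⁻ φ in Ioc 0 π, ENNReal.ofReal (f i φ z) =
            ENNReal.ofReal (∫ φ in (0:ℝ)..π, f i φ z) := by
          rw [intervalIntegral.integral_of_le hπ.le, ofReal_integral_eq_lintegral_ofReal]
          · exact ((hfφ i z).intervalIntegrable 0 π).1
          · exact Eventually.of_forall fun φ => hf0 i φ z
        rw [h4]
        apply ENNReal.ofReal_le_ofReal
        have h5 : ∫ φ in (0:ℝ)..π, f i φ z = (∫ φ in (0:ℝ)..π, (1 / π) * (ν / (ν ^ 2 +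
            (sin φ * (z - p i).1 - cos φ * (z - p i).2) ^ 2)) *
            |cos φ * ev (NX P Q) z + sin φ * ev (NY P Q) z|) * (sd P Q ν z)⁻¹ := by
          rw [← intervalIntegral.integral_mul_const]
          congr 1
          funext φ
          rw [hf]
          simp only [ev_add, ev_mul, ev_C, Prod.fst_sub, Prod.snd_sub]
          rw [show sin φ * z.1 + -cos φ * z.2 - (sin φ * (p i).1 + -cos φ * (p i).2) =
            sin φ * (z.1 - (p i).1) - cos φ * (z.2 - (p i).2) by ring]
          ring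
        rw [h5]
        have h6 := mul_le_mul_of_nonneg_right h3 (inv_nonneg.2 (hs z).le)
        refine le_trans (le_of_eq ?_) h6
        ring
    calc ∑ i, ∫⁻ z in E i, ENNReal.ofReal (2 / (π * Pool.Agent.H709R2.sq (z - p i)) *
          arctan (√(Pool.Agent.H709R2.sq (z - p i)) / ν) *
          (|ev (NX P Q) z * (z - p i).1 + ev (NY P Q) z * (z - p i).2| / sd P Q ν z))
        ≤ ∑ i, ∫⁻ z in E i, ∫⁻ φ in Ioc 0 π, ENNReal.ofReal (f i φ z) :=
          Finset.sum_le_sum fun i _ => lintegral_mono fun z => h2 i z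
      _ = ∑ i, ∫⁻ φ in Ioc 0 π, ∫⁻ z in E i, ENNReal.ofReal (f i φ z) := by
          refine Finset.sum_congr rfl fun i _ => ?_
          rw [lintegral_lintegral_swap]
          have h3 : Measurable (fun q : (ℝ × ℝ) × ℝ => ENNReal.ofReal (f i q.2 q.1)) :=
            ((hfc i).measurable.comp measurable_swap).ennreal_ofReal
          exact h3.aemeasurable
      _ = ∫⁻ φ in Ioc 0 π, ∑ i, ∫⁻ z in E i, ENNReal.ofReal (f i φ z) := by
          rw [lintegral_finsetSum]
          intro i _
          have h3 : Measurable (fun q : ℝ × (ℝ × ℝ) => ENNReal.ofReal (f i q.1 q.2)) :=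
            (hfc i).measurable.ennreal_ofReal
          exact h3.lintegral_prod_right'
      _ ≤ ∫⁻ _ in Ioc 0 π, ENNReal.ofReal (1 / 2 * (∑ i, L i + 6 * π * m ^ 2)) :=
          lintegral_mono fun φ => h1 φ
      _ = ENNReal.ofReal (π / 2 * (∑ i, L i + 6 * π * m ^ 2)) := by
          rw [setLIntegral_const, Real.volume_Ioc, sub_zero, mul_comm,
            ← ENNReal.ofReal_mul hπ.le]
          congr 1
          ring

end

end Run7.h202
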