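import Mathlib

/-! A one-dimensional change of variables along record times. -/

open Real Set MeasureTheory Topology Filter
open scoped ENNReal NNReal

namespace Run7.h202

noncomputable section

/-- record times of `x` on `[a, b]` -/
def recd (x : ℝ → ℝ) (a b : ℝ) : Set ℝ := {t | t ∈ Icc a b ∧ ∀ s, a ≤ s → s < t → x s < x t}

lemma measurableSet_recd {x : ℝ → ℝ} (hx : Continuous x) (a b : ℝ) :
    MeasurableSet (recd x a b) := by
  have h1 : recd x a b = Icc a b ∩ ⋂ q : ℚ,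
      {t | a ≤ (q : ℝ) → (q : ℝ) < t → sSup (x '' Icc a q) < x t} := by
    ext t
    simp only [recd, mem_ofPred_eq, mem_inter_iff, mem_iInter]
    refine and_congr_right fun ht => ⟨fun h q hq hqt => ?_, fun h s hs hst => ?_⟩
    · obtain ⟨s, hs, hs2⟩ := (isCompact_Icc (a := a) (b := (q : ℝ))).exists_sSup_image_eq
        (nonempty_Icc.2 hq) hx.continuousOn
      rw [hs2]
      exact h s hs.1 (lt_of_le_of_lt hs.2 hqt)
    · obtain ⟨q, hq1, hq2⟩ := exists_rat_btwn hst
      have h2 := h q (hs.trans hq1.le) hq2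
      refine lt_of_le_of_lt ?_ h2
      exact le_csSup ((isCompact_Icc.image hx).bddAbove) ⟨s, ⟨hs, hq1.le⟩, rfl⟩
  rw [h1]
  refine measurableSet_Icc.inter (MeasurableSet.iInter fun q => ?_)
  have h2 : {t : ℝ | a ≤ (q : ℝ) → (q : ℝ) < t → sSup (x '' Icc a q) < x t} =
      (if a ≤ (q : ℝ) then {t | (q : ℝ) < t}ᶜ ∪ {t | sSup (x '' Icc a q) < x t} else univ) := by
    ext t
    split_ifs with h
    · simp only [h, forall_true_left, mem_ofPred_eq, mem_union, mem_compl_iff]
      tauto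
    · simp [h]
  rw [h2]
  split_ifs
  · refine (measurableSet_lt measurable_const measurable_id).compl.union ?_
    exact measurableSet_lt measurable_const hx.measurable
  · exact MeasurableSet.univ

lemma injOn_recd (x : ℝ → ℝ) (a b : ℝ) : InjOn x (recd x a b) := by
  intro s hs t ht hst
  by_contra hne
  rcases lt_or_gt_of_ne hne with h | h
  · exact absurd hst (ht.2 s hs.1.1 h).ne
  · exact absurd hst (hs.2 t ht.1.1 h).ne'

lemma exists_recd {x : ℝ → ℝ} (hx : Continuous x) {a b : ℝ} (hab : a ≤ b) {c : ℝ}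
    (hc : c ∈ Ioo (x a) (x b)) : ∃ t ∈ recd x a b, x t = c := by
  set Z : Set ℝ := {t | t ∈ Icc a b ∧ c ≤ x t} with hZ
  have hZc : IsCompact Z := by
    have h1 : Z = Icc a b ∩ x ⁻¹' Ici c := rfl
    rw [h1]
    exact isCompact_Icc.inter_right (isClosed_Ici.preimage hx)
  obtain ⟨t, ht, hmin⟩ := hZc.exists_isLeast ⟨b, right_mem_Icc.2 hab, hc.2.le⟩
  have hlt : ∀ s, a ≤ s → s < t → x s < c := by
    intro s hs hst
    by_contra hcon
    exact absurd (hmin ⟨⟨hs, hst.le.trans ht.1.2⟩, not_lt.1 hcon⟩) (not_le.2 hst)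
  have hxt : x t = c := by
    obtain ⟨s, hs, hs2⟩ := intermediate_value_Icc ht.1.1 hx.continuousOn ⟨hc.1.le, ht.2⟩
    have h2 : t ≤ s := hmin ⟨⟨hs.1, hs.2.trans ht.1.2⟩, hs2.ge⟩
    rw [← hs2, le_antisymm h2 hs.2]
  refine ⟨t, ⟨ht.1, fun s hs hst => ?_⟩, hxt⟩
  rw [hxt]
  exact hlt s hs hst

/-- lower bound for the time spent, along record times -/
theorem lintegral_recd {x x' : ℝ → ℝ} {a b : ℝ} (hab : a ≤ b)
    (hx : ∀ t, HasDerivAt x (x' t) t) {σ D : ℝ → ℝ≥0∞} {N : Set ℝ} (hNm : MeasurableSet N)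
    (hN : volume N = 0)
    (hb : ∀ t ∈ Icc a b, x t ∉ N → ENNReal.ofReal |x' t| ≤ σ t * D (x t)) :
    ∫⁻ c in Ioo (x a) (x b), (D c)⁻¹ ≤ ∫⁻ t in Icc a b, σ t := by
  have hxc : Continuous x := continuous_iff_continuousAt.2 fun t => (hx t).continuousAt
  set S : Set ℝ := recd x a b ∩ x ⁻¹' Nᶜ with hS
  have hSm : MeasurableSet S := (measurableSet_recd hxc a b).inter (hxc.measurable hNm.compl)
  have h1 := lintegral_image_eq_lintegral_abs_det_fderiv_mul volume hSm
    (f := x) (f' := fun t => ContinuousLinearMap.toSpanSingleton ℝ (x' t))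
    (fun t _ => (hx t).hasFDerivAt.hasFDerivWithinAt)
    ((injOn_recd x a b).mono inter_subset_left) (fun c => (D c)⁻¹)
  have h2 : ∫⁻ c in Ioo (x a) (x b), (D c)⁻¹ ≤ ∫⁻ c in x '' S, (D c)⁻¹ := by
    have h3 : Ioo (x a) (x b) ⊆ x '' S ∪ N := by
      intro c hc
      by_cases hcN : c ∈ N
      · exact Or.inr hcN
      · obtain ⟨t, ht, hxt⟩ := exists_recd hxc hab hc
        refine Or.inl ⟨t, ⟨ht, ?_⟩, hxt⟩
        rw [mem_preimage, hxt]
        exact hcN
    calc ∫⁻ c in Ioo (x a) (x b), (D c)⁻¹ ≤ ∫⁻ c in x '' S ∪ N, (D c)⁻¹ :=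
          lintegral_mono_set h3
      _ ≤ (∫⁻ c in x '' S, (D c)⁻¹) + ∫⁻ c in N, (D c)⁻¹ := lintegral_union_le _ _ _
      _ = ∫⁻ c in x '' S, (D c)⁻¹ := by
          rw [setLIntegral_measure_zero N _ hN, add_zero]
  refine h2.trans ?_
  rw [h1]
  calc ∫⁻ t in S, ENNReal.ofReal |(ContinuousLinearMap.toSpanSingleton ℝ (x' t)).det| * (D (x t))⁻¹
      ≤ ∫⁻ t in S, σ t := by
        refine setLIntegral_mono' hSm fun t ht => ?_
        have h4 : (ContinuousLinearMap.toSpanSingleton ℝ (x' t)).det = x' t := by simp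
        rw [h4, ← div_eq_mul_inv]
        exact ENNReal.div_le_of_le_mul (hb t ht.1.1 ht.2)
    _ ≤ ∫⁻ t in Icc a b, σ t := lintegral_mono_set fun t ht => ht.1.1

/-- a periodic differentiable function crosses each of its values in both directions -/
lemma exists_opposite {x x' : ℝ → ℝ} {T : ℝ} (hT : 0 < T) (hx : ∀ t, HasDerivAt x (x' t) t)
    (hper : ∀ t, x (t + T) = x t) (t : ℝ) : ∃ s, x s = x t ∧ x' t * x' s ≤ 0 := by
  have hxc : Continuous x := continuous_iff_continuousAt.2 fun t => (hx t).continuousAt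
  by_contra hcon
  push Not at hcon
  -- every crossing has the same strict direction as the one at `t`
  have ht0 : x' t ≠ 0 := by
    have := hcon t rfl
    intro h
    rw [h] at this
    simp at this
  -- sign normalisation
  obtain ⟨y, y', hy, hyper, hyt, hyall⟩ : ∃ y y' : ℝ → ℝ, (∀ t, HasDerivAt y (y' t) t) ∧
      (∀ t, y (t + T) = y t) ∧ y t = 0 ∧ ∀ s, y s = 0 → 0 < y' s := by
    refine ⟨fun s => x' t * (x s - x t), fun s => x' t * x' s, fun s => ?_, fun s => ?_, ?_, ?_⟩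
    · exact ((hx s).sub_const (x t)).const_mul (x' t)
    · simp only [hper]
    · simp
    · intro s hs
      have h1 : x s = x t := by
        have := (mul_eq_zero.1 hs).resolve_left ht0
        linarith
      exact hcon s h1
  have hyc : Continuous y := continuous_iff_continuousAt.2 fun t => (hy t).continuousAt
  -- just after `t` the function is positive
  have hpos : ∃ u, t < u ∧ u < t + T ∧ 0 < y u := by
    have h1 := (hy t).eventually_ne (c := 0) (hyall t hyt).ne'
    have h2 := hasDerivAt_iff_tendsto_slope.1 (hy t)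
    have h3 : ∀ᶠ u in 𝓝[≠] t, 0 < slope y t u := h2.eventually (lt_mem_nhds (hyall t hyt))
    have h4 : ∀ᶠ u in 𝓝[>] t, 0 < slope y t u :=
      h3.filter_mono (nhdsWithin_mono _ fun u hu => ne_of_gt hu)
    have h5 : ∀ᶠ u in 𝓝[>] t, u < t + T :=
      nhdsWithin_le_nhds (gt_mem_nhds (by linarith))
    have h6 : ∀ᶠ u in 𝓝[>] t, t < u := self_mem_nhdsWithin
    obtain ⟨u, hu1, hu2, hu3⟩ := (h4.and (h5.and h6)).exists
    refine ⟨u, hu3, hu2, ?_⟩
    rw [slope_def_field, hyt, sub_zero] at hu1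
    exact (div_pos_iff_of_pos_right (by linarith)).1 hu1
  obtain ⟨u, hu1, hu2, hu3⟩ := hpos
  -- first zero after `u`
  set Z : Set ℝ := {s | s ∈ Icc u (t + T) ∧ y s ≤ 0} with hZ
  have hZc : IsCompact Z := by
    have h1 : Z = Icc u (t + T) ∩ y ⁻¹' Iic 0 := rfl
    rw [h1]
    exact isCompact_Icc.inter_right (isClosed_Iic.preimage hyc)
  obtain ⟨s, hs, hmin⟩ := hZc.exists_isLeast ⟨t + T, right_mem_Icc.2 hu2.le, by
    rw [hyper, hyt]⟩
  have hlt : ∀ r, u ≤ r → r < s → 0 < y r := by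
    intro r hr hrs
    by_contra hc
    exact absurd (hmin ⟨⟨hr, hrs.le.trans hs.1.2⟩, not_lt.1 hc⟩) (not_le.2 hrs)
  have hus : u < s := by
    rcases eq_or_lt_of_le hs.1.1 with h | h
    · rw [← h] at hs
      exact absurd hs.2 (not_le.2 hu3)
    · exact h
  have hys : y s = 0 := by
    refine le_antisymm hs.2 ?_
    have h1 : Tendsto y (𝓝[<] s) (𝓝 (y s)) := (hyc.continuousAt).tendsto.mono_left nhdsWithin_le_nhds
    refine ge_of_tendsto h1 ?_
    filter_upwards [Ioo_mem_nhdsLT hus] with r hr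
    exact (hlt r hr.1.le hr.2).le
  have h1 := hyall s hys
  have h2 := hasDerivAt_iff_tendsto_slope.1 (hy s)
  have h3 : ∀ᶠ r in 𝓝[≠] s, 0 < slope y s r := h2.eventually (lt_mem_nhds h1)
  have h4 : ∀ᶠ r in 𝓝[<] s, 0 < slope y s r :=
    h3.filter_mono (nhdsWithin_mono _ fun u hu => ne_of_lt hu)
  obtain ⟨r, hr1, hr2⟩ := (h4.and (Ioo_mem_nhdsLT hus)).exists
  rw [slope_def_field, hys, sub_zero] at hr1
  have h5 := hlt r hr2.1.le hr2.2
  have h6 : y r / (r - s) < 0 := div_neg_of_pos_of_neg h5 (by linarith [hr2.2])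
  linarith

end

end Run7.h202
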