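import Pool.Agent.Run7.h202.Trans
import Pool.Agent.Run7.h202.OneDim
import Pool.Agent.H709U.MB

/-! The local lower bound: a closed orbit forces the argument to vary in every direction. -/

open Real Set MeasureTheory Topology Filter
open scoped ENNReal NNReal

namespace Run7.h202

noncomputable section

open Pool.Agent
open Pool.Agent.H709R2 (rot wedge field contDiff_field)

/-- scalar product -/
def dotp (a b : ℝ × ℝ) : ℝ := a.1 * b.1 + a.2 * b.2

lemma abs_wedge_le (a b : ℝ × ℝ) : |wedge a b| ≤ √(H709R2.sq a) * √(H709R2.sq b) := by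
  rw [← Real.sqrt_mul (by unfold H709R2.sq; positivity)]
  apply Real.abs_le_sqrt
  unfold wedge H709R2.sq
  nlinarith [sq_nonneg (a.1 * b.1 + a.2 * b.2)]

/-- derivative of the cosine of the angle with a fixed vector -/
lemma hasDerivAt_cos {G : ℝ → ℝ × ℝ} {g : ℝ × ℝ} {s : ℝ} (hG : HasDerivAt G g s) (hne : G s ≠ 0)
    (p : ℝ × ℝ) : HasDerivAt (fun s => dotp p (G s) / √(H709R2.sq (G s)))
      (wedge (G s) p * wedge (G s) g / (√(H709R2.sq (G s)) * H709R2.sq (G s))) s := by
  have hs : 0 < H709R2.sq (G s) := H709R2.sq_pos hne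
  have hs2 : 0 < √(H709R2.sq (G s)) := Real.sqrt_pos.2 hs
  have h1 : HasDerivAt (fun s => (G s).1) g.1 s :=
    (ContinuousLinearMap.fst ℝ ℝ ℝ).hasFDerivAt.comp_hasDerivAt s hG
  have h2 : HasDerivAt (fun s => (G s).2) g.2 s :=
    (ContinuousLinearMap.snd ℝ ℝ ℝ).hasFDerivAt.comp_hasDerivAt s hG
  have h3 : HasDerivAt (fun s => dotp p (G s)) (dotp p g) s := by
    unfold dotp
    exact (h1.const_mul p.1).add (h2.const_mul p.2)
  have h4 : HasDerivAt (fun s => H709R2.sq (G s)) (2 * dotp (G s) g) s := by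
    have h5 := (h1.pow 2).add (h2.pow 2)
    refine h5.congr_deriv ?_
    unfold dotp
    simp
    ring
  have h5 := h4.sqrt hs.ne'
  have h6 := h3.div h5 hs2.ne'
  refine h6.congr_deriv ?_
  have h7 : √(H709R2.sq (G s)) ^ 2 = H709R2.sq (G s) := Real.sq_sqrt hs.le
  have key : wedge (G s) p * wedge (G s) g =
      dotp p g * H709R2.sq (G s) - dotp p (G s) * dotp (G s) g := by
    unfold wedge dotp H709R2.sq
    ring
  rw [key]
  field_simp
  rw [h7]
  ring

/-- variation of the argument along a segment on which the component changes sign -/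
lemma line_bound {G G' : ℝ → ℝ × ℝ} (hG : ∀ s, HasDerivAt G (G' s) s) (hG' : Continuous G')
    {p : ℝ × ℝ} (hp : H709R2.sq p = 1) {a b : ℝ} (hne : ∀ s ∈ uIcc a b, G s ≠ 0)
    (hsign : dotp p (G a) * dotp p (G b) ≤ 0) :
    ENNReal.ofReal |dotp p (G a)| ≤ ENNReal.ofReal (√(H709R2.sq (G a))) *
      ∫⁻ s in uIcc a b, ENNReal.ofReal (|wedge (G s) (G' s)| / H709R2.sq (G s)) := by
  have hGc : Continuous G := continuous_iff_continuousAt.2 fun s => (hG s).continuousAt
  have hsq : Continuous fun s => H709R2.sq (G s) := H709R2.continuous_sq.comp hGc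
  have hpos : ∀ s ∈ uIcc a b, 0 < H709R2.sq (G s) := fun s hs => H709R2.sq_pos (hne s hs)
  set f : ℝ → ℝ := fun s => dotp p (G s) / √(H709R2.sq (G s)) with hf
  set f' : ℝ → ℝ := fun s => wedge (G s) p * wedge (G s) (G' s) /
    (√(H709R2.sq (G s)) * H709R2.sq (G s)) with hf'
  have hder : ∀ s ∈ uIcc a b, HasDerivAt f (f' s) s := fun s hs => hasDerivAt_cos (hG s) (hne s hs) p
  have hfc : ContinuousOn f (uIcc a b) := fun s hs => (hder s hs).continuousAt.continuousWithinAt
  have hf'c : ContinuousOn f' (uIcc a b) := by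
    have h1 : Continuous fun s => wedge (G s) p * wedge (G s) (G' s) := by
      unfold wedge
      fun_prop
    refine h1.continuousOn.div ((hsq.sqrt.mul hsq).continuousOn) ?_
    intro s hs
    have h2 := hpos s hs
    have h3 := Real.sqrt_pos.2 h2
    positivity
  have hf'b : ∀ s ∈ uIcc a b, |f' s| ≤ |wedge (G s) (G' s)| / H709R2.sq (G s) := by
    intro s hs
    have h2 := hpos s hs
    have h3 := Real.sqrt_pos.2 h2
    simp only [hf']
    rw [abs_div, abs_mul, abs_of_pos (show 0 < √(H709R2.sq (G s)) * H709R2.sq (G s) by positivity)]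
    have h4 := abs_wedge_le (G s) p
    rw [hp, Real.sqrt_one, mul_one] at h4
    rw [div_le_div_iff₀ (by positivity) h2]
    have h5 : 0 ≤ |wedge (G s) (G' s)| := abs_nonneg _
    nlinarith [mul_le_mul_of_nonneg_right h4 (mul_nonneg h5 h2.le)]
  have hapos := hpos a left_mem_uIcc
  have hbpos := hpos b right_mem_uIcc
  have hasq := Real.sqrt_pos.2 hapos
  have hbsq := Real.sqrt_pos.2 hbpos
  -- a zero of `f`
  obtain ⟨r, hr, hfr⟩ : ∃ r ∈ uIcc a b, f r = 0 := by
    have h1 : (0 : ℝ) ∈ uIcc (f a) (f b) := by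
      rw [mem_uIcc]
      have h2 : f a * f b ≤ 0 := by
        simp only [hf]
        rw [div_mul_div_comm]
        exact div_nonpos_of_nonpos_of_nonneg hsign (by positivity)
      rcases le_total (f a) 0 with h3 | h3
      · rcases le_total 0 (f b) with h4 | h4
        · exact Or.inl ⟨h3, h4⟩
        · have h5 : f a * f b = 0 := le_antisymm h2 (mul_nonneg_of_nonpos_of_nonpos h3 h4)
          rcases mul_eq_zero.1 h5 with h6 | h6
          · right; exact ⟨h4, h6.ge⟩
          · left; exact ⟨h3, h6.ge⟩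
      · rcases le_total 0 (f b) with h4 | h4
        · have h5 : f a * f b = 0 := le_antisymm h2 (mul_nonneg h3 h4)
          rcases mul_eq_zero.1 h5 with h6 | h6
          · left; exact ⟨h6.le, h4⟩
          · right; exact ⟨h6.le, h3⟩
        · exact Or.inr ⟨h4, h3⟩
    obtain ⟨r, hr, hfr⟩ := intermediate_value_uIcc hfc h1
    exact ⟨r, hr, hfr⟩
  have hsub : uIcc a r ⊆ uIcc a b := uIcc_subset_uIcc_left hr
  have hint : IntervalIntegrable f' volume a r := (hf'c.mono hsub).intervalIntegrable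
  have hftc := intervalIntegral.integral_eq_sub_of_hasDerivAt (fun s hs => hder s (hsub hs)) hint
  rw [hfr, zero_sub] at hftc
  have h1 : ENNReal.ofReal |f a| ≤ ∫⁻ s in uIcc a b,
      ENNReal.ofReal (|wedge (G s) (G' s)| / H709R2.sq (G s)) := by
    calc ENNReal.ofReal |f a| = ‖∫ s in a..r, f' s‖ₑ := by
          rw [hftc, enorm_neg, Real.enorm_eq_ofReal_abs]
      _ = ‖∫ s in uIoc a r, f' s‖ₑ := by
          rw [← ofReal_norm, ← ofReal_norm, intervalIntegral.norm_integral_eq_norm_integral_uIoc]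
      _ ≤ ∫⁻ s in uIoc a r, ‖f' s‖ₑ := enorm_integral_le_lintegral_enorm _
      _ ≤ ∫⁻ s in uIcc a b, ‖f' s‖ₑ := lintegral_mono_set (uIoc_subset_uIcc.trans hsub)
      _ ≤ _ := by
          refine setLIntegral_mono' measurableSet_uIcc fun s hs => ?_
          rw [Real.enorm_eq_ofReal_abs]
          exact ENNReal.ofReal_le_ofReal (hf'b s hs)
  have h2 : |dotp p (G a)| = √(H709R2.sq (G a)) * |f a| := by
    simp only [hf]
    rw [abs_div, abs_of_pos hasq]
    field_simp
  rw [h2, ENNReal.ofReal_mul hasq.le]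
  gcongr

lemma rot_rot_neg (β : ℝ) (z : ℝ × ℝ) : rot β (rot (-β) z) = z := by
  unfold rot
  have h := Real.sin_sq_add_cos_sq β
  ext
  · simp only [Real.cos_neg, Real.sin_neg]
    linear_combination z.1 * h
  · simp only [Real.cos_neg, Real.sin_neg]
    linear_combination z.2 * h

lemma rot_neg_rot (β : ℝ) (z : ℝ × ℝ) : rot (-β) (rot β z) = z := by
  have := rot_rot_neg (-β) z
  rwa [neg_neg] at this

/-- the weighted inequality between arithmetic and geometric mean -/
lemma two_le_mul_add {l : ℝ} (hl : 0 < l) (a : ℝ≥0∞) :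
    2 ≤ ENNReal.ofReal l * a + ENNReal.ofReal l⁻¹ * a⁻¹ := by
  have hl' : 0 < l⁻¹ := inv_pos.2 hl
  rcases eq_or_ne a 0 with rfl | h0
  · rw [ENNReal.inv_zero, ENNReal.mul_top (by simpa using hl'.not_ge)]
    simp
  rcases eq_or_ne a ⊤ with rfl | h1
  · rw [ENNReal.mul_top (by simpa using hl.not_ge)]
    simp
  lift a to ℝ≥0 using h1
  have h2 : 0 < (a : ℝ) := by
    have : a ≠ 0 := by simpa using h0
    positivity
  rw [← ENNReal.ofReal_coe_nnreal, ← ENNReal.ofReal_inv_of_pos h2, ← ENNReal.ofReal_mul hl.le,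
    ← ENNReal.ofReal_mul hl'.le, ← ENNReal.ofReal_add (by positivity) (by positivity)]
  rw [show (2 : ℝ≥0∞) = ENNReal.ofReal 2 by simp]
  apply ENNReal.ofReal_le_ofReal
  have h3 : l⁻¹ * (a : ℝ)⁻¹ = (l * a)⁻¹ := by rw [mul_inv]
  rw [h3]
  have h4 : 0 < l * a := by positivity
  have h5 : l * a + (l * a)⁻¹ - 2 = (l * a - 1) ^ 2 / (l * a) := by
    field_simp
    ring
  have h6 : 0 ≤ (l * a - 1) ^ 2 / (l * a) := by positivity
  linarith

/-- variation of the argument of `F` on the part in `Ω` of a line -/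
def vari (F : ℝ × ℝ → ℝ × ℝ) (Ω : Set (ℝ × ℝ)) (β c : ℝ) : ℝ≥0∞ :=
  ∫⁻ s : ℝ, Ω.indicator (fun z => ENNReal.ofReal |dth F (rot β (0, 1)) z|) (rot β (c, s))

lemma lintegral_vari {F : ℝ × ℝ → ℝ × ℝ} (hF : ContDiff ℝ 2 F) {Ω : Set (ℝ × ℝ)}
    (hΩ : MeasurableSet Ω) (β : ℝ) :
    ∫⁻ c, vari F Ω β c = ∫⁻ z in Ω, ENNReal.ofReal |dth F (rot β (0, 1)) z| := by
  rw [← lintegral_indicator hΩ]
  set k : ℝ × ℝ → ℝ≥0∞ := Ω.indicator (fun z => ENNReal.ofReal |dth F (rot β (0, 1)) z|) with hk
  have hkm : Measurable k := (measurable_dth hF _).abs.ennreal_ofReal.indicator hΩ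
  have h1 : Measurable fun z : ℝ × ℝ => k (rot β z) :=
    hkm.comp (H709R2.measurePreserving_rot β).measurable
  rw [← (H709R2.measurePreserving_rot β).lintegral_comp hkm, Measure.volume_eq_prod,
    lintegral_prod _ h1.aemeasurable]
  rfl

/-- **Local lower bound.** -/
theorem local_lower {F : ℝ × ℝ → ℝ × ℝ} (hF : ContDiff ℝ 2 F) {Z : Set (ℝ × ℝ)}
    (hZ : Z.Countable) (hZ0 : ∀ z, F z = 0 → z ∈ Z) {Ω : Set (ℝ × ℝ)} (hΩ : Convex ℝ Ω)
    (hΩm : MeasurableSet Ω) {α β : ℝ} {γ : ℝ → ℝ × ℝ} {T : ℝ}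
    (hγ : H709U.Orb (H709U.rf F α) γ T) (hin : ∀ t, γ t ∈ Ω) {W : ℝ} (hW : 0 < W)
    (hext : ∃ s t, W ≤ (rot (-β) (γ t)).1 - (rot (-β) (γ s)).1) :
    ENNReal.ofReal (2 * W ^ 2 / ∫ t in (0:ℝ)..T, √(H709R2.sq (F (γ t)))) ≤
      ∫⁻ z in Ω, ENNReal.ofReal |dth F (rot β (0, 1)) z| := by
  set p : ℝ × ℝ := (cos (β - α), sin (β - α)) with hp
  have hp1 : H709R2.sq p = 1 := by
    simp only [hp, H709R2.sq]
    exact Real.cos_sq_add_sin_sq _
  set x : ℝ → ℝ := fun t => (rot (-β) (γ t)).1 with hx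
  set y : ℝ → ℝ := fun t => (rot (-β) (γ t)).2 with hy
  have hγc : Continuous γ := continuous_iff_continuousAt.2 fun t => (hγ.ode t).continuousAt
  have hγxy : ∀ t, γ t = rot β (x t, y t) := by
    intro t
    have h1 : (x t, y t) = rot (-β) (γ t) := rfl
    rw [h1, rot_rot_neg]
  have hxd : ∀ t, HasDerivAt x (dotp p (F (γ t))) t := by
    intro t
    have h1 : HasDerivAt (fun s => (γ s).1) (rot α (F (γ t))).1 t :=
      (ContinuousLinearMap.fst ℝ ℝ ℝ).hasFDerivAt.comp_hasDerivAt t (hγ.ode t)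
    have h2 : HasDerivAt (fun s => (γ s).2) (rot α (F (γ t))).2 t :=
      (ContinuousLinearMap.snd ℝ ℝ ℝ).hasFDerivAt.comp_hasDerivAt t (hγ.ode t)
    have h3 := (h1.const_mul (cos (-β))).sub (h2.const_mul (sin (-β)))
    have h4 : x = fun t => cos (-β) * (γ t).1 - sin (-β) * (γ t).2 := rfl
    rw [h4]
    refine h3.congr_deriv ?_
    simp only [hp, dotp, rot, Real.cos_neg, Real.sin_neg, Real.cos_sub, Real.sin_sub]
    ring
  have hxper : ∀ t, x (t + T) = x t := fun t => by simp only [hx, hγ.per]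
  have hcont : Continuous fun t => √(H709R2.sq (F (γ t))) :=
    (H709R2.continuous_sq.comp (hF.continuous.comp hγc)).sqrt
  set N : Set ℝ := (fun z => (rot (-β) z).1) '' Z with hN
  have hNc : N.Countable := hZ.image _
  -- the pointwise inequality
  have hpt : ∀ t, x t ∉ N → ENNReal.ofReal |dotp p (F (γ t))| ≤
      ENNReal.ofReal (√(H709R2.sq (F (γ t)))) * vari F Ω β (x t) := by
    intro t ht
    obtain ⟨s, hs, hsign⟩ := exists_opposite hγ.pos hxd hxper t
    set G : ℝ → ℝ × ℝ := fun r => F (rot β (x t, r)) with hG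
    set G' : ℝ → ℝ × ℝ := fun r => fderiv ℝ F (rot β (x t, r)) (rot β (0, 1)) with hG'
    have hrotd : ∀ r, HasDerivAt (fun r : ℝ => rot β (x t, r)) (rot β (0, 1)) r := by
      intro r
      have h1 : (fun r : ℝ => rot β (x t, r)) =
          fun r => rot β (x t, 0) + r • rot β (0, 1) := by
        ext r <;> simp [rot] <;> ring
      rw [h1]
      simpa using ((hasDerivAt_id r).smul_const (rot β (0, 1))).const_add (rot β (x t, 0))
    have hGd : ∀ r, HasDerivAt G (G' r) r := fun r =>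
      ((hF.differentiable (by norm_num)) (rot β (x t, r))).hasFDerivAt.comp_hasDerivAt r (hrotd r)
    have hrc : Continuous fun r : ℝ => rot β (x t, r) :=
      continuous_iff_continuousAt.2 fun r => (hrotd r).continuousAt
    have hG'c : Continuous G' :=
      ((hF.continuous_fderiv (by norm_num)).comp hrc).clm_apply continuous_const
    have hGt : G (y t) = F (γ t) := by rw [hγxy t]
    have hGs : G (y s) = F (γ s) := by
      rw [hγxy s, hs]
    have hneN : ∀ r, G r ≠ 0 := by
      intro r hr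
      apply ht
      refine ⟨rot β (x t, r), hZ0 _ hr, ?_⟩
      simp only [rot_neg_rot]
    have h1 := line_bound hGd hG'c hp1 (a := y t) (b := y s) (fun r _ => hneN r) (by
      rw [hGt, hGs]; exact hsign)
    rw [hGt] at h1
    refine h1.trans ?_
    gcongr
    unfold vari
    have hseg : ∀ r ∈ uIcc (y t) (y s), rot β (x t, r) ∈ Ω := by
      intro r hr
      rw [← segment_eq_uIcc] at hr
      obtain ⟨a, b, ha, hb, hab, hr⟩ := hr
      have h2 := hΩ (hin t) (hin s) ha hb hab
      have h3 : a • γ t + b • γ s = rot β (x t, r) := by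
        rw [hγxy t, hγxy s, hs, ← hr]
        simp only [smul_eq_mul]
        ext
        · simp only [rot, Prod.smul_mk, Prod.mk_add_mk, smul_eq_mul]
          linear_combination (cos β * x t) * hab
        · simp only [rot, Prod.smul_mk, Prod.mk_add_mk, smul_eq_mul]
          linear_combination (sin β * x t) * hab
      rwa [h3] at h2
    rw [← lintegral_indicator measurableSet_uIcc]
    refine lintegral_mono fun r => ?_
    by_cases hr : r ∈ uIcc (y t) (y s)
    · rw [indicator_of_mem hr, indicator_of_mem (hseg r hr)]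
      apply ENNReal.ofReal_le_ofReal
      unfold dth
      rw [abs_div, abs_of_nonneg (show 0 ≤ H709R2.sq (F (rot β (x t, r))) by
        unfold H709R2.sq; positivity)]
    · rw [indicator_of_notMem hr]
      exact bot_le
  -- two arcs
  obtain ⟨s₀, s₁, hext⟩ := hext
  obtain ⟨t₁, ht₁, hxt₁⟩ := (show Function.Periodic x T from hxper).exists_mem_Ico hγ.pos s₁ s₀
  have hWx : W ≤ x t₁ - x s₀ := by rw [← hxt₁]; exact hext
  have hlt : x s₀ < x t₁ := by linarith
  set I : Set ℝ := Ioo (x s₀) (x t₁) with hI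
  set σ : ℝ → ℝ≥0∞ := fun t => ENNReal.ofReal (√(H709R2.sq (F (γ t)))) with hσ
  have hup : ∫⁻ c in I, (vari F Ω β c)⁻¹ ≤ ∫⁻ t in Icc s₀ t₁, σ t :=
    lintegral_recd ht₁.1 hxd hNc.measurableSet (hNc.measure_zero _) (fun t _ ht => hpt t ht)
  have hdown : ∫⁻ c in I, (vari F Ω β c)⁻¹ ≤ ∫⁻ t in Icc t₁ (s₀ + T), σ t := by
    have hxd' : ∀ t, HasDerivAt (fun t => x (-t)) (-dotp p (F (γ (-t)))) t := by
      intro t
      have h1 := (hxd (-t)).scomp t (hasDerivAt_neg t)
      refine h1.congr_deriv ?_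
      simp
    have h1 := lintegral_recd (x := fun t => x (-t)) (x' := fun t => -dotp p (F (γ (-t))))
      (a := -(s₀ + T)) (b := -t₁) (σ := fun t => σ (-t)) (D := vari F Ω β) (N := N)
      (by linarith [ht₁.2]) hxd' hNc.measurableSet
      (hNc.measure_zero _) (fun t _ ht => by
        rw [abs_neg]
        exact hpt (-t) ht)
    simp only [neg_neg, hxper] at h1
    refine h1.trans (le_of_eq ?_)
    rw [← lintegral_indicator measurableSet_Icc, ← lintegral_indicator measurableSet_Icc]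
    rw [← lintegral_neg_eq_self (fun t => (Icc t₁ (s₀ + T)).indicator (fun t => σ t) t)]
    congr 1
    ext t
    by_cases ht : -t ∈ Icc t₁ (s₀ + T)
    · rw [indicator_of_mem ht, indicator_of_mem (show t ∈ Icc (-(s₀ + T)) (-t₁) from
        ⟨by linarith [ht.2], by linarith [ht.1]⟩)]
    · rw [indicator_of_notMem ht, indicator_of_notMem (show t ∉ Icc (-(s₀ + T)) (-t₁) from
        fun h => ht ⟨by linarith [h.2], by linarith [h.1]⟩)]
  set L : ℝ := ∫ t in (0:ℝ)..T, √(H709R2.sq (F (γ t))) with hL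
  have hLe : (∫⁻ t in Icc s₀ t₁, σ t) + ∫⁻ t in Icc t₁ (s₀ + T), σ t = ENNReal.ofReal L := by
    have hper' : Function.Periodic (fun t => √(H709R2.sq (F (γ t)))) T := fun t => by
      simp only [hγ.per]
    have h1 : L = ∫ t in s₀..(s₀ + T), √(H709R2.sq (F (γ t))) := by
      rw [hL, hper'.intervalIntegral_add_eq s₀ 0, zero_add]
    have h2 : ∀ a b : ℝ, a ≤ b → ∫⁻ t in Icc a b, σ t =
        ENNReal.ofReal (∫ t in a..b, √(H709R2.sq (F (γ t)))) := by
      intro a b hab
      rw [intervalIntegral.integral_of_le hab, ← integral_Icc_eq_integral_Ioc,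
        ofReal_integral_eq_lintegral_ofReal (hcont.integrableOn_Icc)
          (ae_of_all _ fun t => Real.sqrt_nonneg _)]
    rw [h2 _ _ ht₁.1, h2 _ _ ht₁.2.le, ← ENNReal.ofReal_add
      (intervalIntegral.integral_nonneg ht₁.1 fun t _ => Real.sqrt_nonneg _)
      (intervalIntegral.integral_nonneg ht₁.2.le fun t _ => Real.sqrt_nonneg _), h1,
      intervalIntegral.integral_add_adjacent_intervals (hcont.intervalIntegrable _ _)
        (hcont.intervalIntegrable _ _)]
  have hLpos : 0 < L := by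
    refine intervalIntegral.intervalIntegral_pos_of_pos (hcont.intervalIntegrable _ _) ?_ hγ.pos
    intro t
    apply Real.sqrt_pos.2
    apply H709R2.sq_pos
    intro h0
    apply hγ.ne t
    unfold H709U.rf
    rw [h0]
    ext <;> simp [rot]
  have h2inv : 2 * ∫⁻ c in I, (vari F Ω β c)⁻¹ ≤ ENNReal.ofReal L := by
    rw [two_mul, ← hLe]
    exact add_le_add hup hdown
  set A : ℝ≥0∞ := ∫⁻ z in Ω, ENNReal.ofReal |dth F (rot β (0, 1)) z| with hA
  have hAI : ∫⁻ c in I, vari F Ω β c ≤ A := by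
    rw [hA, ← lintegral_vari hF hΩm β]
    exact setLIntegral_le_lintegral _ _
  set W' : ℝ := x t₁ - x s₀ with hW'
  have hW'pos : 0 < W' := by linarith
  have hvol : volume I = ENNReal.ofReal W' := by rw [hI, Real.volume_Ioo]
  have hmv : Measurable (vari F Ω β) := by
    unfold vari
    have hkm : Measurable (Ω.indicator (fun z => ENNReal.ofReal |dth F (rot β (0, 1)) z|)) :=
      (measurable_dth hF _).abs.ennreal_ofReal.indicator hΩm
    have h1 : Measurable fun q : ℝ × ℝ =>
        Ω.indicator (fun z => ENNReal.ofReal |dth F (rot β (0, 1)) z|) (rot β q) :=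
      hkm.comp (H709R2.measurePreserving_rot β).measurable
    exact h1.lintegral_prod_right'
  set l : ℝ := L / (2 * W') with hl
  have hlpos : 0 < l := by positivity
  have h3 : 2 * ENNReal.ofReal W' ≤ ENNReal.ofReal l * A + ENNReal.ofReal W' := by
    calc 2 * ENNReal.ofReal W' = ∫⁻ _ in I, 2 := by
          rw [lintegral_const, Measure.restrict_apply_univ, hvol]
      _ ≤ ∫⁻ c in I, (ENNReal.ofReal l * vari F Ω β c + ENNReal.ofReal l⁻¹ * (vari F Ω β c)⁻¹) :=
          lintegral_mono fun c => two_le_mul_add hlpos _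
      _ = ENNReal.ofReal l * (∫⁻ c in I, vari F Ω β c) +
          ENNReal.ofReal l⁻¹ * ∫⁻ c in I, (vari F Ω β c)⁻¹ := by
          have hmi : Measurable fun c => (vari F Ω β c)⁻¹ := hmv.inv
          rw [lintegral_add_left (hmv.const_mul _), lintegral_const_mul _ hmv,
            lintegral_const_mul _ hmi]
      _ ≤ ENNReal.ofReal l * A + ENNReal.ofReal W' := by
          gcongr
          have h4 : ∫⁻ c in I, (vari F Ω β c)⁻¹ ≤ ENNReal.ofReal (L / 2) := by
            rw [ENNReal.ofReal_div_of_pos (by norm_num)]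
            rw [ENNReal.le_div_iff_mul_le (by simp) (by simp), mul_comm]
            simpa using h2inv
          calc ENNReal.ofReal l⁻¹ * ∫⁻ c in I, (vari F Ω β c)⁻¹
              ≤ ENNReal.ofReal l⁻¹ * ENNReal.ofReal (L / 2) := by gcongr
            _ = ENNReal.ofReal W' := by
                rw [← ENNReal.ofReal_mul (by positivity)]
                congr 1
                rw [hl]
                field_simp
  have h4 : ENNReal.ofReal W' ≤ ENNReal.ofReal l * A := by
    rw [two_mul] at h3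
    exact (ENNReal.add_le_add_iff_right ENNReal.ofReal_ne_top).1 h3
  have h5 : ENNReal.ofReal (2 * W' ^ 2 / L) ≤ A := by
    have h6 : ENNReal.ofReal (2 * W' ^ 2 / L) = ENNReal.ofReal l⁻¹ * ENNReal.ofReal W' := by
      rw [← ENNReal.ofReal_mul (by positivity)]
      congr 1
      rw [hl]
      field_simp
    rw [h6]
    calc ENNReal.ofReal l⁻¹ * ENNReal.ofReal W' ≤ ENNReal.ofReal l⁻¹ * (ENNReal.ofReal l * A) := by
          gcongr
      _ = A := by
          rw [← mul_assoc, ← ENNReal.ofReal_mul (by positivity), inv_mul_cancel₀ hlpos.ne']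
          simp
  refine le_trans (ENNReal.ofReal_le_ofReal ?_) h5
  gcongr

end

end Run7.h202
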