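import Pool.Agent.Run7.h202.Comb
import Pool.Agent.H709U.M0

/-! Summation over a grid of boxes; the averaged quadratic bound at one scale. -/

open Real Set MeasureTheory Topology Filter
open scoped ENNReal NNReal

namespace Run7.h202

noncomputable section

open Pool.Agent
open Pool.Agent.H709R2 (rot wedge field contDiff_field)
open Pool.Agent.H709Q (Maj)

/-- boxes of side `2 h` -/
def box (h : ℝ) (j : ℤ × ℤ) : Set (ℝ × ℝ) :=
  Icc (j.1 * h) (j.1 * h + 2 * h) ×ˢ Icc (j.2 * h) (j.2 * h + 2 * h)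

/-- half-open boxes of side `2 h` -/
def hbox (h : ℝ) (j : ℤ × ℤ) : Set (ℝ × ℝ) :=
  Ico (j.1 * h) (j.1 * h + 2 * h) ×ˢ Ico (j.2 * h) (j.2 * h + 2 * h)

lemma measurableSet_hbox (h : ℝ) (j : ℤ × ℤ) : MeasurableSet (hbox h j) :=
  measurableSet_Ico.prod measurableSet_Ico

lemma restrict_box (h : ℝ) (j : ℤ × ℤ) :
    (volume : Measure (ℝ × ℝ)).restrict (box h j) = volume.restrict (hbox h j) := by
  unfold box hbox
  rw [Measure.volume_eq_prod, ← Measure.prod_restrict, ← Measure.prod_restrict,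
    Measure.restrict_congr_set (Ico_ae_eq_Icc (a := (j.1 * h : ℝ)) (b := j.1 * h + 2 * h)),
    Measure.restrict_congr_set (Ico_ae_eq_Icc (a := (j.2 * h : ℝ)) (b := j.2 * h + 2 * h))]

/-- the double integral over a box, as an integral over the plane -/
lemma dbl_box {F : ℝ × ℝ → ℝ × ℝ} (h : ℝ) (j : ℤ × ℤ) :
    dbl F (box h j) = ∫⁻ x, ∫⁻ y, (hbox h j).indicator 1 x * (hbox h j).indicator 1 y *
      ENNReal.ofReal |kap F x y| := by
  unfold dbl
  rw [restrict_box, ← lintegral_indicator (measurableSet_hbox h j)]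
  refine lintegral_congr fun x => ?_
  by_cases hx : x ∈ hbox h j
  · rw [indicator_of_mem hx, ← lintegral_indicator (measurableSet_hbox h j)]
    refine lintegral_congr fun y => ?_
    rw [indicator_of_mem hx]
    by_cases hy : y ∈ hbox h j
    · rw [indicator_of_mem hy, indicator_of_mem hy]
      simp
    · rw [indicator_of_notMem hy, indicator_of_notMem hy]
      simp
  · rw [indicator_of_notMem hx]
    simp [indicator_of_notMem hx]

/-- indices of the intervals which contain a point -/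
lemma mem_iff_floor {h : ℝ} (hh : 0 < h) (x : ℝ) (j : ℤ) :
    x ∈ Ico ((j:ℝ) * h) (j * h + 2 * h) ↔ j = ⌊x / h⌋ ∨ j = ⌊x / h⌋ - 1 := by
  rw [mem_Ico, ← le_div_iff₀ hh, show (j:ℝ) * h + 2 * h = ((j:ℝ) + 2) * h by ring,
    ← div_lt_iff₀ hh]
  have h1 := Int.floor_le (x / h)
  have h2 := Int.lt_floor_add_one (x / h)
  constructor
  · rintro ⟨h3, h4⟩
    have h5 : j ≤ ⌊x / h⌋ := Int.le_floor.2 h3
    have h6 : ((⌊x / h⌋ : ℤ) : ℝ) < ((j + 2 : ℤ) : ℝ) := by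
      push_cast
      linarith
    have h7 : ⌊x / h⌋ < j + 2 := by exact_mod_cast h6
    omega
  · rintro (rfl | rfl)
    · exact ⟨h1, by linarith⟩
    · push_cast
      exact ⟨by linarith, by linarith⟩

/-- the number of boxes which contain two points is at most four -/
lemma tsum_box_le {h : ℝ} (hh : 0 < h) (x y : ℝ × ℝ) :
    ∑' j : ℤ × ℤ, (hbox h j).indicator 1 x * (hbox h j).indicator 1 y ≤
      4 * (Ioo (-(2 * h)) (2 * h) ×ˢ Ioo (-(2 * h)) (2 * h)).indicator (1 : ℝ × ℝ → ℝ≥0∞)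
        (y - x) := by
  classical
  set S : Finset (ℤ × ℤ) := ({⌊x.1 / h⌋, ⌊x.1 / h⌋ - 1} : Finset ℤ) ×ˢ
    ({⌊x.2 / h⌋, ⌊x.2 / h⌋ - 1} : Finset ℤ) with hS
  have hmem : ∀ j : ℤ × ℤ, x ∈ hbox h j → j ∈ S := by
    intro j hj
    rw [hS, Finset.mem_product]
    refine ⟨?_, ?_⟩
    · have := (mem_iff_floor hh x.1 j.1).1 hj.1
      simpa using this
    · have := (mem_iff_floor hh x.2 j.2).1 hj.2
      simpa using this
  have hcard : S.card ≤ 4 := by
    rw [hS, Finset.card_product]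
    have h1 : ∀ a : ℤ, ({a, a - 1} : Finset ℤ).card ≤ 2 := fun a => Finset.card_le_two
    calc _ ≤ 2 * 2 := Nat.mul_le_mul (h1 _) (h1 _)
      _ = 4 := rfl
  have hterm : ∀ j : ℤ × ℤ, (hbox h j).indicator (1 : ℝ × ℝ → ℝ≥0∞) x *
      (hbox h j).indicator (1 : ℝ × ℝ → ℝ≥0∞) y ≤
      (Ioo (-(2 * h)) (2 * h) ×ˢ Ioo (-(2 * h)) (2 * h)).indicator (1 : ℝ × ℝ → ℝ≥0∞)
        (y - x) := by
    intro j
    by_cases hx : x ∈ hbox h j
    · by_cases hy : y ∈ hbox h j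
      · have h3 : y - x ∈ Ioo (-(2 * h)) (2 * h) ×ˢ Ioo (-(2 * h)) (2 * h) := by
          obtain ⟨⟨a1, a2⟩, ⟨a3, a4⟩⟩ := hx
          obtain ⟨⟨b1, b2⟩, ⟨b3, b4⟩⟩ := hy
          refine ⟨⟨?_, ?_⟩, ⟨?_, ?_⟩⟩
          · rw [Prod.fst_sub]; linarith
          · rw [Prod.fst_sub]; linarith
          · rw [Prod.snd_sub]; linarith
          · rw [Prod.snd_sub]; linarith
        rw [indicator_of_mem hx, indicator_of_mem hy, indicator_of_mem h3]
        simp
      · rw [indicator_of_notMem hy]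
        simp
    · rw [indicator_of_notMem hx]
      simp
  rw [tsum_eq_sum (s := S) (fun j hj => by
    rw [indicator_of_notMem (fun hx => hj (hmem j hx)), zero_mul])]
  refine (Finset.sum_le_card_nsmul _ _ _ fun j _ => hterm j).trans ?_
  rw [nsmul_eq_mul]
  gcongr
  exact_mod_cast hcard

lemma measurable_kap_ofReal {F : ℝ × ℝ → ℝ × ℝ} (hF : ContDiff ℝ 2 F) :
    Measurable fun p : (ℝ × ℝ) × (ℝ × ℝ) => ENNReal.ofReal |kap F p.1 p.2| :=
  (measurable_kap hF).abs.ennreal_ofReal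

lemma measurable_kap_shift {F : ℝ × ℝ → ℝ × ℝ} (hF : ContDiff ℝ 2 F) (v : ℝ × ℝ) :
    Measurable fun x : ℝ × ℝ => ENNReal.ofReal |kap F x (x + v)| := by
  have h1 := measurable_kap hF
  have h2 : Measurable fun x : ℝ × ℝ => (x, x + v) := by fun_prop
  have h3 : Measurable fun x : ℝ × ℝ => kap F x (x + v) :=
    Measurable.comp (g := fun p : (ℝ × ℝ) × (ℝ × ℝ) => kap F p.1 p.2) h1 h2
  exact h3.abs.ennreal_ofReal

lemma measurable_kap_shift2 {F : ℝ × ℝ → ℝ × ℝ} (hF : ContDiff ℝ 2 F) :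
    Measurable fun p : (ℝ × ℝ) × (ℝ × ℝ) => ENNReal.ofReal |kap F p.1 (p.1 + p.2)| := by
  have h1 := measurable_kap hF
  have h2 : Measurable fun p : (ℝ × ℝ) × (ℝ × ℝ) => (p.1, p.1 + p.2) := by fun_prop
  have h3 : Measurable fun p : (ℝ × ℝ) × (ℝ × ℝ) => kap F p.1 (p.1 + p.2) :=
    Measurable.comp (g := fun p : (ℝ × ℝ) × (ℝ × ℝ) => kap F p.1 p.2) h1 h2
  exact h3.abs.ennreal_ofReal

/-- **Sum over the boxes.** -/
theorem tsum_dbl_le {n : ℕ} {P Q : MvPolynomial (Fin 2) ℝ} (hP : P.totalDegree ≤ n)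
    (hQ : Q.totalDegree ≤ n) {h : ℝ} (hh : 0 < h) :
    ∑' j : ℤ × ℤ, dbl (field P Q) (box h j) ≤ ENNReal.ofReal (64 * h ^ 2 * (n ^ 2 * π ^ 2)) := by
  have hF : ContDiff ℝ 2 (field P Q) := contDiff_field P Q
  have hb := fun v => trans_bezout hP hQ v
  generalize field P Q = F at hF hb ⊢
  have hk := measurable_kap_ofReal hF
  set B : Set (ℝ × ℝ) := Ioo (-(2 * h)) (2 * h) ×ˢ Ioo (-(2 * h)) (2 * h) with hB
  have hBm : MeasurableSet B := measurableSet_Ioo.prod measurableSet_Ioo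
  have hone : ∀ j : ℤ × ℤ, Measurable ((hbox h j).indicator (1 : ℝ × ℝ → ℝ≥0∞)) := fun j =>
    measurable_const.indicator (measurableSet_hbox h j)
  have hone2 : Measurable (B.indicator (1 : ℝ × ℝ → ℝ≥0∞)) := measurable_const.indicator hBm
  have hjm : ∀ j : ℤ × ℤ, Measurable fun p : (ℝ × ℝ) × (ℝ × ℝ) =>
      (hbox h j).indicator (1 : ℝ × ℝ → ℝ≥0∞) p.1 * (hbox h j).indicator (1 : ℝ × ℝ → ℝ≥0∞) p.2 *
        ENNReal.ofReal |kap F p.1 p.2| := fun j =>
    (((hone j).comp measurable_fst).mul ((hone j).comp measurable_snd)).mul hk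
  simp only [dbl_box]
  -- exchange of sum and integrals
  have e1 : ∑' j : ℤ × ℤ, ∫⁻ x, ∫⁻ y, (hbox h j).indicator 1 x * (hbox h j).indicator 1 y *
      ENNReal.ofReal |kap F x y| = ∫⁻ x, ∫⁻ y, (∑' j : ℤ × ℤ, (hbox h j).indicator 1 x *
        (hbox h j).indicator 1 y) * ENNReal.ofReal |kap F x y| := by
    rw [← lintegral_tsum (fun j => ((hjm j).lintegral_prod_right').aemeasurable)]
    refine lintegral_congr fun x => ?_
    have h2 : ∀ j : ℤ × ℤ, AEMeasurable (fun y => (hbox h j).indicator (1 : ℝ × ℝ → ℝ≥0∞) x *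
        (hbox h j).indicator (1 : ℝ × ℝ → ℝ≥0∞) y * ENNReal.ofReal |kap F x y|) volume := fun j =>
      ((hjm j).comp (measurable_const.prodMk measurable_id)).aemeasurable
    rw [← lintegral_tsum h2]
    refine lintegral_congr fun y => ?_
    rw [ENNReal.tsum_mul_right]
  rw [e1]
  have e2 : ∫⁻ x, ∫⁻ y, (∑' j : ℤ × ℤ, (hbox h j).indicator 1 x *
        (hbox h j).indicator 1 y) * ENNReal.ofReal |kap F x y| ≤
      ∫⁻ x, ∫⁻ y, 4 * B.indicator (1 : ℝ × ℝ → ℝ≥0∞) (y - x) * ENNReal.ofReal |kap F x y| := by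
    refine lintegral_mono fun x => lintegral_mono fun y => ?_
    gcongr
    exact tsum_box_le hh x y
  refine e2.trans ?_
  -- translation
  have e3 : ∀ x, ∫⁻ y, 4 * B.indicator (1 : ℝ × ℝ → ℝ≥0∞) (y - x) * ENNReal.ofReal |kap F x y| =
      ∫⁻ v, 4 * B.indicator (1 : ℝ × ℝ → ℝ≥0∞) v * ENNReal.ofReal |kap F x (x + v)| := by
    intro x
    have h3 := lintegral_add_left_eq_self (μ := (volume : Measure (ℝ × ℝ)))
      (fun y => 4 * B.indicator (1 : ℝ × ℝ → ℝ≥0∞) (y - x) * ENNReal.ofReal |kap F x y|) x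
    rw [← h3]
    simp only [add_sub_cancel_left]
  simp only [e3]
  have hm3 : Measurable fun p : (ℝ × ℝ) × (ℝ × ℝ) =>
      4 * B.indicator (1 : ℝ × ℝ → ℝ≥0∞) p.2 * ENNReal.ofReal |kap F p.1 (p.1 + p.2)| := by
    have h7 := measurable_kap_shift2 hF
    have h8 : Measurable fun p : (ℝ × ℝ) × (ℝ × ℝ) =>
        4 * B.indicator (1 : ℝ × ℝ → ℝ≥0∞) p.2 := (hone2.comp measurable_snd).const_mul 4
    exact h8.mul h7
  rw [lintegral_lintegral_swap hm3.aemeasurable]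
  have hm4 := fun v => measurable_kap_shift hF v
  calc ∫⁻ v, ∫⁻ x, 4 * B.indicator (1 : ℝ × ℝ → ℝ≥0∞) v * ENNReal.ofReal |kap F x (x + v)|
      ≤ ∫⁻ v, 4 * B.indicator (1 : ℝ × ℝ → ℝ≥0∞) v * ENNReal.ofReal (n ^ 2 * π ^ 2) := by
        refine lintegral_mono fun v => ?_
        rw [lintegral_const_mul _ (hm4 v)]
        gcongr
        exact hb v
    _ = 4 * volume B * ENNReal.ofReal (n ^ 2 * π ^ 2) := by
        rw [lintegral_mul_const _ (hone2.const_mul 4), lintegral_const_mul _ hone2,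
          lintegral_indicator_one hBm]
    _ = ENNReal.ofReal (64 * h ^ 2 * (n ^ 2 * π ^ 2)) := by
        have h5 : volume B = ENNReal.ofReal (16 * h ^ 2) := by
          rw [hB, Measure.volume_eq_prod, Measure.prod_prod, Real.volume_Ioo,
            ← ENNReal.ofReal_mul (by linarith)]
          congr 1
          ring
        rw [h5, show (4 : ℝ≥0∞) = ENNReal.ofReal 4 by simp, ← ENNReal.ofReal_mul (by norm_num),
          ← ENNReal.ofReal_mul (by positivity)]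
        congr 1
        ring

/-- closed orbits in the plane of width at least `r` whose projections to the axes have length at
most `h` -/
def ClW (P Q : MvPolynomial (Fin 2) ℝ) (r h α : ℝ) : Set (Set (ℝ × ℝ)) :=
  {C | C ∈ H709U.Cl P Q α ∧ Wide r C ∧
    ∀ x ∈ C, ∀ y ∈ C, |x.1 - y.1| ≤ h ∧ |x.2 - y.2| ≤ h}

lemma exists_box {C : Set (ℝ × ℝ)} (hne : C.Nonempty) {h : ℝ} (hh : 0 < h)
    (hC : ∀ x ∈ C, ∀ y ∈ C, |x.1 - y.1| ≤ h ∧ |x.2 - y.2| ≤ h) : ∃ j, C ⊆ box h j := by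
  obtain ⟨x₀, hx₀⟩ := hne
  have hb1 : BddBelow (Prod.fst '' C) := ⟨x₀.1 - h, by
    rintro _ ⟨y, hy, rfl⟩
    have := (abs_le.1 (hC x₀ hx₀ y hy).1).2
    linarith⟩
  have hb2 : BddBelow (Prod.snd '' C) := ⟨x₀.2 - h, by
    rintro _ ⟨y, hy, rfl⟩
    have := (abs_le.1 (hC x₀ hx₀ y hy).2).2
    linarith⟩
  set a := sInf (Prod.fst '' C) with ha
  set b := sInf (Prod.snd '' C) with hb
  have hfl : ∀ c : ℝ, (⌊c / h⌋ : ℝ) * h ≤ c ∧ c < (⌊c / h⌋ : ℝ) * h + h := by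
    intro c
    have h1 := Int.floor_le (c / h)
    have h2 := Int.lt_floor_add_one (c / h)
    rw [le_div_iff₀ hh] at h1
    rw [div_lt_iff₀ hh] at h2
    exact ⟨h1, by linarith⟩
  refine ⟨(⌊a / h⌋, ⌊b / h⌋), fun z hz => ?_⟩
  have h1 : a ≤ z.1 := csInf_le hb1 ⟨z, hz, rfl⟩
  have h2 : b ≤ z.2 := csInf_le hb2 ⟨z, hz, rfl⟩
  have h3 : z.1 - h ≤ a := by
    refine le_csInf ⟨x₀.1, x₀, hx₀, rfl⟩ ?_
    rintro _ ⟨y, hy, rfl⟩
    have := (abs_le.1 (hC z hz y hy).1).2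
    linarith
  have h4 : z.2 - h ≤ b := by
    refine le_csInf ⟨x₀.2, x₀, hx₀, rfl⟩ ?_
    rintro _ ⟨y, hy, rfl⟩
    have := (abs_le.1 (hC z hz y hy).2).2
    linarith
  have h5 := hfl a
  have h6 := hfl b
  unfold box
  refine ⟨⟨?_, ?_⟩, ⟨?_, ?_⟩⟩ <;> simp only <;> linarith [h5.1, h5.2, h6.1, h6.2]

lemma encard_le_tsum {ι α : Type*} [Countable ι] (S : Set α) (t : ι → Set α) (h : S ⊆ ⋃ i, t i) :
    (S.encard : ℝ≥0∞) ≤ ∑' i, ((t i).encard : ℝ≥0∞) := by
  let _ : MeasurableSpace α := ⊤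
  have h1 : ∀ t : Set α, Measure.count t = (t.encard : ℝ≥0∞) := fun t =>
    Measure.count_apply (MeasurableSpace.measurableSet_top)
  rw [← h1]
  refine (measure_mono h).trans ((measure_iUnion_le _).trans ?_)
  simp only [h1]
  exact le_rfl

/-- the averaged quadratic bound at one scale, relatively prime components -/
theorem scale_coprime {n : ℕ} {P Q : MvPolynomial (Fin 2) ℝ} (hP : P.totalDegree ≤ n)
    (hQ : Q.totalDegree ≤ n) (hrel : IsRelPrime P Q) {r h : ℝ} (hr : 0 < r) (hh : 0 < h) :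
    Maj (fun α => ((ClW P Q r h α).encard : ℝ≥0∞)) (32 * π ^ 2 * (h / r) ^ 2 * n ^ 2) := by
  have hF : ContDiff ℝ 2 (field P Q) := contDiff_field P Q
  obtain ⟨Z, -, hZ⟩ := H709U.b3 n P Q hP hQ hrel
  have hconv : ∀ j, Convex ℝ (box h j) := fun j => (convex_Icc _ _).prod (convex_Icc _ _)
  have hcomp : ∀ j, IsCompact (box h j) := fun j => isCompact_Icc.prod isCompact_Icc
  have hbox := fun j => box_bound hF (Z := (Z : Set (ℝ × ℝ))) Z.countable_toSet
    (fun z hz => (hZ z).1 hz) (hconv j) (hcomp j) hr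
  choose g hg1 hg2 hg3 using hbox
  refine ⟨fun α => ∑' j, g j α, Measurable.tsum hg1, fun α hα => ?_, ?_⟩
  · have hsub : ClW P Q r h α ⊆ ⋃ j : ℤ × ℤ, {C | ∃ γ T, H709U.Orb (H709U.rf (field P Q) α) γ T ∧
        C = range γ ∧ C ⊆ box h j ∧ Wide r C} := by
      rintro C ⟨hC, hw, hd⟩
      obtain ⟨γ, T, hγ, rfl⟩ := H709U.m0 (field P Q) hF α C hC
      obtain ⟨j, hj⟩ := exists_box (range_nonempty γ) hh hd
      rw [mem_iUnion]
      exact ⟨j, γ, T, hγ, rfl, hj, hw⟩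
    have h1 := encard_le_tsum _ _ hsub
    have h2 : ∑' j : ℤ × ℤ, (({C | ∃ γ T, H709U.Orb (H709U.rf (field P Q) α) γ T ∧
        C = range γ ∧ C ⊆ box h j ∧ Wide r C}.encard : ℕ∞) : ℝ≥0∞) ≤ ∑' j : ℤ × ℤ, g j α :=
      ENNReal.tsum_le_tsum fun j => hg2 j α hα
    exact h1.trans h2
  · refine (setLIntegral_le_lintegral _ _).trans ?_
    rw [lintegral_tsum fun j => (hg1 j).aemeasurable]
    refine (ENNReal.tsum_le_tsum hg3).trans ?_
    rw [ENNReal.tsum_mul_left]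
    refine (mul_le_mul_right (tsum_dbl_le hP hQ hh) _).trans ?_
    rw [← ENNReal.ofReal_mul (by positivity)]
    apply ENNReal.ofReal_le_ofReal
    apply le_of_eq
    field_simp
    ring

end

end Run7.h202
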