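import Pool.Agent.Run7.h202.Sum
import Pool.Agent.H709U.R1

/-! The averaged quadratic bound for closed orbits of bounded aspect ratio, in a range of widths. -/

open Real Set MeasureTheory Topology Filter
open scoped ENNReal NNReal

namespace Run7.h202

noncomputable section

open Pool.Agent
open Pool.Agent.H709R2 (rot wedge field contDiff_field)
open Pool.Agent.H709Q (Maj)

/-- closed orbits in the plane whose extent in every direction is at least `w`, for some `w`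
between `r` and `R`, and whose diameter is at most `D * w` -/
def ClA (P Q : MvPolynomial (Fin 2) ℝ) (r R D α : ℝ) : Set (Set (ℝ × ℝ)) :=
  {C | C ∈ H709U.Cl P Q α ∧ ∃ w : ℝ, r ≤ w ∧ w ≤ R ∧ Wide w C ∧
    ∀ x ∈ C, ∀ y ∈ C, √((x.1 - y.1) ^ 2 + (x.2 - y.2) ^ 2) ≤ D * w}

lemma Wide.mono {r r' : ℝ} (h : r' ≤ r) {C : Set (ℝ × ℝ)} (hC : Wide r C) : Wide r' C := by
  intro β
  obtain ⟨p, hp, q, hq, hpq⟩ := hC β
  exact ⟨p, hp, q, hq, h.trans hpq⟩

lemma exists_scale {r R w : ℝ} (hr : 0 < r) (hw : r ≤ w) (hwR : w ≤ R) :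
    ∃ k : ℕ, k < ⌊Real.logb 2 (R / r)⌋₊ + 1 ∧ 2 ^ k * r ≤ w ∧ w ≤ 2 * (2 ^ k * r) := by
  have hw0 : 0 < w := hr.trans_le hw
  have hR0 : 0 < R := hw0.trans_le hwR
  have h1 : 1 ≤ w / r := by rw [le_div_iff₀ hr, one_mul]; exact hw
  have hlog : 0 ≤ Real.logb 2 (w / r) := Real.logb_nonneg (by norm_num) h1
  refine ⟨⌊Real.logb 2 (w / r)⌋₊, ?_, ?_, ?_⟩
  · refine Nat.lt_succ_of_le (Nat.floor_le_floor ?_)
    refine Real.logb_le_logb_of_le (by norm_num) (by positivity) ?_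
    gcongr
  · have h2 := Nat.floor_le hlog
    have h3 : (2 : ℝ) ^ (⌊Real.logb 2 (w / r)⌋₊ : ℝ) ≤ w / r := by
      calc (2 : ℝ) ^ (⌊Real.logb 2 (w / r)⌋₊ : ℝ) ≤ 2 ^ Real.logb 2 (w / r) :=
            Real.rpow_le_rpow_of_exponent_le (by norm_num) h2
        _ = w / r := Real.rpow_logb (by norm_num) (by norm_num) (by positivity)
    rw [Real.rpow_natCast, le_div_iff₀ hr] at h3
    exact h3
  · have h2 := (Nat.lt_floor_add_one (Real.logb 2 (w / r))).le
    have h3 : w / r ≤ (2 : ℝ) ^ ((⌊Real.logb 2 (w / r)⌋₊ : ℝ) + 1) := by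
      calc w / r = 2 ^ Real.logb 2 (w / r) :=
            (Real.rpow_logb (by norm_num) (by norm_num) (by positivity)).symm
        _ ≤ _ := Real.rpow_le_rpow_of_exponent_le (by norm_num) h2
    rw [Real.rpow_add (by norm_num), Real.rpow_one, Real.rpow_natCast, div_le_iff₀ hr] at h3
    linarith

/-- **The averaged quadratic bound.** -/
theorem quadratic {n : ℕ} {P Q : MvPolynomial (Fin 2) ℝ} (hP : P.totalDegree ≤ n)
    (hQ : Q.totalDegree ≤ n) (hne : P ≠ 0 ∨ Q ≠ 0) {r R D : ℝ} (hr : 0 < r) (hR : r ≤ R)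
    (hD : 0 < D) :
    Maj (fun α => ((ClA P Q r R D α).encard : ℝ≥0∞))
      (π * (128 * π * D ^ 2 * n ^ 2 * (1 + Real.logb 2 (R / r)))) := by
  obtain ⟨h, P₁, Q₁, rfl, rfl, hrel, hP₁, hQ₁⟩ := H709U.b1 n P Q hP hQ hne
  set m : ℕ := ⌊Real.logb 2 (R / r)⌋₊ + 1 with hm
  have hlog : 0 ≤ Real.logb 2 (R / r) := Real.logb_nonneg (by norm_num) (by
    rw [le_div_iff₀ hr, one_mul]
    exact hR)
  have h1 : ∀ k ∈ Finset.range m, Maj (fun α =>
      ((ClW P₁ Q₁ (2 ^ k * r) (D * (2 * (2 ^ k * r))) α).encard : ℝ≥0∞))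
      (128 * π ^ 2 * D ^ 2 * n ^ 2) := by
    intro k _
    have h2 := scale_coprime hP₁ hQ₁ hrel (r := 2 ^ k * r) (h := D * (2 * (2 ^ k * r)))
      (by positivity) (by positivity)
    have h3 : D * (2 * (2 ^ k * r)) / (2 ^ k * r) = 2 * D := by
      field_simp
    rw [h3] at h2
    refine H709U.maj_mono (fun _ _ => le_rfl) (le_of_eq ?_) h2
    ring
  have h2 := H709U.maj_sum _ _ _ (by positivity) h1
  refine H709U.maj_mono ?_ ?_ h2
  · intro α _
    apply H709U.encard_biUnion_le'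
    rintro C ⟨hC, w, hw1, hw2, hwide, hdiam⟩
    obtain ⟨k, hk, hk1, hk2⟩ := exists_scale hr hw1 hw2
    simp only [mem_iUnion]
    refine ⟨k, Finset.mem_range.2 hk, H709U.b2 H709U.m0 h P₁ Q₁ α hC, hwide.mono hk1,
      fun x hx y hy => ?_⟩
    have h3 := (hdiam x hx y hy).trans (mul_le_mul_of_nonneg_left hk2 hD.le)
    exact ⟨(Real.abs_le_sqrt (by nlinarith [sq_nonneg (x.2 - y.2)])).trans h3,
      (Real.abs_le_sqrt (by nlinarith [sq_nonneg (x.1 - y.1)])).trans h3⟩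
  · rw [Finset.card_range]
    have h3 : (m : ℝ) ≤ 1 + Real.logb 2 (R / r) := by
      rw [hm]
      push_cast
      have := Nat.floor_le hlog
      linarith
    calc (m : ℝ) * (128 * π ^ 2 * D ^ 2 * n ^ 2)
        ≤ (1 + Real.logb 2 (R / r)) * (128 * π ^ 2 * D ^ 2 * n ^ 2) := by gcongr
      _ = _ := by ring

end

end Run7.h202
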