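import Pool.Agent.Run7.h202.AreaMul
import Pool.Agent.Run7.h202.Bez
import Pool.Agent.H709R2.ThmA

/-! Translation form of the theorem of Bezout for the argument of a polynomial field. -/

open Real Set MeasureTheory Topology Filter
open scoped ENNReal NNReal

namespace Run7.h202

noncomputable section

open Pool.Agent
open Pool.Agent.H709R2 (rot wedge field contDiff_field)

/-- derivative of the argument of `F` in the direction `v` -/
def dth (F : ℝ × ℝ → ℝ × ℝ) (v z : ℝ × ℝ) : ℝ := wedge (F z) (fderiv ℝ F z v) / H709R2.sq (F z)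

/-- the vector product of the gradients of the argument at two points -/
def kap (F : ℝ × ℝ → ℝ × ℝ) (x y : ℝ × ℝ) : ℝ :=
  dth F (1, 0) x * dth F (0, 1) y - dth F (0, 1) x * dth F (1, 0) y

lemma measurable_dth {F : ℝ × ℝ → ℝ × ℝ} (hF : ContDiff ℝ 2 F) (v : ℝ × ℝ) :
    Measurable (dth F v) := by
  have h1 : Continuous fun p => fderiv ℝ F p v :=
    (hF.continuous_fderiv (by norm_num)).clm_apply continuous_const
  have h2 : Continuous fun p => wedge (F p) (fderiv ℝ F p v) := by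
    unfold wedge
    have := hF.continuous
    fun_prop
  have h3 : Continuous fun p => H709R2.sq (F p) := by
    unfold H709R2.sq
    have := hF.continuous
    fun_prop
  exact h2.measurable.div h3.measurable

lemma measurable_kap {F : ℝ × ℝ → ℝ × ℝ} (hF : ContDiff ℝ 2 F) :
    Measurable fun p : (ℝ × ℝ) × (ℝ × ℝ) => kap F p.1 p.2 := by
  unfold kap
  exact (((measurable_dth hF _).comp measurable_fst).mul
    ((measurable_dth hF _).comp measurable_snd)).sub
    (((measurable_dth hF _).comp measurable_fst).mul ((measurable_dth hF _).comp measurable_snd))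

/-- translation of a polynomial -/
def shiftP (v : ℝ × ℝ) (P : MvPolynomial (Fin 2) ℝ) : MvPolynomial (Fin 2) ℝ :=
  MvPolynomial.bind₁ (![MvPolynomial.X 0 + MvPolynomial.C v.1,
    MvPolynomial.X 1 + MvPolynomial.C v.2] : Fin 2 → MvPolynomial (Fin 2) ℝ) P

/-- substitution of polynomials of degree `≤ 1` does not raise the total degree -/
theorem totalDegree_bind₁_le (f : Fin 2 → MvPolynomial (Fin 2) ℝ)
    (hf : ∀ i, (f i).totalDegree ≤ 1) (P : MvPolynomial (Fin 2) ℝ) :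
    (MvPolynomial.bind₁ f P).totalDegree ≤ P.totalDegree := by
  classical
  have h : MvPolynomial.bind₁ f P =
      ∑ d ∈ P.support, MvPolynomial.C (P.coeff d) * ∏ i ∈ d.support, f i ^ d i := by
    rw [MvPolynomial.bind₁, MvPolynomial.aeval_def, MvPolynomial.eval₂_eq]
    rfl
  rw [h]
  refine MvPolynomial.totalDegree_finsetSum_le fun d hd => ?_
  refine (MvPolynomial.totalDegree_mul _ _).trans ?_
  rw [MvPolynomial.totalDegree_C, zero_add]
  refine (MvPolynomial.totalDegree_finsetProd _ _).trans ?_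
  refine le_trans ?_ (MvPolynomial.le_totalDegree hd)
  rw [Finsupp.sum]
  refine Finset.sum_le_sum fun i _ => ?_
  refine (MvPolynomial.totalDegree_pow _ _).trans ?_
  calc d i * (f i).totalDegree ≤ d i * 1 := Nat.mul_le_mul_left _ (hf i)
    _ = d i := mul_one _

lemma totalDegree_shiftP (v : ℝ × ℝ) (P : MvPolynomial (Fin 2) ℝ) :
    (shiftP v P).totalDegree ≤ P.totalDegree := by
  refine totalDegree_bind₁_le _ ?_ P
  intro i
  fin_cases i
  · simp only [Fin.zero_eta, Matrix.cons_val_zero]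
    refine (MvPolynomial.totalDegree_add _ _).trans (max_le ?_ ?_)
    · rw [MvPolynomial.totalDegree_X]
    · rw [MvPolynomial.totalDegree_C]; exact Nat.zero_le _
  · simp only [Fin.mk_one, Matrix.cons_val_one]
    refine (MvPolynomial.totalDegree_add _ _).trans (max_le ?_ ?_)
    · simp
    · rw [MvPolynomial.totalDegree_C]; exact Nat.zero_le _

lemma eval_shiftP (v : ℝ × ℝ) (P : MvPolynomial (Fin 2) ℝ) (z : ℝ × ℝ) :
    MvPolynomial.eval ![z.1, z.2] (shiftP v P) =
      MvPolynomial.eval ![(z + v).1, (z + v).2] P := by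
  unfold shiftP
  rw [← MvPolynomial.coe_aeval_eq_eval, RingHom.coe_coe, MvPolynomial.aeval_bind₁]
  rw [← MvPolynomial.coe_aeval_eq_eval, RingHom.coe_coe]
  congr 2
  ext i
  fin_cases i <;> simp

/-- value of a polynomial at a point of the plane -/
def ev (P : MvPolynomial (Fin 2) ℝ) (z : ℝ × ℝ) : ℝ := MvPolynomial.eval ![z.1, z.2] P

lemma contDiff_ev (P : MvPolynomial (Fin 2) ℝ) {m : WithTop ℕ∞} : ContDiff ℝ m (ev P) :=
  Pool.Agent.H709R2.contDiff_evalPoly P

lemma hasFDerivAt_ev (P : MvPolynomial (Fin 2) ℝ) (z : ℝ × ℝ) :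
    HasFDerivAt (ev P) (fderiv ℝ (ev P) z) z :=
  ((contDiff_ev P (m := 1)).differentiable (by norm_num) z).hasFDerivAt

lemma field_eq (P Q : MvPolynomial (Fin 2) ℝ) : field P Q = fun z => (ev P z, ev Q z) := rfl

lemma fderiv_field (P Q : MvPolynomial (Fin 2) ℝ) (z w : ℝ × ℝ) :
    fderiv ℝ (field P Q) z w = (fderiv ℝ (ev P) z w, fderiv ℝ (ev Q) z w) := by
  rw [field_eq, ((hasFDerivAt_ev P z).prodMk (hasFDerivAt_ev Q z)).fderiv]
  rfl

lemma integral_cauchy : ∫⁻ c : ℝ, ENNReal.ofReal ((1 + c ^ 2)⁻¹) = ENNReal.ofReal π := by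
  rw [← ofReal_integral_eq_lintegral_ofReal integrable_inv_one_add_sq
    (ae_of_all _ fun x => by positivity), integral_univ_inv_one_add_sq]

/-- quotient of the components -/
def qu (P Q : MvPolynomial (Fin 2) ℝ) (z : ℝ × ℝ) : ℝ := ev P z / ev Q z

/-- derivative of the quotient of the components -/
def qu' (P Q : MvPolynomial (Fin 2) ℝ) (z : ℝ × ℝ) : (ℝ × ℝ) →L[ℝ] ℝ :=
  ((ev Q z ^ 2)⁻¹) • (ev Q z • fderiv ℝ (ev P) z - ev P z • fderiv ℝ (ev Q) z)

lemma hasFDerivAt_qu (P Q : MvPolynomial (Fin 2) ℝ) {z : ℝ × ℝ} (hz : ev Q z ≠ 0) :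
    HasFDerivAt (qu P Q) (qu' P Q z) z := by
  have h1 : HasFDerivAt (fun z => (ev Q z)⁻¹) (-((ev Q z ^ 2)⁻¹) • fderiv ℝ (ev Q) z) z :=
    (hasDerivAt_inv hz).comp_hasFDerivAt z (hasFDerivAt_ev Q z)
  have h2 := (hasFDerivAt_ev P z).mul h1
  have h3 : qu P Q = fun z => ev P z * (ev Q z)⁻¹ := by
    ext z; unfold qu; rw [div_eq_mul_inv]
  rw [h3]
  refine h2.congr_fderiv ?_
  unfold qu'
  ext w
  · simp only [ContinuousLinearMap.comp_apply, ContinuousLinearMap.add_apply,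
      ContinuousLinearMap.smul_apply, ContinuousLinearMap.sub_apply, smul_eq_mul]
    field_simp
    ring
  · simp only [ContinuousLinearMap.comp_apply, ContinuousLinearMap.add_apply,
      ContinuousLinearMap.smul_apply, ContinuousLinearMap.sub_apply, smul_eq_mul]
    field_simp
    ring

lemma sq_field (P Q : MvPolynomial (Fin 2) ℝ) {z : ℝ × ℝ} (hz : ev Q z ≠ 0) :
    H709R2.sq (field P Q z) = ev Q z ^ 2 * (1 + qu P Q z ^ 2) := by
  have h1 : H709R2.sq (field P Q z) = ev P z ^ 2 + ev Q z ^ 2 := rfl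
  rw [h1]
  unfold qu
  field_simp
  ring

lemma wedge_field (P Q : MvPolynomial (Fin 2) ℝ) (z w : ℝ × ℝ) :
    wedge (field P Q z) (fderiv ℝ (field P Q) z w) =
      ev P z * fderiv ℝ (ev Q) z w - ev Q z * fderiv ℝ (ev P) z w := by
  rw [fderiv_field]
  rfl

lemma qu'_apply (P Q : MvPolynomial (Fin 2) ℝ) {z : ℝ × ℝ} (w : ℝ × ℝ) (hz : ev Q z ≠ 0) :
    qu' P Q z w = - dth (field P Q) w z * (1 + qu P Q z ^ 2) := by
  have h3 : (1 + qu P Q z ^ 2) ≠ 0 := by positivity
  have h4 : qu' P Q z w = (ev Q z ^ 2)⁻¹ *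
      (ev Q z * fderiv ℝ (ev P) z w - ev P z * fderiv ℝ (ev Q) z w) := rfl
  unfold dth
  rw [sq_field P Q hz, wedge_field, h4]
  field_simp
  ring

lemma key_dth (P Q : MvPolynomial (Fin 2) ℝ) {z : ℝ × ℝ} (w : ℝ × ℝ) (hz : ev Q z ≠ 0) :
    fderiv ℝ (ev P) z w - qu P Q z * fderiv ℝ (ev Q) z w =
      - dth (field P Q) w z * (ev Q z * (1 + qu P Q z ^ 2)) := by
  have h3 : (1 + qu P Q z ^ 2) ≠ 0 := by positivity
  unfold dth
  rw [sq_field P Q hz, wedge_field]
  have h5 : -((ev P z * fderiv ℝ (ev Q) z w - ev Q z * fderiv ℝ (ev P) z w) /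
      (ev Q z ^ 2 * (1 + qu P Q z ^ 2))) * (ev Q z * (1 + qu P Q z ^ 2)) =
      -(ev P z * fderiv ℝ (ev Q) z w - ev Q z * fderiv ℝ (ev P) z w) / ev Q z := by
    field_simp
  rw [h5]
  unfold qu
  field_simp
  ring

/-- the set where the translated map is a local diffeomorphism -/
def reg (P Q : MvPolynomial (Fin 2) ℝ) (v : ℝ × ℝ) : Set (ℝ × ℝ) :=
  {x | ev Q x ≠ 0 ∧ ev Q (x + v) ≠ 0 ∧ kap (field P Q) x (x + v) ≠ 0}

lemma measurable_kap_add (P Q : MvPolynomial (Fin 2) ℝ) (v : ℝ × ℝ) :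
    Measurable fun x : ℝ × ℝ => kap (field P Q) x (x + v) := by
  have h1 := measurable_kap (F := field P Q) (contDiff_field P Q)
  have h2 : Measurable fun x : ℝ × ℝ => (x, x + v) := by fun_prop
  generalize field P Q = F at h1 ⊢
  exact Measurable.comp (g := fun p : (ℝ × ℝ) × (ℝ × ℝ) => kap F p.1 p.2) h1 h2

lemma measurableSet_reg (P Q : MvPolynomial (Fin 2) ℝ) (v : ℝ × ℝ) : MeasurableSet (reg P Q v) := by
  have hqm : Measurable (ev Q) := (contDiff_ev Q (m := 1)).continuous.measurable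
  have h1 : MeasurableSet {x | ev Q x ≠ 0} := (hqm (measurableSet_singleton 0)).compl
  have h2 : MeasurableSet {x | ev Q (x + v) ≠ 0} :=
    ((hqm.comp (measurable_id.add_const v)) (measurableSet_singleton 0)).compl
  have h3 : MeasurableSet {x | kap (field P Q) x (x + v) ≠ 0} :=
    ((measurable_kap_add P Q v) (measurableSet_singleton 0)).compl
  exact h1.inter (h2.inter h3)

lemma lintegral_reg {P Q : MvPolynomial (Fin 2) ℝ} (hQ0 : Q ≠ 0) (v : ℝ × ℝ) :
    ∫⁻ x, ENNReal.ofReal |kap (field P Q) x (x + v)| =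
      ∫⁻ x in reg P Q v, ENNReal.ofReal |kap (field P Q) x (x + v)| := by
  have hnull1 : ∀ᵐ x : ℝ × ℝ, ev Q x ≠ 0 := by
    rw [ae_iff]
    simpa [ev] using plane_null hQ0
  have hnull2 : ∀ᵐ x : ℝ × ℝ, ev Q (x + v) ≠ 0 := by
    rw [ae_iff]
    have h1 := measure_preimage_add_right (volume : Measure (ℝ × ℝ)) v {x | ¬ ev Q x ≠ 0}
    rw [ae_iff.1 hnull1] at h1
    exact h1
  rw [← lintegral_indicator (measurableSet_reg P Q v)]
  refine lintegral_congr_ae ?_
  filter_upwards [hnull1, hnull2] with x h1 h2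
  by_cases h3 : kap (field P Q) x (x + v) = 0
  · by_cases h4 : x ∈ reg P Q v
    · rw [indicator_of_mem h4]
    · rw [indicator_of_notMem h4, h3]
      simp
  · rw [indicator_of_mem (show x ∈ reg P Q v from ⟨h1, h2, h3⟩)]

/-- the translated map -/
def tm (P Q : MvPolynomial (Fin 2) ℝ) (v x : ℝ × ℝ) : ℝ × ℝ := (qu P Q x, qu P Q (x + v))

/-- derivative of the translated map -/
def tm' (P Q : MvPolynomial (Fin 2) ℝ) (v x : ℝ × ℝ) : (ℝ × ℝ) →L[ℝ] (ℝ × ℝ) :=
  (qu' P Q x).prod (qu' P Q (x + v))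

lemma hasFDerivAt_tm (P Q : MvPolynomial (Fin 2) ℝ) {v x : ℝ × ℝ} (hx : x ∈ reg P Q v) :
    HasFDerivAt (tm P Q v) (tm' P Q v x) x := by
  have h1 := hasFDerivAt_qu P Q hx.1
  have h2 : HasFDerivAt (fun x => qu P Q (x + v)) (qu' P Q (x + v)) x :=
    (hasFDerivAt_comp_add_right v).2 (hasFDerivAt_qu P Q hx.2.1)
  exact h1.prodMk h2

lemma det_tm' (P Q : MvPolynomial (Fin 2) ℝ) {v x : ℝ × ℝ} (hx : x ∈ reg P Q v) :
    (tm' P Q v x).det = kap (field P Q) x (x + v) *
      ((1 + qu P Q x ^ 2) * (1 + qu P Q (x + v) ^ 2)) := by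
  have h1 : ∀ w, tm' P Q v x w = (qu' P Q x w, qu' P Q (x + v) w) := fun w => rfl
  rw [GR.Flow.det_plane, h1, h1, qu'_apply P Q _ hx.1, qu'_apply P Q _ hx.1,
    qu'_apply P Q _ hx.2.1, qu'_apply P Q _ hx.2.1]
  unfold kap
  ring

lemma card_tm {n : ℕ} {P Q : MvPolynomial (Fin 2) ℝ} (hP : P.totalDegree ≤ n)
    (hQ : Q.totalDegree ≤ n) (v y : ℝ × ℝ) :
    (reg P Q v ∩ tm P Q v ⁻¹' {y}).encard ≤ (n ^ 2 : ℕ) := by
  obtain ⟨c, c'⟩ := y
  have hdeg : ∀ c : ℝ, (P - MvPolynomial.C c * Q).totalDegree ≤ n := by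
    intro c
    refine (MvPolynomial.totalDegree_sub _ _).trans (max_le hP ?_)
    refine (MvPolynomial.totalDegree_mul _ _).trans ?_
    rw [MvPolynomial.totalDegree_C, zero_add]
    exact hQ
  refine le_trans (encard_le_encard ?_) (nd_bezout (hdeg c)
    ((totalDegree_shiftP v _).trans (hdeg c')))
  rintro x ⟨hx, hxy⟩
  have hx1 : qu P Q x = c := congrArg Prod.fst hxy
  have hx2 : qu P Q (x + v) = c' := congrArg Prod.snd hxy
  have hAe : ∀ z, ev (P - MvPolynomial.C c * Q) z = ev P z - c * ev Q z := by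
    intro z; simp [ev]
  have hBe : ∀ z, ev (shiftP v (P - MvPolynomial.C c' * Q)) z =
      ev P (z + v) - c' * ev Q (z + v) := by
    intro z
    rw [ev, eval_shiftP]
    simp [ev]
  have hAd : ∀ w, fderiv ℝ (ev (P - MvPolynomial.C c * Q)) x w =
      fderiv ℝ (ev P) x w - c * fderiv ℝ (ev Q) x w := by
    intro w
    have h1 : ev (P - MvPolynomial.C c * Q) = fun z => ev P z - c * ev Q z := funext hAe
    have h2 := ((hasFDerivAt_ev P x).sub ((hasFDerivAt_ev Q x).const_mul c)).fderiv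
    rw [h1]
    change fderiv ℝ (fun z => ev P z - c * ev Q z) x = _ at h2
    rw [h2]
    rfl
  have hBd : ∀ w, fderiv ℝ (ev (shiftP v (P - MvPolynomial.C c' * Q))) x w =
      fderiv ℝ (ev P) (x + v) w - c' * fderiv ℝ (ev Q) (x + v) w := by
    intro w
    have h1 : ev (shiftP v (P - MvPolynomial.C c' * Q)) =
        fun z => ev P (z + v) - c' * ev Q (z + v) := funext hBe
    have h2 : HasFDerivAt (fun z => ev P (z + v)) (fderiv ℝ (ev P) (x + v)) x :=
      (hasFDerivAt_comp_add_right v).2 (hasFDerivAt_ev P (x + v))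
    have h3 : HasFDerivAt (fun z => ev Q (z + v)) (fderiv ℝ (ev Q) (x + v)) x :=
      (hasFDerivAt_comp_add_right v).2 (hasFDerivAt_ev Q (x + v))
    have h4 := (h2.sub (h3.const_mul c')).fderiv
    rw [h1]
    change fderiv ℝ (fun z => ev P (z + v) - c' * ev Q (z + v)) x = _ at h4
    rw [h4]
    rfl
  have h1 := hx.1
  have h2 := hx.2.1
  refine ⟨?_, ?_⟩
  · have h3 : ev P x - c * ev Q x = 0 := by
      rw [← hx1]; unfold qu; field_simp; ring
    have h4 : ev P (x + v) - c' * ev Q (x + v) = 0 := by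
      rw [← hx2]; unfold qu; field_simp; ring
    have h5 : field (P - MvPolynomial.C c * Q) (shiftP v (P - MvPolynomial.C c' * Q)) x =
      (ev (P - MvPolynomial.C c * Q) x, ev (shiftP v (P - MvPolynomial.C c' * Q)) x) := rfl
    rw [h5, hAe, hBe, h3, h4]
    rfl
  · rw [fderiv_field, fderiv_field, hAd, hAd, hBd, hBd, ← hx1, ← hx2, key_dth P Q _ h1,
      key_dth P Q _ h1, key_dth P Q _ h2, key_dth P Q _ h2]
    have h6 : wedge (-dth (field P Q) (1, 0) x * (ev Q x * (1 + qu P Q x ^ 2)),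
        -dth (field P Q) (1, 0) (x + v) * (ev Q (x + v) * (1 + qu P Q (x + v) ^ 2)))
        (-dth (field P Q) (0, 1) x * (ev Q x * (1 + qu P Q x ^ 2)),
        -dth (field P Q) (0, 1) (x + v) * (ev Q (x + v) * (1 + qu P Q (x + v) ^ 2))) =
        kap (field P Q) x (x + v) * ((ev Q x * (1 + qu P Q x ^ 2)) *
          (ev Q (x + v) * (1 + qu P Q (x + v) ^ 2))) := by
      unfold wedge kap
      ring
    rw [h6]
    have h7 : (1 + qu P Q x ^ 2) ≠ 0 := by positivity
    have h8 : (1 + qu P Q (x + v) ^ 2) ≠ 0 := by positivity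
    exact mul_ne_zero hx.2.2 (mul_ne_zero (mul_ne_zero h1 h7) (mul_ne_zero h2 h8))

/-- product of two Cauchy densities -/
def cau (y : ℝ × ℝ) : ℝ≥0∞ :=
  ENNReal.ofReal ((1 + y.1 ^ 2)⁻¹) * ENNReal.ofReal ((1 + y.2 ^ 2)⁻¹)

lemma measurable_cau : Measurable cau := by
  have hm : Measurable fun c : ℝ => ENNReal.ofReal ((1 + c ^ 2)⁻¹) :=
    ((measurable_const.add (measurable_id.pow_const 2)).inv).ennreal_ofReal
  exact Measurable.mul (f := fun y : ℝ × ℝ => ENNReal.ofReal ((1 + y.1 ^ 2)⁻¹))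
    (g := fun y : ℝ × ℝ => ENNReal.ofReal ((1 + y.2 ^ 2)⁻¹))
    (hm.comp measurable_fst) (hm.comp measurable_snd)

lemma lintegral_cau : ∫⁻ y, cau y = ENNReal.ofReal π * ENNReal.ofReal π := by
  rw [Measure.volume_eq_prod]
  have hm : Measurable fun c : ℝ => ENNReal.ofReal ((1 + c ^ 2)⁻¹) :=
    ((measurable_const.add (measurable_id.pow_const 2)).inv).ennreal_ofReal
  unfold cau
  rw [lintegral_prod_mul (f := fun c : ℝ => ENNReal.ofReal ((1 + c ^ 2)⁻¹))
    (g := fun c : ℝ => ENNReal.ofReal ((1 + c ^ 2)⁻¹)) hm.aemeasurable hm.aemeasurable,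
    integral_cauchy]

lemma dth_zero (P : MvPolynomial (Fin 2) ℝ) (w z : ℝ × ℝ) : dth (field P 0) w z = 0 := by
  unfold dth
  rw [wedge_field]
  have h1 : ev (0 : MvPolynomial (Fin 2) ℝ) = fun _ => 0 := by
    ext z; simp [ev]
  rw [h1]
  simp

/-- **Translated theorem of Bezout.** -/
theorem trans_bezout {n : ℕ} {P Q : MvPolynomial (Fin 2) ℝ} (hP : P.totalDegree ≤ n)
    (hQ : Q.totalDegree ≤ n) (v : ℝ × ℝ) :
    ∫⁻ x, ENNReal.ofReal |kap (field P Q) x (x + v)| ≤ ENNReal.ofReal (n ^ 2 * π ^ 2) := by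
  by_cases hQ0 : Q = 0
  · subst hQ0
    simp [kap, dth_zero]
  rw [lintegral_reg hQ0]
  have h1 := lintegral_abs_det_mul_le volume (measurableSet_reg P Q v)
    (f := tm P Q v) (f' := tm' P Q v)
    (fun x hx => (hasFDerivAt_tm P Q hx).hasFDerivWithinAt) (by
      intro x hx
      rw [det_tm' P Q hx]
      exact mul_ne_zero hx.2.2 (by positivity)) (card_tm hP hQ v) measurable_cau
  have e2 : ∫⁻ x in reg P Q v, ENNReal.ofReal |kap (field P Q) x (x + v)| =
      ∫⁻ x in reg P Q v, ENNReal.ofReal |(tm' P Q v x).det| * cau (tm P Q v x) := by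
    refine setLIntegral_congr_fun (measurableSet_reg P Q v) fun x hx => ?_
    simp only [cau, tm]
    rw [det_tm' P Q hx, abs_mul,
      abs_of_pos (show 0 < (1 + qu P Q x ^ 2) * (1 + qu P Q (x + v) ^ 2) by positivity),
      ← ENNReal.ofReal_mul (by positivity), ← ENNReal.ofReal_mul (by positivity)]
    congr 1
    field_simp
  rw [e2]
  refine h1.trans ?_
  rw [lintegral_cau, ← ENNReal.ofReal_mul pi_pos.le, ← ENNReal.ofReal_natCast,
    ← ENNReal.ofReal_mul (by positivity)]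
  apply ENNReal.ofReal_le_ofReal
  push_cast
  exact le_of_eq (by ring)

end

end Run7.h202
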