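import Pool.Agent.Run7.h202.Ins
import Pool.Agent.H709U.T2

/-! Hopf's Umlaufsatz: the tangent direction of a simple closed curve turns by `2 π` or `- 2 π`.
The proof follows the file `Pool.Agent.H709U.T2` of the starting tree. -/

open Real Set Topology Filter

namespace Run7.h202

open Pool.Agent.H709U (S_T1)
open Pool.Agent.H709U.T2
open Pool.Agent

/-- the core: lowest point at time `0`, positive direction -/
theorem umlauf_core (h1 : S_T1) (γ γ' : ℝ → ℂ) (T : ℝ) (hT : 0 < T)
    (hder : ∀ t, HasDerivAt γ (γ' t) t) (hcont : Continuous γ') (hper : ∀ t, γ (t + T) = γ t)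
    (hper' : ∀ t, γ' (t + T) = γ' t)
    (hne : ∀ t, γ' t ≠ 0) (hinj : ∀ s t, γ s = γ t → ∃ k : ℤ, s = t + k * T)
    (L : ℝ → ℂ) (hL : Continuous L) (hexp : ∀ t, Complex.exp (L t) = γ' t)
    (hmin : ∀ t, (γ 0).im ≤ (γ t).im) (c : ℝ) (hc : 0 < c) (hγ0 : γ' 0 = c) :
    (L T).im - (L 0).im = 2 * π := by
  obtain ⟨E, hE, hE0, hEoff, hEdiag, r0, hr0, hEcorner⟩ := h1 γ γ' T hT hder hcont hper hne hinj
  obtain ⟨M, hM, hME⟩ := Saddle486.exists_log hE hE0
  have hγT : γ T = γ 0 := by have := hper 0; rwa [zero_add] at this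
  have hγ'T : γ' T = c := by have := hper' 0; rw [zero_add] at this; rw [this, hγ0]
  -- values at the corners
  have hc00 : Real.cos (M (0, 0)).im = 1 ∧ Real.sin (M (0, 0)).im = 0 := by
    obtain ⟨r, hr, h⟩ := hEdiag 0 le_rfl hT.le
    apply pos_dir (a := c / r) (by positivity)
    rw [hME]
    rw [hγ0] at h
    push_cast
    rw [h]
    have : (r : ℂ) ≠ 0 := by exact_mod_cast hr.ne'
    field_simp
  have hcTT : Real.cos (M (T, T)).im = 1 ∧ Real.sin (M (T, T)).im = 0 := by
    obtain ⟨r, hr, h⟩ := hEdiag T hT.le le_rfl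
    apply pos_dir (a := c / r) (by positivity)
    rw [hME]
    rw [hγ'T] at h
    push_cast
    rw [h]
    have : (r : ℂ) ≠ 0 := by exact_mod_cast hr.ne'
    field_simp
  have hc0T : Real.cos (M (0, T)).im = -1 ∧ Real.sin (M (0, T)).im = 0 := by
    apply neg_dir (a := -(c / r0)) (by have : 0 < c / r0 := by positivity
                                       linarith)
    rw [hME]
    have h := hEcorner
    rw [hγ0] at h
    push_cast
    rw [h]
    have : (r0 : ℂ) ≠ 0 := by exact_mod_cast hr0.ne'
    field_simp
  -- first side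
  have hs1 : ∀ t ∈ Icc 0 T, 0 ≤ Real.sin (M (0, t)).im := by
    intro t ht
    rcases eq_or_lt_of_le ht.1 with h | h
    · rw [← h, hc00.2]
    rcases eq_or_lt_of_le ht.2 with h' | h'
    · rw [h', hc0T.2]
    obtain ⟨r, hr, h2⟩ := hEoff 0 t le_rfl h ht.2 (by
      intro h3
      exact h'.ne (congrArg Prod.snd h3))
    have h3 := congrArg Complex.im h2
    rw [Complex.sub_im, Complex.im_ofReal_mul, ← hME, Complex.exp_im] at h3
    have h4 : 0 ≤ r * (Real.exp (M (0, t)).re * Real.sin (M (0, t)).im) := by
      rw [← h3]; linarith [hmin t]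
    have h5 : 0 ≤ Real.exp (M (0, t)).re * Real.sin (M (0, t)).im :=
      (mul_nonneg_iff_of_pos_left hr).mp h4
    exact (mul_nonneg_iff_of_pos_left (Real.exp_pos _)).mp h5
  have hs2 : ∀ s ∈ Icc 0 T, Real.sin (M (s, T)).im ≤ 0 := by
    intro s hs
    rcases eq_or_lt_of_le hs.1 with h | h
    · rw [← h, hc0T.2]
    rcases eq_or_lt_of_le hs.2 with h' | h'
    · rw [h', hcTT.2]
    obtain ⟨r, hr, h2⟩ := hEoff s T h.le h' le_rfl (by
      intro h3
      exact h.ne' (congrArg Prod.fst h3))
    have h3 := congrArg Complex.im h2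
    rw [hγT, Complex.sub_im, Complex.im_ofReal_mul, ← hME, Complex.exp_im] at h3
    have h4 : 0 ≤ r * (Real.exp (M (s, T)).re * (-Real.sin (M (s, T)).im)) := by
      have : r * (Real.exp (M (s, T)).re * (-Real.sin (M (s, T)).im)) =
        -(r * (Real.exp (M (s, T)).re * Real.sin (M (s, T)).im)) := by ring
      rw [this, ← h3]; linarith [hmin s]
    have h5 := (mul_nonneg_iff_of_pos_left hr).mp h4
    have h6 := (mul_nonneg_iff_of_pos_left (Real.exp_pos _)).mp h5
    linarith
  have hMim : Continuous fun q : ℝ × ℝ => (M q).im := Complex.continuous_im.comp hM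
  -- turn along the first side
  have ht1 : (M (0, T)).im - (M (0, 0)).im = π := by
    refine half (φ := fun t => (M (0, t)).im - (M (0, 0)).im) hT.le ?_ (by simp) ?_ ?_
    · apply Continuous.continuousOn
      exact (hMim.comp (by fun_prop : Continuous fun t : ℝ => ((0 : ℝ), t))).sub continuous_const
    · intro t ht
      rw [Real.sin_sub, hc00.1, hc00.2, mul_one, mul_zero, sub_zero]
      exact hs1 t ht
    · rw [Real.cos_sub, hc00.1, hc00.2, hc0T.1]
      ring
  have ht2 : (M (T, T)).im - (M (0, T)).im = π := by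
    refine half (φ := fun s => (M (s, T)).im - (M (0, T)).im) hT.le ?_ (by simp) ?_ ?_
    · apply Continuous.continuousOn
      exact (hMim.comp (by fun_prop : Continuous fun s : ℝ => (s, T))).sub continuous_const
    · intro s hs
      rw [Real.sin_sub, hc0T.1, hc0T.2]
      have := hs2 s hs
      linarith
    · rw [Real.cos_sub, hc0T.1, hc0T.2, hcTT.1]
      ring
  -- the diagonal
  have hdiag : ∀ t ∈ Icc 0 T, Real.sin ((L t).im - (M (t, t)).im) = 0 ∧
      Real.cos ((L t).im - (M (t, t)).im) = 1 := by
    intro t ht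
    obtain ⟨r, hr, h⟩ := hEdiag t ht.1 ht.2
    have h2 : ((r : ℝ) : ℂ) = Complex.exp (L t - M (t, t)) := by
      rw [Complex.exp_sub, hexp, hME, h]
      have := hE0 (t, t)
      field_simp
    have h3 := pos_dir hr h2
    rw [Complex.sub_im] at h3
    exact ⟨h3.2, h3.1⟩
  have hcd : Continuous fun t : ℝ => (L t).im - (M (t, t)).im :=
    (Complex.continuous_im.comp hL).sub (hMim.comp (by fun_prop : Continuous fun t : ℝ => (t, t)))
  have hd0 := hdiag 0 ⟨le_rfl, hT.le⟩
  have hdd1 := angle (φ := fun t => ((L t).im - (M (t, t)).im) - ((L 0).im - (M (0, 0)).im))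
    (T := T) ((hcd.sub continuous_const).continuousOn) (by simp) (by
      intro t ht
      rw [Real.sin_sub, (hdiag t ht).1, hd0.1]
      simp) T ⟨hT.le, le_rfl⟩
  have hdd2 := angle (φ := fun t => ((L 0).im - (M (0, 0)).im) - ((L t).im - (M (t, t)).im))
    (T := T) ((continuous_const.sub hcd).continuousOn) (by simp) (by
      intro t ht
      rw [Real.sin_sub, (hdiag t ht).1, hd0.1]
      simp) T ⟨hT.le, le_rfl⟩
  have := Real.pi_pos
  linarith [hdd1.1, hdd2.1]


/-- the Umlaufsatz -/
theorem umlauf (γ γ' : ℝ → ℂ) (T : ℝ) (hT : 0 < T) (hder : ∀ t, HasDerivAt γ (γ' t) t)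
    (hcont : Continuous γ') (hper : ∀ t, γ (t + T) = γ t) (hne : ∀ t, γ' t ≠ 0)
    (hinj : ∀ s t, γ s = γ t → ∃ k : ℤ, s = t + k * T)
    (L : ℝ → ℂ) (hL : Continuous L) (hexp : ∀ t, Complex.exp (L t) = γ' t) :
    (L T).im - (L 0).im = 2 * π ∨ (L T).im - (L 0).im = -(2 * π) := by
  -- periodicity of the derivative
  have hper' : ∀ t, γ' (t + T) = γ' t := by
    intro t
    have e1 : HasDerivAt (fun x => γ (x + T)) (γ' (t + T)) t := by
      simpa using (hder (t + T)).comp_add_const t T
    have e2 : (fun x => γ (x + T)) = γ := funext hper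
    rw [e2] at e1
    exact e1.unique (hder t)
  have h1 := Pool.Agent.H709U.t1
  have hLper : ∀ t, L (t + T) = L t + (L T - L 0) := by
    have h2 : (fun t => L (t + T)) = fun t => L t + (L T - L 0) := by
      apply log_unique (f := fun t => L (t + T)) (g := fun t => L t + (L T - L 0))
        (hL.comp (continuous_add_const T)) (hL.add continuous_const)
      · intro t
        have h3 : Complex.exp (L T - L 0) = 1 := by
          rw [Complex.exp_sub, hexp, hexp]
          have := hper' 0
          rw [zero_add] at this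
          rw [this, div_self (hne 0)]
        rw [Complex.exp_add, h3, mul_one, hexp, hexp, hper']
      · simp only [zero_add]
        ring
    intro t
    exact congrFun h2 t
  have hγc : Continuous γ := continuous_iff_continuousAt.mpr (fun t => (hder t).continuousAt)
  -- the lowest point
  obtain ⟨t0, ht0⟩ : ∃ t0, ∀ t, (γ t0).im ≤ (γ t).im := by
    obtain ⟨t0, _, h3⟩ := (isCompact_Icc (a := (0 : ℝ)) (b := T)).exists_isMinOn
      ⟨0, le_rfl, hT.le⟩ ((Complex.continuous_im.comp hγc).continuousOn)
    refine ⟨t0, fun t => ?_⟩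
    have hp : Function.Periodic γ T := hper
    obtain ⟨y, hy, hy2⟩ := hp.exists_mem_Ico₀ hT t
    rw [hy2]
    exact h3 ⟨hy.1, hy.2.le⟩
  -- the derivative at the lowest point is real
  have him : (γ' t0).im = 0 := by
    have h4 : HasDerivAt (fun t => (γ t).im) (γ' t0).im t0 := by
      have h5 := (Complex.imCLM.hasFDerivAt (x := γ t0)).comp_hasDerivAt t0 (hder t0)
      exact h5
    apply IsLocalMin.hasDerivAt_eq_zero _ h4
    exact Filter.Eventually.of_forall ht0
  have hre : (γ' t0).re ≠ 0 := by
    intro h
    exact hne t0 (Complex.ext h him)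
  rcases lt_or_gt_of_ne hre with hneg | hpos
  · -- reverse time
    right
    have key : (L (t0 - T) + π * Complex.I).im - (L (t0 - 0) + π * Complex.I).im = 2 * π := by
      refine umlauf_core h1 (fun t => γ (t0 - t)) (fun t => -γ' (t0 - t)) T hT ?_ ?_ ?_ ?_ ?_ ?_
        (fun t => L (t0 - t) + π * Complex.I) ?_ ?_ ?_ (-(γ' t0).re) (by linarith) ?_
      · intro t
        have h5 := (hder (t0 - t)).scomp t ((hasDerivAt_id t).const_sub t0)
        rw [neg_one_smul] at h5
        exact h5
      · exact (hcont.comp (continuous_const.sub continuous_id)).neg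
      · intro t
        have := hper (t0 - (t + T))
        rw [← this]
        congr 1
        ring
      · intro t
        have := hper' (t0 - (t + T))
        rw [← this]
        congr 2
        ring
      · intro t
        exact neg_ne_zero.mpr (hne _)
      · intro s t hst
        obtain ⟨k, hk⟩ := hinj _ _ hst
        refine ⟨-k, ?_⟩
        push_cast
        linarith
      · exact (hL.comp (continuous_const.sub continuous_id)).add continuous_const
      · intro t
        rw [Complex.exp_add, Complex.exp_pi_mul_I, hexp]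
        ring
      · intro t
        simp only [sub_zero]
        exact ht0 _
      · simp only [sub_zero]
        apply Complex.ext
        · simp
        · simp [him]
    have h5 := congrArg Complex.im (hLper (t0 - T))
    rw [sub_add_cancel, Complex.add_im, Complex.sub_im] at h5
    rw [sub_zero, Complex.add_im, Complex.add_im] at key
    linarith
  · left
    have key : (L (t0 + T)).im - (L (t0 + 0)).im = 2 * π := by
      refine umlauf_core h1 (fun t => γ (t0 + t)) (fun t => γ' (t0 + t)) T hT ?_ ?_ ?_ ?_ ?_ ?_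
        (fun t => L (t0 + t)) ?_ ?_ ?_ (γ' t0).re hpos ?_
      · intro t
        have h5 := (hder (t0 + t)).scomp t ((hasDerivAt_id t).const_add t0)
        rw [one_smul] at h5
        exact h5
      · exact hcont.comp (continuous_const.add continuous_id)
      · intro t
        have := hper (t0 + t)
        rw [← this]
        congr 1
        ring
      · intro t
        have := hper' (t0 + t)
        rw [← this]
        congr 1
        ring
      · intro t
        exact hne _
      · intro s t hst
        obtain ⟨k, hk⟩ := hinj _ _ hst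
        exact ⟨k, by linarith⟩
      · exact hL.comp (continuous_const.add continuous_id)
      · intro t
        exact hexp _
      · intro t
        simp only [add_zero]
        exact ht0 _
      · simp only [add_zero]
        apply Complex.ext
        · simp
        · simp [him]
    have h5 := congrArg Complex.im (hLper t0)
    rw [Complex.add_im, Complex.sub_im] at h5
    rw [add_zero] at key
    linarith

noncomputable section

open Pool.Agent.H709R2 (rot wedge field)
open Pool.Agent.H709U (rf Orb)
open Pool.Agent.N224.Hil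

variable {P Q : MvPolynomial (Fin 2) ℝ}

/-- the total signed curvature of a closed orbit -/
theorem turn_eq {β : ℝ} {γ : ℝ → ℝ × ℝ} {T : ℝ} (h : Orb (rf (field P Q) β) γ T) :
    |∫ t in (0:ℝ)..T, ev (KK P Q β) (γ t) / ev (SQ P Q) (γ t)| = 2 * π := by
  have hγ := orb_cont h
  have hF : ContDiff ℝ 2 (field P Q) := Pool.Agent.H709R2.contDiff_field P Q
  have hFne : ∀ t, field P Q (γ t) ≠ 0 := by
    intro t h0
    have := sq_orb_pos h t
    rw [ev_SQ, h0] at this
    simp [Pool.Agent.H709R2.sq] at this
  -- the velocity and its derivative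
  obtain ⟨v, hv⟩ : ∃ v : ℝ → ℂ, v = fun t => cx (rf (field P Q) β (γ t)) := ⟨_, rfl⟩
  obtain ⟨a, ha⟩ : ∃ a : ℝ → ℝ × ℝ, a = fun t =>
    fderiv ℝ (field P Q) (γ t) (rf (field P Q) β (γ t)) := ⟨_, rfl⟩
  have hvr : ∀ t, v t = Complex.exp (β * Complex.I) * cx (field P Q (γ t)) := by
    intro t
    rw [hv]
    exact cx_rot β _
  have hvd : ∀ t, HasDerivAt v (Complex.exp (β * Complex.I) * cx (a t)) t := by
    intro t
    have h1 : HasDerivAt (fun t => field P Q (γ t)) (a t) t := by
      rw [ha]
      exact ((hF.differentiable (by norm_num) (γ t)).hasFDerivAt).comp_hasDerivAt t (h.ode t)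
    have h2 := (cx_deriv h1).const_mul (Complex.exp (β * Complex.I))
    exact h2.congr_of_eventuallyEq (Eventually.of_forall hvr)
  have hac : Continuous a := by
    rw [ha]
    have h1 : Continuous fun t => fderiv ℝ (field P Q) (γ t) :=
      (hF.continuous_fderiv (by norm_num)).comp hγ
    exact h1.clm_apply ((orb_loop h).cont)
  have hvne : ∀ t, v t ≠ 0 := by
    intro t
    rw [hv]
    exact cx_ne (h.ne t)
  have hvc : Continuous v := continuous_iff_continuousAt.2 fun t => (hvd t).continuousAt
  obtain ⟨w, hw⟩ : ∃ w : ℝ → ℂ, w = fun t => cx (a t) / cx (field P Q (γ t)) := ⟨_, rfl⟩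
  have hwv : ∀ t, Complex.exp (β * Complex.I) * cx (a t) = v t * w t := by
    intro t
    rw [hvr, hw]
    simp only
    have := cx_ne (hFne t)
    field_simp
  have hwc : Continuous w := by
    rw [hw]
    exact (cx_cont hac).div (cx_cont (hF.continuous.comp hγ)) fun t => cx_ne (hFne t)
  -- the logarithm
  obtain ⟨L, hL⟩ : ∃ L : ℝ → ℂ, L = fun t => Complex.log (v 0) + ∫ s in (0:ℝ)..t, w s := ⟨_, rfl⟩
  have hLd : ∀ t, HasDerivAt L (w t) t := by
    intro t
    rw [hL]
    exact (hwc.integral_hasStrictDerivAt 0 t).hasDerivAt.const_add _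
  have hLc : Continuous L := continuous_iff_continuousAt.2 fun t => (hLd t).continuousAt
  have hexp : ∀ t, Complex.exp (L t) = v t := by
    have hG : ∀ t, HasDerivAt (fun t => v t * Complex.exp (-L t)) 0 t := by
      intro t
      have h1 := (hvd t).mul ((hLd t).neg.cexp)
      refine h1.congr_deriv ?_
      rw [hwv]
      ring
    have h2 : ∀ t, v t * Complex.exp (-L t) = v 0 * Complex.exp (-L 0) := fun t =>
      is_const_of_deriv_eq_zero (fun t => (hG t).differentiableAt) (fun t => (hG t).deriv) t 0
    intro t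
    have h3 : L 0 = Complex.log (v 0) := by
      rw [hL]
      simp
    have h4 := h2 t
    rw [h3, Complex.exp_neg, Complex.exp_neg, Complex.exp_log (hvne 0),
      mul_inv_cancel₀ (hvne 0)] at h4
    have h5 := Complex.exp_ne_zero (L t)
    field_simp at h4
    exact h4.symm
  have hTT := umlauf (fun t => cx (γ t)) v T h.pos
    (fun t => by rw [hv]; exact cx_deriv (h.ode t)) hvc
    (fun t => by simp only [h.per t]) hvne (fun s t hst => h.inj s t (cx_inj hst)) L hLc hexp
  have hLT : L T - L 0 = ∫ s in (0:ℝ)..T, w s := by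
    rw [hL]
    simp
  have him : (∫ s in (0:ℝ)..T, w s).im =
      ∫ t in (0:ℝ)..T, ev (KK P Q β) (γ t) / ev (SQ P Q) (γ t) := by
    have h1 : (∫ s in (0:ℝ)..T, w s).im = ∫ s in (0:ℝ)..T, (w s).im := by
      have := Complex.imCLM.intervalIntegral_comp_comm
        (hwc.intervalIntegrable (μ := MeasureTheory.volume) 0 T)
      exact this.symm
    rw [h1]
    congr 1
    funext t
    rw [hw]
    simp only
    rw [div_im, ← ev_SQ, KK_eq, ha]
  rw [← him, ← hLT, Complex.sub_im]
  have hπ := Real.pi_pos
  rcases hTT with h1 | h1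
  · rw [h1, abs_of_pos (by positivity)]
  · rw [h1, abs_neg, abs_of_pos (by positivity)]

end

end Run7.h202
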